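import Pool.Agent.Lib.MP_44eb6b_gt.Int.Names

/-!
Boolean values of statements on closed sets of the countable power.
-/

set_option autoImplicit false

namespace SymExt

namespace TK

open Name
open Pool.Agent.Lib.MP_44eb6b_gt Pool.Agent.Lib.MP_44eb6b_gt.TK

/-- The value of: the sequence `x` is in `φ`. -/
noncomputable def bF (φ : Name B) (x : ℕ → W × ℕ) : B := bmem (sN x) φ

/-- The value of: the sequences are close. -/
noncomputable def nearB (k : ℕ) (a : Finset K) (x y : ℕ → W × ℕ) : B :=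
  ⨆ p : {p : Pc // NearAt p k a x y}, eB p.1

theorem le_nearB {k : ℕ} {a : Finset K} {x y : ℕ → W × ℕ} {p : Pc} (h : NearAt p k a x y) :
    eB p ≤ nearB k a x y := le_iSup (fun p : {p : Pc // NearAt p k a x y} => eB p.1) ⟨p, h⟩

/-- The value of: the sequence `x` is in the closure of `φ`. -/
noncomputable def limB (φ : Name B) (x : ℕ → W × ℕ) : B :=
  ⨅ k, ⨅ a : Finset K, ⨆ y, bF φ y ⊓ nearB k a x y

/-- The value of: `φ` is closed. -/
noncomputable def closedB (φ : Name B) : B := ⨅ x, limB φ x ⇨ bF φ x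

/-- The value of: the members of the sequence `en` which are in `φ` are dense in `φ`. -/
noncomputable def denseB (φ : Name B) (en : ℕ → ℕ → W × ℕ) : B :=
  ⨅ x, bF φ x ⇨ ⨅ k, ⨅ a : Finset K, ⨆ i, bF φ (en i) ⊓ nearB k a x (en i)

theorem closed_le (φ : Name B) : closedB φ ≤ ⨆ en, denseB φ en := by
  refine G2Aux.le_of_no dense_eB fun p hp => ?_
  obtain ⟨q, hq, en, hen⟩ := coreF (Fo := fun r x => eB r ≤ bF φ x)
    (fun p q x h h1 => (dense_eB.mono _ _ h).trans h1) (p0 := p) (by
      intro p' hp' x hx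
      have h1 : eB p' ≤ limB φ x ⇨ bF φ x :=
        (dense_eB.mono _ _ hp').trans (hp.trans (iInf_le _ x))
      refine mp_le h1 ?_
      refine le_iInf fun k => le_iInf fun a => dense_eB.le_of_dense fun q hq => ?_
      obtain ⟨r, hr, y, h2, h3⟩ := hx k a q hq
      exact ⟨r, hr, intro_iSup y (le_inf h2 (le_nearB h3))⟩) (p := p) (le_refl _)
  refine ⟨q, hq, intro_iSup en ?_⟩
  refine le_iInf fun x => le_himp_iff_forall.2 fun Δ hΔ hx => ?_
  refine le_iInf fun k => le_iInf fun a => G2Aux.le_of_no dense_eB fun p' hp' => ?_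
  have h1 : eB p' ⊓ eB q ≠ ⊥ := by
    rw [inf_eq_left.2 (hp'.trans hΔ)]
    exact dense_eB.ne_bot p'
  obtain ⟨r, hr1, hr2⟩ := dense_eB.compat _ _ h1
  obtain ⟨r', hr', i, h2, h3⟩ := hen r hr2 x
    ((dense_eB.mono _ _ hr1).trans (hp'.trans hx)) k a
  exact ⟨r', le_trans hr' hr1, intro_iSup i (le_inf h2 (le_nearB h3))⟩

/-- Sequences of witnesses for partial functions. -/
theorem part_top (b : ℕ → W → B) :
    (⨆ s : ℕ → W, ⨅ n, ((⨆ α, b n α) ⇨ b n (s n))) = ⊤ := by
  rw [eq_top_iff]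
  refine le_trans ?_ (stDist Pc B eB dense_eB cclosed ℕ (fun _ => W)
    (fun n t => (⨆ α, b n α) ⇨ b n t))
  refine le_iInf fun n => ?_
  have h1 : (⨆ α, b n α) ⊔ (⨆ α, b n α)ᶜ = ⊤ := sup_compl_eq_top
  rw [← h1]
  refine sup_le (iSup_le fun α => ?_) ?_
  · exact intro_iSup α le_himp
  · refine intro_iSup default ?_
    rw [himp_eq]
    exact le_sup_right

open Classical in
/-- The value of: `τ` contains exactly the natural numbers of `s`. -/
noncomputable def subB (τ : Name B) (s : Set ℕ) : B :=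
  ⨅ n, if n ∈ s then bmem (natN n) τ else (bmem (natN n) τ)ᶜ

/-- Sets of natural numbers can be decided. -/
theorem sub_top (τ : Name B) : (⨆ s : Set ℕ, subB τ s) = ⊤ := by
  classical
  rw [eq_top_iff]
  have h1 := stDist Pc B eB dense_eB cclosed ℕ (fun _ => Bool)
    (fun n t => if t = true then bmem (natN n) τ else (bmem (natN n) τ)ᶜ)
  refine le_trans (le_trans ?_ h1) ?_
  · refine le_iInf fun n => ?_
    rw [← sup_compl_eq_top (x := bmem (natN n) τ)]
    refine sup_le ?_ ?_
    · exact intro_iSup true (by simp)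
    · exact intro_iSup false (by simp)
  · refine iSup_le fun h => ?_
    refine intro_iSup {n | h n = true} ?_
    refine iInf_mono fun n => ?_
    by_cases hn : h n = true
    · rw [if_pos hn, if_pos (show n ∈ {n | h n = true} from hn)]
    · rw [if_neg hn, if_neg (show n ∉ {n | h n = true} from hn)]

/-- Sequences of witnesses. -/
theorem seq_le {A : Type} (b : ℕ → A → B) :
    (⨅ n, ⨆ a, b n a) ≤ ⨆ s : ℕ → A, ⨅ n, b n (s n) :=
  stDist Pc B eB dense_eB cclosed ℕ (fun _ => A) b

theorem ht_top (α : W) : (⨆ p : {p : Pc // α < p.d}, eB p.1) = ⊤ := by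
  refine dense_eB.eq_top_of_dense fun q => ?_
  refine ⟨up q (nx α), up_le _ _, ?_⟩
  have h : α < (up q (nx α)).d := (lt_nx _).trans_le (le_up _ _)
  exact le_iSup (fun p : {p : Pc // α < p.d} => eB p.1) ⟨_, h⟩

end TK

end SymExt
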