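import Pool.Agent.Lib.MP_44eb6b_gt.Int.Pw

/-!
The set of the continuous functions of the model.
-/

set_option autoImplicit false

namespace SymExt

namespace TK

open Name Topology
open Pool.Agent.Lib.MP_44eb6b_gt Pool.Agent.Lib.MP_44eb6b_gt.TK

/-! ### Formulas -/

/-- The sets in `a` do not separate `x` and `y`. -/
def Nr (N : Set ZFSet.{0}) (a x y : ZFSet.{0}) : Prop := ∀ l ∈ N, l ∈ a → (l ∈ x ↔ l ∈ y)

/-- `d` is a function from `X` to `R`. -/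
def FunC (N : Set ZFSet.{0}) (X R d : ZFSet.{0}) : Prop :=
  (∀ w ∈ N, w ∈ d → ∃ x ∈ N, x ∈ X ∧ ∃ r ∈ N, r ∈ R ∧ w = ZFSet.pair x r) ∧
  (∀ x ∈ N, x ∈ X → ∃ r ∈ N, r ∈ R ∧ ZFSet.pair x r ∈ d) ∧
  ∀ x ∈ N, ∀ r ∈ N, ∀ s ∈ N, ZFSet.pair x r ∈ d → ZFSet.pair x s ∈ d → r = s

/-- `d` is lower semicontinuous. -/
def LowC (N : Set ZFSet.{0}) (Fi d : ZFSet.{0}) : Prop :=
  ∀ x ∈ N, ∀ r ∈ N, ZFSet.pair x r ∈ d → ∀ n ∈ N, n ∈ r → ∃ a ∈ N, a ∈ Fi ∧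
    ∀ y ∈ N, ∀ s ∈ N, ZFSet.pair y s ∈ d → Nr N a x y → n ∈ s

/-- `d` is upper semicontinuous. -/
def UpC (N : Set ZFSet.{0}) (Fi Lt d : ZFSet.{0}) : Prop :=
  ∀ x ∈ N, ∀ r ∈ N, ZFSet.pair x r ∈ d → ∀ n ∈ N, ∀ m ∈ N, ZFSet.pair n m ∈ Lt → ¬ n ∈ r →
    ∃ a ∈ N, a ∈ Fi ∧ ∀ y ∈ N, ∀ s ∈ N, ZFSet.pair y s ∈ d → Nr N a x y → ¬ m ∈ s

/-- `d` is a continuous function. -/
def CodeC (N : Set ZFSet.{0}) (X R Fi Lt d : ZFSet.{0}) : Prop :=
  FunC N X R d ∧ LowC N Fi d ∧ UpC N Fi Lt d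

section

variable {N : Set ZFSet.{0}} {n : ℕ}

open ModT

theorem dNr (i j k : Fin n) : Dfn N (fun v => Nr N (v i) (v j) (v k)) := by
  unfold Nr
  exact dall (dimp (dmem _ _) (diff (dmem _ _) (dmem _ _)))

theorem dFunC (h : IsZF N) (i j k : Fin n) : Dfn N (fun v => FunC N (v i) (v j) (v k)) := by
  unfold FunC
  exact dand (dall (dimp (dmem _ _) (dex (dand (dmem _ _) (dex (dand (dmem _ _)
    (dopair h _ _ _))))))) (dand (dall (dimp (dmem _ _) (dex (dand (dmem _ _) (dpmem h _ _ _)))))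
    (dall (dall (dall (dimp (dpmem h _ _ _) (dimp (dpmem h _ _ _) (deq _ _)))))))

theorem dLowC (h : IsZF N) (i j : Fin n) : Dfn N (fun v => LowC N (v i) (v j)) := by
  unfold LowC
  exact dall (dall (dimp (dpmem h _ _ _) (dall (dimp (dmem _ _) (dex (dand (dmem _ _)
    (dall (dall (dimp (dpmem h _ _ _) (dimp (dNr _ _ _) (dmem _ _)))))))))))

theorem dUpC (h : IsZF N) (i j k : Fin n) : Dfn N (fun v => UpC N (v i) (v j) (v k)) := by
  unfold UpC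
  exact dall (dall (dimp (dpmem h _ _ _) (dall (dall (dimp (dpmem h _ _ _)
    (dimp (dnot (dmem _ _)) (dex (dand (dmem _ _) (dall (dall (dimp (dpmem h _ _ _)
      (dimp (dNr _ _ _) (dnot (dmem _ _)))))))))))))) 

theorem dCodeC (h : IsZF N) (i j k l m : Fin n) :
    Dfn N (fun v => CodeC N (v i) (v j) (v k) (v l) (v m)) := by
  unfold CodeC
  exact dand (dFunC h _ _ _) (dand (dLowC h _ _) (dUpC h _ _ _))

end

/-! ### Semantics -/

variable {C : Set (Name B)} {U : Set B}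

theorem codeFun_inj {X : ZFSet.{0}} {f f' : Pt X → ℝ} {c : ZFSet.{0}} (hf : CodeFun f c)
    (hf' : CodeFun f' c) : f = f' := by
  funext x
  obtain ⟨x', hx'⟩ := (hf' _).1 ((hf _).2 ⟨x, rfl⟩)
  obtain ⟨h1, h2⟩ := ZFSet.pair_inj.1 hx'
  have h3 : x = x' := Subtype.ext h1
  rw [h3]
  rw [h3] at h2
  exact realC_inj h2

theorem codeFun_uniq {X : ZFSet.{0}} {f : Pt X → ℝ} {c d : ZFSet.{0}} (hc : CodeFun f c)
    (hd : CodeFun f d) : c = d := by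
  ext z
  rw [hc z, hd z]

theorem codeFun_pair {X : ZFSet.{0}} {f : Pt X → ℝ} {c : ZFSet.{0}} (hc : CodeFun f c)
    (x : Pt X) (s : ZFSet.{0}) : ZFSet.pair x.1 s ∈ c ↔ s = realC (f x) := by
  rw [hc]
  constructor
  · rintro ⟨x', hx'⟩
    obtain ⟨h1, h2⟩ := ZFSet.pair_inj.1 hx'
    have h3 : x = x' := Subtype.ext h1
    rw [h3, h2]
  · rintro rfl
    exact ⟨x, rfl⟩

open Classical in
/-- Neighborhoods given by finite sets. -/
theorem nb_fin {X : ZFSet.{0}} (x : Pt X) {S : Set ZFSet.{0}} (hS : S.Finite) :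
    {y : Pt X | ∀ l ∈ S, (l ∈ x.1 ↔ l ∈ y.1)} ∈ 𝓝 x := by
  have h1 : ∀ l ∈ S, ∀ᶠ y in 𝓝 x, (l ∈ x.1 ↔ l ∈ y.1) := by
    intro l _
    have h2 : Continuous (fun y : Pt X => decide (l ∈ y.1)) := by
      have h3 : Continuous (fun (y : Pt X) (l : ZFSet.{0}) => decide (l ∈ y.1)) :=
        continuous_induced_dom
      exact (continuous_apply l).comp h3
    have h4 : IsOpen {y : Pt X | decide (l ∈ y.1) = decide (l ∈ x.1)} :=
      (isOpen_discrete {decide (l ∈ x.1)}).preimage h2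
    filter_upwards [h4.mem_nhds rfl] with y hy
    have hy' : decide (l ∈ y.1) = decide (l ∈ x.1) := hy
    exact (decide_eq_decide.1 hy').symm
  exact (Filter.eventually_all_finite hS).2 h1

theorem open_fin (h : Good (triv B) C U) (g : GP C U) {O : Set (Pt (val C U XN))}
    (hO : IsOpen O) (x : Pt (val C U XN)) (hx : x ∈ O) :
    ∃ a, a ∈ val C U FinN ∧ a ∈ MN C U ∧
      ∀ y : Pt (val C U XN), (∀ l ∈ a, (l ∈ x.1 ↔ l ∈ y.1)) → y ∈ O := by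
  classical
  obtain ⟨p, rfl⟩ := (ee h g).surjective x
  obtain ⟨A, hA⟩ := open_phV (inducing_ee h g) O hO p hx
  have ht : ∀ l ∈ A.toList.map lm, lN l ∈ C := by
    intro l hl
    obtain ⟨l', _, rfl⟩ := List.mem_map.1 hl
    exact lm_mem h l'
  have hC := liN_mem h g _ ht
  refine ⟨val C U (liN (A.toList.map lm)), (mem_FinN h).2 ⟨_, hC, rfl⟩, val_mem hC, ?_⟩
  intro y hy
  obtain ⟨q, rfl⟩ := (ee h g).surjective y
  refine hA q fun l hl => ?_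
  have h1 := hy (val C U (lN (lm l))) ((mem_liN h _ ht).2
    ⟨lm l, List.mem_map.2 ⟨l, Finset.mem_toList.2 hl, rfl⟩, rfl⟩)
  rw [mem_ee, mem_ee] at h1
  exact Bool.eq_iff_iff.2 h1.symm

theorem of_CodeC (h : Good (triv B) C U) (g : GP C U) {d : ZFSet.{0}} (hd : d ∈ MN C U)
    (hc : CodeC (MN C U) (val C U XN) (val C U RN) (val C U FinN) (val C U LtN) d) :
    ∃ f : Pt (val C U XN) → ℝ, Continuous f ∧ CodeFun f d := by
  have hZ : IsZF (MN C U) := h.isZF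
  obtain ⟨⟨h1, h2, h3⟩, h4, h5⟩ := hc
  have hXN : val C U XN ∈ MN C U := val_mem g.cX
  have hxN : ∀ x : Pt (val C U XN), x.1 ∈ MN C U := fun x => hZ.trans _ hXN _ x.2
  have hex : ∀ x : Pt (val C U XN), ∃ r : ℝ, rN r ∈ C ∧ ZFSet.pair x.1 (realC r) ∈ d := by
    intro x
    obtain ⟨r, _, hr, hr'⟩ := h2 x.1 (hxN x) x.2
    obtain ⟨ρ, hρ, rfl⟩ := (mem_RN h).1 hr
    exact ⟨ρ, hρ, hr'⟩
  choose f hf1 hf2 using hex
  have hcf : CodeFun f d := by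
    intro z
    constructor
    · intro hz
      obtain ⟨x, _, hx, r, _, hr, rfl⟩ := h1 z (hZ.trans _ hd _ hz) hz
      obtain ⟨ρ, hρ, rfl⟩ := (mem_RN h).1 hr
      refine ⟨⟨x, hx⟩, ?_⟩
      have e := h3 x (hxN ⟨x, hx⟩) _ (realC_mem h hρ) _ (realC_mem h (hf1 ⟨x, hx⟩)) hz
        (hf2 ⟨x, hx⟩)
      rw [e]
    · rintro ⟨x, rfl⟩
      exact hf2 x
  refine ⟨f, ?_, hcf⟩
  have hnat : ∀ n : ℕ, natSet n ∈ MN C U := fun n => ModT.natSet_mem' hZ n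
  have hnb : ∀ (x : Pt (val C U XN)) (a : ZFSet.{0}), a ∈ val C U FinN →
      {y : Pt (val C U XN) | Nr (MN C U) a x.1 y.1} ∈ 𝓝 x := by
    intro x a ha
    obtain ⟨t, _, rfl⟩ := (mem_FinN h).1 ha
    filter_upwards [nb_fin x (liN_finite (C := C) (U := U) t)] with y hy
    exact fun l _ hl => hy l hl
  rw [continuous_iff_continuousAt]
  intro x
  have hpx := hf2 x
  have hrx := realC_mem h (hf1 x)
  refine tendsto_order.2 ⟨fun a ha => ?_, fun a ha => ?_⟩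
  · obtain ⟨q, hq1, hq2⟩ := exists_rat_btwn ha
    obtain ⟨b, _, hb, h6⟩ := h4 x.1 (hxN x) _ hrx hpx (natSet (Encodable.encode q)) (hnat _)
      (nat_mem_realC.2 ((cutS_mem _ _).2 hq2))
    filter_upwards [hnb x b hb] with y hy
    have h7 := h6 y.1 (hxN y) _ (realC_mem h (hf1 y)) (hf2 y) hy
    rw [nat_mem_realC, cutS_mem] at h7
    exact hq1.trans h7
  · obtain ⟨q, hq1, hq2⟩ := exists_rat_btwn ha
    obtain ⟨q', hq3, hq4⟩ := exists_rat_btwn hq2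
    obtain ⟨b, _, hb, h6⟩ := h5 x.1 (hxN x) _ hrx hpx (natSet (Encodable.encode q)) (hnat _)
      (natSet (Encodable.encode q')) (hnat _)
      ((mem_LtN h).2 ⟨q, q', by exact_mod_cast hq3, rfl⟩) (by
        rw [nat_mem_realC, cutS_mem]
        exact not_lt.2 hq1.le)
    filter_upwards [hnb x b hb] with y hy
    have h7 := h6 y.1 (hxN y) _ (realC_mem h (hf1 y)) (hf2 y) hy
    rw [nat_mem_realC, cutS_mem, not_lt] at h7
    exact h7.trans_lt hq4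

theorem to_CodeC (h : Good (triv B) C U) (g : GP C U) {d : ZFSet.{0}} (hd : d ∈ MN C U)
    {f : Pt (val C U XN) → ℝ} (hf : Continuous f) (hcf : CodeFun f d) :
    CodeC (MN C U) (val C U XN) (val C U RN) (val C U FinN) (val C U LtN) d := by
  have hZ : IsZF (MN C U) := h.isZF
  have hXN : val C U XN ∈ MN C U := val_mem g.cX
  have hxN : ∀ x : Pt (val C U XN), x.1 ∈ MN C U := fun x => hZ.trans _ hXN _ x.2
  have hmem : ∀ x : Pt (val C U XN), ZFSet.pair x.1 (realC (f x)) ∈ d := fun x =>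
    (hcf _).2 ⟨x, rfl⟩
  have hrN : ∀ x : Pt (val C U XN), realC (f x) ∈ MN C U := fun x =>
    (ModT.of_opair_mem hZ (hZ.trans _ hd _ (hmem x))).2
  have hrR : ∀ x : Pt (val C U XN), realC (f x) ∈ val C U RN := fun x =>
    (mem_RN h).2 ⟨_, rN_mem h g (hrN x), rfl⟩
  have hdec : ∀ x r, ZFSet.pair x r ∈ d → ∃ x' : Pt (val C U XN), x = x'.1 ∧ r = realC (f x') := by
    intro x r hxr
    obtain ⟨x', hx'⟩ := (hcf _).1 hxr
    obtain ⟨h1, h2⟩ := ZFSet.pair_inj.1 hx'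
    exact ⟨x', h1, h2⟩
  refine ⟨⟨?_, ?_, ?_⟩, ?_, ?_⟩
  · intro w _ hw
    obtain ⟨x, rfl⟩ := (hcf w).1 hw
    exact ⟨x.1, hxN x, x.2, _, hrN x, hrR x, rfl⟩
  · intro x _ hx
    exact ⟨_, hrN ⟨x, hx⟩, hrR ⟨x, hx⟩, hmem ⟨x, hx⟩⟩
  · intro x _ r _ s _ h1 h2
    obtain ⟨x', rfl, rfl⟩ := hdec x r h1
    obtain ⟨x'', h3, rfl⟩ := hdec _ s h2
    have h4 : x' = x'' := Subtype.ext h3
    rw [h4]
  · intro x _ r _ h1 n _ hn
    obtain ⟨x', rfl, rfl⟩ := hdec x r h1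
    obtain ⟨m, ⟨q, hq, rfl⟩, rfl⟩ := mem_realC.1 hn
    have hO : IsOpen {y | (q : ℝ) < f y} := isOpen_lt continuous_const hf
    obtain ⟨a, ha, haN, h2⟩ := open_fin h g hO x' hq
    refine ⟨a, haN, ha, ?_⟩
    intro y _ s _ h3 h4
    obtain ⟨y', rfl, rfl⟩ := hdec y s h3
    rw [nat_mem_realC, cutS_mem]
    exact h2 y' fun l hl => h4 l (hZ.trans _ haN _ hl) hl
  · intro x _ r _ h1 n _ m _ hnm hn
    obtain ⟨x', rfl, rfl⟩ := hdec x r h1
    obtain ⟨q, q', hqq, hq⟩ := (mem_LtN h).1 hnm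
    obtain ⟨rfl, rfl⟩ := ZFSet.pair_inj.1 hq
    rw [nat_mem_realC, cutS_mem, not_lt] at hn
    have hO : IsOpen {y | f y < (q' : ℝ)} := isOpen_lt hf continuous_const
    obtain ⟨a, ha, haN, h2⟩ := open_fin h g hO x' (hn.trans_lt (by exact_mod_cast hqq))
    refine ⟨a, haN, ha, ?_⟩
    intro y _ s _ h3 h4
    obtain ⟨y', rfl, rfl⟩ := hdec y s h3
    rw [nat_mem_realC, cutS_mem, not_lt]
    exact le_of_lt (h2 y' fun l hl => h4 l (hZ.trans _ haN _ hl) hl)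

/-- The set of the codes of the continuous functions. -/
theorem exists_Cs (h : Good (triv B) C U) (g : GP C U) : ∃ Cs ∈ MN C U, ∀ d, d ∈ Cs ↔
    d ∈ MN C U ∧ ∃ f : Pt (val C U XN) → ℝ, Continuous f ∧ CodeFun f d := by
  have hZ : IsZF (MN C U) := h.isZF
  have hXN : val C U XN ∈ MN C U := val_mem g.cX
  have hRN : val C U RN ∈ MN C U := val_mem g.cR
  obtain ⟨W', hW, hW'⟩ := ModT.stProd hZ _ hXN _ hRN
  obtain ⟨P, hP, hP'⟩ := hZ.power _ hW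
  have hd : ModT.Dfn (MN C U) (fun v : Fin 5 → ZFSet.{0} =>
      CodeC (MN C U) (v 1) (v 2) (v 3) (v 4) (v 0)) := dCodeC hZ _ _ _ _ _
  obtain ⟨Cs, hCs, hCs'⟩ := ModT.sep_mem hZ hd
    ![val C U XN, val C U RN, val C U FinN, val C U LtN] (by
      intro i; fin_cases i
      · exact hXN
      · exact hRN
      · exact val_mem g.cFin
      · exact val_mem g.cLt) hP
  refine ⟨Cs, hCs, fun d => ?_⟩
  rw [hCs', hP']
  constructor
  · rintro ⟨⟨h1, _⟩, h2⟩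
    exact ⟨h1, of_CodeC h g h1 h2⟩
  · rintro ⟨h1, f, hf, hcf⟩
    have h2 := to_CodeC h g h1 hf hcf
    refine ⟨⟨h1, fun w hw => ?_⟩, h2⟩
    obtain ⟨x, _, hx, r, _, hr, rfl⟩ := h2.1.1 w (hZ.trans _ h1 _ hw) hw
    exact (hW' _).2 ⟨x, hx, r, hr, rfl⟩

end TK

end SymExt
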