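import Pool.Agent.Lib.MP_44eb6b_gt.Int.Pos
import Pool.Agent.Lib.MP_44eb6b_gt.Dense

/-!
Closed sets of the countable power in the forcing extension have countable dense subsets.
-/

set_option autoImplicit false

namespace Pool.Agent.Lib.MP_44eb6b_gt

namespace TK

open Set Cardinal

/-- The combined matrix of the rows `w`. -/
noncomputable def zw (r : Pc) (w : ℕ → W) : ℕ × K → Bool := fun q => zm r.g (w q.1) q.2

theorem zw_agree {q p : Pc} (h : q ≤ p) {w : ℕ → W} {c : Cnd (ℕ × K)}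
    (hw : ∀ x, x ∈ c.1 ∨ x ∈ c.2 → w x.1 < p.d) (hc : cbel c p.d) (hm : Mt c (zw p w)) :
    Mt c (zw q w) := by
  refine ⟨fun x hx => ?_, fun x hx => ?_⟩
  · have := hm.1 x hx
    unfold zw at this ⊢
    rw [Pc.agree h (hw x (Or.inl hx)) (hc.1 x hx).2]
    exact this
  · have := hm.2 x hx
    unfold zw at this ⊢
    rw [Pc.agree h (hw x (Or.inr hx)) (hc.2 x hx).2]
    exact this

/-- Basic neighbourhoods in the countable power, at the condition `r`. -/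
def NearAt (r : Pc) (k : ℕ) (a : Finset K) (x y : ℕ → W × ℕ) : Prop :=
  ∀ i < k, (x i).1 < r.d ∧ (y i).1 < r.d ∧ (y i).2 = (x i).2 ∧
    ∀ κ ∈ a, bel κ r.d ∧ zm r.g (y i).1 κ = zm r.g (x i).1 κ

section

variable (Fo : Pc → (ℕ → W × ℕ) → Prop)

/-- It is possible that there is a point of type `(t, c)` beyond `α`. -/
def Poss (p : Pc) (t : Cd) (c : Cnd (ℕ × K)) (α : W) : Prop :=
  ∃ r ≤ p, ∃ x w, Fo r x ∧ Rep α x t w ∧ (∀ j < t.length, w j < r.d) ∧ cbel c r.d ∧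
    Mt c (zw r w)

/-- The type has points beyond every ordinal. -/
def BigF (p : Pc) (t : Cd) (c : Cnd (ℕ × K)) : Prop := ∀ q ≤ p, ∀ α, Poss Fo q t c α

/-- All further types are big. -/
def SolidF (p : Pc) (t : Cd) (c : Cnd (ℕ × K)) : Prop :=
  Val t ∧ Bd t c ∧ (∃ f, Mt c f) ∧ ∀ c' : Cnd (ℕ × K), c.1 ⊆ c'.1 → c.2 ⊆ c'.2 → Bd t c' →
    (∃ f, Mt c' f) → BigF Fo p t c'

variable {Fo}

theorem Poss.mono {p q : Pc} {t : Cd} {c : Cnd (ℕ × K)} {α β : W} (h : Poss Fo q t c β)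
    (hq : q ≤ p) (hα : α ≤ β) : Poss Fo p t c α := by
  obtain ⟨r, hr, x, w, h1, h2, h3⟩ := h
  exact ⟨r, le_trans hr hq, x, w, h1, h2.mono hα, h3⟩

theorem BigF.mono {p q : Pc} {t : Cd} {c : Cnd (ℕ × K)} (h : BigF Fo p t c) (hq : q ≤ p) :
    BigF Fo q t c := fun r hr => h r (le_trans hr hq)

theorem SolidF.mono {p q : Pc} {t : Cd} {c : Cnd (ℕ × K)} (h : SolidF Fo p t c) (hq : q ≤ p) :
    SolidF Fo q t c :=
  ⟨h.1, h.2.1, h.2.2.1, fun c' h1 h2 h3 h4 => (h.2.2.2 c' h1 h2 h3 h4).mono hq⟩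

theorem cbel_mono {c : Cnd (ℕ × K)} {δ δ' : W} (h : cbel c δ) (hδ : δ ≤ δ') : cbel c δ' :=
  rk_cbel.mono _ _ _ hδ h

theorem BigF.ok {p : Pc} {t : Cd} {c : Cnd (ℕ × K)} (h : BigF Fo p t c) : ∃ f, Mt c f := by
  obtain ⟨r, _, x, w, _, _, _, _, h1⟩ := h p (le_refl _) default
  exact ⟨_, h1⟩

/-- A tool for predense families below `δ`. -/
theorem pre_below {t : Cd} {c : Cnd (ℕ × K)} {δ : W} (hb : Bd t c) (hc : ∃ f, Mt c f)
    (hcδ : cbel c δ) (D : Set (Cnd (ℕ × K)))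
    (hD : ∀ c' : Cnd (ℕ × K), c.1 ⊆ c'.1 → c.2 ⊆ c'.2 → Bd t c' → (∃ f, Mt c' f) → cbel c' δ →
      ∃ d ∈ D, Bd t d ∧ cbel d δ ∧ ∃ g, Mt c' g ∧ Mt d g) : Pre (D ∪ Sing c) := by
  classical
  apply pre_tool hb hc
  intro c' h1 h2 h3 h4
  let c'' : Cnd (ℕ × K) := (c'.1.filter (fun q => bel q.2 δ), c'.2.filter (fun q => bel q.2 δ))
  obtain ⟨f0, hf0⟩ := h4
  obtain ⟨d, hd, hbd, hdδ, g, hg1, hg2⟩ := hD c''
    (fun q hq => Finset.mem_filter.mpr ⟨h1 hq, (hcδ.1 q hq).2⟩)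
    (fun q hq => Finset.mem_filter.mpr ⟨h2 hq, (hcδ.2 q hq).2⟩)
    ⟨fun q hq => h3.1 q (Finset.mem_filter.mp hq).1,
      fun q hq => h3.2 q (Finset.mem_filter.mp hq).1⟩
    ⟨f0, hf0.mono (Finset.filter_subset _ _) (Finset.filter_subset _ _)⟩
    ⟨fun q hq => ⟨trivial, (Finset.mem_filter.mp hq).2⟩,
      fun q hq => ⟨trivial, (Finset.mem_filter.mp hq).2⟩⟩
  refine ⟨d, hd, hbd, fun q => if bel q.2 δ then g q else f0 q, ⟨?_, ?_⟩, ⟨?_, ?_⟩⟩
  · intro q hq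
    by_cases h : bel q.2 δ
    · simp only [h, if_true]
      exact hg1.1 q (Finset.mem_filter.mpr ⟨hq, h⟩)
    · simp only [h, if_false]
      exact hf0.1 q hq
  · intro q hq
    by_cases h : bel q.2 δ
    · simp only [h, if_true]
      exact hg1.2 q (Finset.mem_filter.mpr ⟨hq, h⟩)
    · simp only [h, if_false]
      exact hf0.2 q hq
  · intro q hq
    simp only [(hdδ.1 q hq).2, if_true]
    exact hg2.1 q hq
  · intro q hq
    simp only [(hdδ.2 q hq).2, if_true]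
    exact hg2.2 q hq

theorem sing_below {c : Cnd (ℕ × K)} {δ : W} (hc : cbel c δ) {d : Cnd (ℕ × K)}
    (hd : d ∈ Sing c) : cbel d δ := by
  rcases hd with ⟨q, hq, rfl⟩ | ⟨q, hq, rfl⟩
  · refine ⟨by simp, ?_⟩
    intro x hx
    rw [Finset.mem_singleton] at hx
    rw [hx]; exact hc.1 q hq
  · refine ⟨?_, by simp⟩
    intro x hx
    rw [Finset.mem_singleton] at hx
    rw [hx]; exact hc.2 q hq

theorem ex_cbel (c : Cnd (ℕ × K)) : ∃ δ, cbel c δ := rk_cbel.ex c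

/-- Lemma A. -/
theorem exists_solidF {p : Pc} {t : Cd} {c : Cnd (ℕ × K)} (hv : Val t) (hb : Bd t c)
    (hB : BigF Fo p t c) :
    ∃ q ≤ p, ∃ c' : Cnd (ℕ × K), c.1 ⊆ c'.1 ∧ c.2 ⊆ c'.2 ∧ SolidF Fo q t c' := by
  classical
  by_contra hcon
  push Not at hcon
  have hok := hB.ok
  obtain ⟨δ0, hδ0⟩ := ex_cbel c
  let R : Pc → Cnd (ℕ × K) → Cnd (ℕ × K) × W → Prop := fun q c' o =>
    c.1 ⊆ c'.1 → c.2 ⊆ c'.2 → Bd t c' → (∃ f, Mt c' f) →
      (c'.1 ⊆ o.1.1 ∧ c'.2 ⊆ o.1.2 ∧ Bd t o.1 ∧ (∃ f, Mt o.1 f) ∧ cbel o.1 o.2 ∧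
        ¬ Poss Fo q t o.1 o.2)
  obtain ⟨q1, hq1, hR⟩ := co rk_cbel R (by
    intro q q' h o hqq hr h1 h2 h3 h4
    obtain ⟨a1, a2, a3, a4, a5, a6⟩ := hr h1 h2 h3 h4
    exact ⟨a1, a2, a3, a4, a5, fun h' => a6 (h'.mono hqq le_rfl)⟩) (fun o => o.2) (up p δ0) (by
    intro q hq c'
    by_cases h : c.1 ⊆ c'.1 ∧ c.2 ⊆ c'.2 ∧ Bd t c' ∧ ∃ f, Mt c' f
    · obtain ⟨h1, h2, h3, h4⟩ := h
      have h5 := hcon q (le_trans hq (up_le _ _)) c' h1 h2
      have h6 : ∃ c'' : Cnd (ℕ × K), c'.1 ⊆ c''.1 ∧ c'.2 ⊆ c''.2 ∧ Bd t c'' ∧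
          (∃ f, Mt c'' f) ∧ ¬ BigF Fo q t c'' := by
        by_contra h7
        push Not at h7
        exact h5 ⟨hv, h3, h4, fun c'' a1 a2 a3 a4 => h7 c'' a1 a2 a3 a4⟩
      obtain ⟨c'', a1, a2, a3, a4, a5⟩ := h6
      unfold BigF at a5
      push Not at a5
      obtain ⟨q', hq', α, hα⟩ := a5
      obtain ⟨δ, hδ⟩ := ex_cbel c''
      exact ⟨q', hq', (c'', max α δ), fun _ _ _ _ => ⟨a1, a2, a3, a4,
        cbel_mono hδ (le_max_right _ _), fun h' => hα (h'.mono (le_refl _) (le_max_left _ _))⟩⟩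
    · exact ⟨q, le_refl _, default, fun h1 h2 h3 h4 => absurd ⟨h1, h2, h3, h4⟩ h⟩)
  have hcq : cbel c q1.d := cbel_mono hδ0 ((le_up p δ0).trans hq1.1)
  let D : Set (Cnd (ℕ × K)) := {d | Bd t d ∧ cbel d q1.d ∧ ¬ Poss Fo q1 t d q1.d}
  have hpre : Pre (D ∪ Sing c) := by
    apply pre_below hb hok hcq
    intro c' h1 h2 h3 h4 h5
    obtain ⟨o, ho, ho2⟩ := hR c' h5
    obtain ⟨a1, a2, a3, ⟨g, hg⟩, a5, a6⟩ := ho h1 h2 h3 h4
    exact ⟨o.1, ⟨a3, cbel_mono a5 ho2, fun h' => a6 (h'.mono (le_refl _) ho2)⟩, a3,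
      cbel_mono a5 ho2, g, hg.mono a1 a2, hg⟩
  have hbel : ∀ d ∈ D ∪ Sing c, cbel d q1.d := by
    rintro d (h | h)
    · exact h.2.1
    · exact sing_below hcq h
  have hbd : ∀ d ∈ D ∪ Sing c, Bd t d := by
    rintro d (h | h)
    · exact h.1
    · exact bd_sing hb h
  obtain ⟨en, hcp, hen⟩ := exists_cp {D ∪ Sing c} (Set.countable_singleton _) q1.d (by
    rintro _ rfl; exact hbel)
  obtain ⟨i, hi⟩ := hen _ rfl
  let q2 := put q1 (default, en, default)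
  obtain ⟨r, hr, x, w, hF, hrep, hwr, hcr, hmt⟩ := hB q2
    (le_trans (put_le _ _) (le_trans hq1 (up_le _ _))) q2.d
  have hrq : r.g q1.d = (default, en, default) := put_at hr
  obtain ⟨d, hd, hmd⟩ := zm_meet r.g q1.d q1.d q2.d (by rw [hrq]; exact hcp) (lt_put _ _).le
    (lt_put _ _) t.length (Finset.range t.length) (Finset.card_range _) i
    (by
      rw [hrq]
      show ∀ c ∈ en i, _
      rw [hi]
      exact fun d hd => ⟨fun q hq => Finset.mem_range.mpr ((hbd d hd).1 q hq),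
        fun q hq => Finset.mem_range.mpr ((hbd d hd).2 q hq)⟩)
    (by rw [hrq]; show Pre (en i); rw [hi]; exact hpre) w
    (by
      intro a ha b hb' hab
      exact hrep.inj (by simpa using ha) (by simpa using hb') hab)
    (fun j hj => hrep.ge j (Finset.mem_range.mp hj))
  rw [hrq] at hd
  have hd' : d ∈ en i := hd
  rw [hi] at hd'
  have hr1 : r ≤ q1 := le_trans hr (put_le _ _)
  rcases hd' with h | h
  · exact h.2.2 ⟨r, hr1, x, w, hF, hrep.mono (lt_put _ _).le, hwr, cbel_mono h.2.1 hr1.1, hmd⟩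
  · exact Sing_not h hmt hmd

/-- Lemma B. -/
theorem exists_stepF (hm : ∀ p q x, q ≤ p → Fo p x → Fo q x) {p : Pc} {t : Cd}
    {c : Cnd (ℕ × K)} (hv : Val t) (hb : Bd t c) (hB : BigF Fo p t c) :
    ∃ q ≤ p, ∃ u, Val (t ++ [u]) ∧ BigF Fo q (t ++ [u]) c := by
  classical
  by_contra hcon
  push Not at hcon
  let R : Pc → (W ⊕ ℕ) × ℕ → W → Prop := fun q u o =>
    Val (t ++ [u]) → ¬ Poss Fo q (t ++ [u]) c o
  obtain ⟨q1, hq1, hR⟩ := co rk_belu R (by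
    intro q q' h o hqq hr h1 h2
    exact hr h1 (h2.mono hqq le_rfl)) (fun o => o) p (by
    intro q hq u
    by_cases h : Val (t ++ [u])
    · have h5 := hcon q hq u h
      unfold BigF at h5
      push Not at h5
      obtain ⟨q', hq', α, hα⟩ := h5
      exact ⟨q', hq', α, fun _ => hα⟩
    · exact ⟨q, le_refl _, default, fun h1 => absurd h1 h⟩)
  obtain ⟨r, hr, x, w, hF, hrep, hwr, hcr, hmt⟩ := hB q1 hq1 q1.d
  obtain ⟨u, w', h1, h2, h3, h4⟩ := rep_step hrep hv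
  obtain ⟨o, ho, ho2⟩ := hR u h4
  refine ho h2 ⟨up r (nx (w' t.length)), le_trans (up_le _ _) hr, x, w',
    hm _ _ _ (up_le _ _) hF, h1.mono ho2, ?_, cbel_mono hcr (up_le r _).1, ?_⟩
  · intro j hj
    simp only [List.length_append, List.length_singleton] at hj
    by_cases hj' : j = t.length
    · rw [hj']
      exact (lt_nx _).trans_le (le_up _ _)
    · rw [h3 j (by omega)]
      exact (hwr j (by omega)).trans_le (up_le _ _).1
  · refine ⟨fun q hq => ?_, fun q hq => ?_⟩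
    · have := hmt.1 q hq
      unfold zw at this ⊢
      rw [h3 _ (hb.1 q hq)]; exact this
    · have := hmt.2 q hq
      unfold zw at this ⊢
      rw [h3 _ (hb.2 q hq)]; exact this

/-- Add a row. -/
theorem add_row (r : Pc) (c0 : Cnd K) (h0 : ∃ f, Mt c0 f) (hb : kbel c0 r.d) :
    ∃ r' ≤ r, ∃ β, r.d ≤ β ∧ β < r'.d ∧ ¬ T β ∧ Mt c0 (zm r'.g β) := by
  obtain ⟨β, hβ1, hβ2⟩ := nT_ub r.d
  refine ⟨putAt r β (c0, default), putAt_le hβ1 _, β, hβ1, lt_nx β, hβ2, ?_⟩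
  have h1 : (putAt r β (c0, default)).g β = (c0, default) := putAt_at (le_refl _)
  have h2 := zm_init (g := (putAt r β (c0, default)).g) (α := β)
    (by rw [h1]; exact h0) (by rw [h1]; exact rk_kbel.mono _ _ _ hβ1 hb)
  rw [h1] at h2
  exact h2

theorem fillF {c : Cnd (ℕ × K)} (hc : ∃ f, Mt c f) {δ : W} (hcδ : cbel c δ) (q : Pc)
    (hδ : δ ≤ q.d) (m : ℕ) : ∃ r ≤ q, ∃ s : ℕ → W, Set.InjOn s (Set.Iio m) ∧
      ∀ j < m, q.d ≤ s j ∧ s j < r.d ∧ ¬ T (s j) ∧ Mt (row j c) (zm r.g (s j)) := by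
  obtain ⟨f, hf⟩ := hc
  have hrow : ∀ (j : ℕ) (δ' : W), δ ≤ δ' → kbel (row j c) δ' := by
    intro j δ' h
    refine ⟨fun κ hκ => ?_, fun κ hκ => ?_⟩
    · exact rk_bel.mono _ _ _ h (hcδ.1 _ (mem_row1.mp hκ)).2
    · exact rk_bel.mono _ _ _ h (hcδ.2 _ (mem_row2.mp hκ)).2
  induction m with
  | zero =>
    refine ⟨q, le_refl _, fun _ => default, ?_, ?_⟩
    · intro i hi; simp at hi
    · intro j hj; simp at hj
  | succ m ih =>
    obtain ⟨r, hr, s, h1, h2⟩ := ih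
    obtain ⟨r', hr', β, hβ1, hβ2, hβ3, hβ4⟩ := add_row r (row m c)
      ⟨fun κ => f (m, κ), fun κ hκ => hf.1 _ (mem_row1.mp hκ),
        fun κ hκ => hf.2 _ (mem_row2.mp hκ)⟩ (hrow m _ (hδ.trans hr.1))
    have hne : ∀ j < m, s j ≠ β := fun j hj => ((h2 j hj).2.1.trans_le hβ1).ne
    refine ⟨r', le_trans hr' hr, Function.update s m β, ?_, ?_⟩
    · intro i hi j hj hij
      rw [Set.mem_Iio] at hi hj
      by_cases hi' : i = m
      · by_cases hj' : j = m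
        · rw [hi', hj']
        · rw [hi', Function.update_self, Function.update_of_ne hj'] at hij
          exact absurd hij.symm (hne j (by omega))
      · by_cases hj' : j = m
        · rw [hj', Function.update_self, Function.update_of_ne hi'] at hij
          exact absurd hij (hne i (by omega))
        · rw [Function.update_of_ne hi', Function.update_of_ne hj'] at hij
          exact h1 (show i < m by omega) (show j < m by omega) hij
    · intro j hj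
      by_cases hj' : j = m
      · rw [hj', Function.update_self]
        exact ⟨hr.1.trans hβ1, hβ2, hβ3, hβ4⟩
      · rw [Function.update_of_ne hj']
        obtain ⟨a1, a2, a3, a4⟩ := h2 j (by omega)
        have hk := hrow j _ (hδ.trans hr.1)
        refine ⟨a1, a2.trans_le hr'.1, a3, fun κ hκ => ?_, fun κ hκ => ?_⟩
        · rw [Pc.agree hr' a2 (hk.1 κ hκ)]; exact a4.1 κ hκ
        · rw [Pc.agree hr' a2 (hk.2 κ hκ)]; exact a4.2 κ hκ

end

end TK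

end Pool.Agent.Lib.MP_44eb6b_gt
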