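import Pool.Agent.Lib.MP_70f607_gt.Defs

/-!
# Powers and function spaces in transitive models of ZFC

`Fml`, `Sat`, `IsZF`, `natSet` (the natural number `n` as a set) and `PSurj` (partial surjections
from `ω`) are in `Pool.Agent.Lib.MP_694cb9_lc.Defs`, `IsZFC` (transitive model of ZFC) is in
`Pool.Agent.Lib.MP_70f607_gt.Defs`.  All notions below are the notions of the transitive model
`N`: the points, functions, closed sets and dense sets that are considered are elements of `N`.

A space of `N` is given by a set `X` in `N`: its points are the elements `x` of `X`, which are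
considered as subsets of the union of `X`, and the topology is that of a subspace of the Cantor
cube: the sets of all `x` with `l ∈ x` and of all `x` with `l ∉ x` form a subbase.
-/

namespace SymExt

namespace TK

/-- The points of the space `X`. -/
def Pt (X : ZFSet.{0}) : Type 1 := {x : ZFSet.{0} // x ∈ X}

open Classical in
/-- The topology of the space `X`: that of a subspace of a power of the discrete space `Bool`. -/
noncomputable instance (X : ZFSet.{0}) : TopologicalSpace (Pt X) :=
  TopologicalSpace.induced (fun (x : Pt X) (l : ZFSet.{0}) => decide (l ∈ x.1)) inferInstance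

/-- The real number `r` as a set: the set of the (numbers of the) rational numbers below `r`. -/
noncomputable def realC (r : ℝ) : ZFSet.{0} :=
  ZFSet.sep (fun z => ∃ q : ℚ, (q : ℝ) < r ∧ z = natSet (Encodable.encode q)) ZFSet.omega

/-- The set `c` is the sequence `p` of points of `X`. -/
def CodeSeq {X : ZFSet.{0}} (p : ℕ → Pt X) (c : ZFSet.{0}) : Prop :=
  ∀ z, z ∈ c ↔ ∃ n : ℕ, z = ZFSet.pair (natSet n) (p n).1

/-- The set `c` is the real function `f` on `X`. -/
def CodeFun {X : ZFSet.{0}} (f : Pt X → ℝ) (c : ZFSet.{0}) : Prop :=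
  ∀ z, z ∈ c ↔ ∃ x : Pt X, z = ZFSet.pair x.1 (realC (f x))

/-- The countable power of the space `X` in `N`. -/
abbrev Pow (N : Set ZFSet.{0}) (X : ZFSet.{0}) : Type 1 :=
  {p : ℕ → Pt X // ∃ c ∈ N, CodeSeq p c}

/-- The space `C_p(X)` in `N`: the continuous real functions on `X` which belong to `N`, with the
topology of pointwise convergence. -/
abbrev Cp (N : Set ZFSet.{0}) (X : ZFSet.{0}) : Type 1 :=
  {f : Pt X → ℝ // Continuous f ∧ ∃ c ∈ N, CodeFun f c}

/-- The set `c` is the real function `Φ` on the space `C_p(X)` of `N`. -/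
def CodeFun2 {N : Set ZFSet.{0}} {X : ZFSet.{0}} (Φ : Cp N X → ℝ) (c : ZFSet.{0}) : Prop :=
  ∀ z, z ∈ c ↔ ∃ (f : Cp N X) (d : ZFSet.{0}), CodeFun f.1 d ∧ z = ZFSet.pair d (realC (Φ f))

/-- The space `C_p(C_p(X))` in `N`: the continuous real functions on the space `C_p(X)` of `N`
which belong to `N`, with the topology of pointwise convergence. -/
abbrev CpCp (N : Set ZFSet.{0}) (X : ZFSet.{0}) : Type 1 :=
  {Φ : Cp N X → ℝ // Continuous Φ ∧ ∃ c ∈ N, CodeFun2 Φ c}

/-- In `N`, every closed subspace of the space `Y` is separable: every closed subset `F` of `Y`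
which belongs to `N` has a dense subset `D` which belongs to `N` and is countable in `N`.
Here `cd y z` means that the set `z` is the point `y` of `Y`. -/
def ClosedSeparable (N : Set ZFSet.{0}) {Y : Type 1} [TopologicalSpace Y]
    (cd : Y → ZFSet.{0} → Prop) : Prop :=
  ∀ F : Set Y, IsClosed F → (∃ A ∈ N, ∀ z, z ∈ A ↔ ∃ y ∈ F, cd y z) →
    ∃ D ⊆ F, F ⊆ closure D ∧ ∃ B ∈ N, (∀ z, z ∈ B ↔ ∃ y ∈ D, cd y z) ∧ ∃ f ∈ N, PSurj f B

/-- In `N`, every closed subspace of the countable power of `X` is separable. -/
def PowClosedSeparable (N : Set ZFSet.{0}) (X : ZFSet.{0}) : Prop :=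
  ClosedSeparable N fun (p : Pow N X) z => CodeSeq p.1 z

/-- In `N`, every closed subspace of `C_p(C_p(X))` is separable. -/
def CpCpClosedSeparable (N : Set ZFSet.{0}) (X : ZFSet.{0}) : Prop :=
  ClosedSeparable N fun (Φ : CpCp N X) z => CodeFun2 Φ.1 z

end TK

end SymExt
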