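import Pool.Agent.Lib.MP_44eb6b_gt.Int.Ps

/-!
The space of the functionals is not closed-separable in the model.
-/

set_option autoImplicit false

namespace SymExt

namespace TK

open Name Topology
open Pool.Agent.Lib.MP_44eb6b_gt Pool.Agent.Lib.MP_44eb6b_gt.TK

variable {C : Set (Name B)} {U : Set B}

/-- The property of the functions of the model. -/
def IF (C : Set (Name B)) (U : Set B) (f : Pt (val C U XN) → ℝ) : Prop :=
  ∃ c ∈ MN C U, CodeFun f c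

/-- The property of the functionals of the model. -/
def JF (C : Set (Name B)) (U : Set B) (Φ : CI (IF C U) → ℝ) : Prop :=
  ∃ c ∈ MN C U, CodeFun2 (N := MN C U) (X := val C U XN) Φ c

theorem hIF (h : Good (triv B) C U) (g : GP C U) (A : Finset (LV (VC C)))
    (b : (LV (VC C) → Bool) → Bool) (hb : ∀ u v, (∀ l ∈ A, u l = v l) → b u = b v) :
    IF C U fun y => if b (phV (vz C U) (vT C) ((ee h g).symm y)) = true then 1 else 0 :=
  exists_tf h g A b hb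

/-- The functional. -/
noncomputable def Fn (h : Good (triv B) C U) (g : GP C U) (α : VC C) (hα : vT C α) :
    CpCp (MN C U) (val C U XN) :=
  ⟨Fv h g α, cont_psiS (inducing_ee h g) (IF C U) (vz5 h g) α hα, exists_Fv h g α⟩

/-- The closed set. -/
def CC (h : Good (triv B) C U) (g : GP C U) : Set (CpCp (MN C U) (val C U XN)) :=
  CS (I := IF C U) (vT C) (ee h g) (JF C U)

theorem mem_CC (h : Good (triv B) C U) (g : GP C U) (Φ : CpCp (MN C U) (val C U XN)) :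
    Φ ∈ CC h g ↔ ∃ α, vT C α ∧ Φ.1 = Fv h g α := by
  constructor
  · rintro ⟨α, hα, h1⟩
    exact ⟨α, hα, funext h1⟩
  · rintro ⟨α, hα, h1⟩
    exact ⟨α, hα, fun f => congrFun h1 f⟩

theorem closed_CC (h : Good (triv B) C U) (g : GP C U) : IsClosed (CC h g) :=
  closed_CS (inducing_ee h g) (JF C U) (vz5 h g) ⟨⟨default, g.w0⟩⟩ (hIF h g)

theorem vz_T (h : Good (triv B) C U) (g : GP C U) (α : VC C) (hα : vT C α) :
    vz C U α (Sum.inr α) = true := zG_T h g α.2 hα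

theorem vz_T' (h : Good (triv B) C U) (g : GP C U) {α γ : VC C} (hα : vT C α)
    (hlt : α.1 < γ.1) : vz C U α (Sum.inr γ) = false := zG_T' h g γ.2 hα hlt

theorem not_cl (h : Good (triv B) C U) (g : GP C U) (D : Set (CpCp (MN C U) (val C U XN)))
    (γ : VC C) (hγ : vT C γ)
    (hD : ∀ Φ ∈ D, ∃ α, vT C α ∧ α.1 < γ.1 ∧ Φ.1 = Fv h g α) :
    Fn h g γ hγ ∉ closure D := by
  refine not_closure_CS (inducing_ee h g) (JF C U) (hIF h g) D γ (Fn h g γ hγ)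
    (fun f => rfl) (vz_T h g γ hγ) ?_
  intro Φ hΦ
  obtain ⟨α, h1, h2, h3⟩ := hD Φ hΦ
  exact ⟨α, vz_T' h g h1 h2, fun f => congrFun h3 f⟩

theorem Fv_inj (h : Good (triv B) C U) (g : GP C U) {α β : VC C} (hα : vT C α) (hβ : vT C β)
    (he : Fv h g α = Fv h g β) : α = β := by
  have key : ∀ {α β : VC C}, vT C α → ∀ hβ : vT C β, Fv h g α = Fv h g β → ¬ α.1 < β.1 := by
    intro α β hα hβ he hlt
    refine not_cl h g {Fn h g β hβ} β hβ ?_ (subset_closure rfl)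
    intro Φ hΦ
    rw [Set.mem_singleton_iff] at hΦ
    exact ⟨α, hα, hlt, by rw [hΦ]; exact he.symm⟩
  rcases lt_trichotomy α.1 β.1 with h1 | h1 | h1
  · exact absurd h1 (key hα hβ he)
  · exact Subtype.ext h1
  · exact absurd h1 (key hβ hα he.symm)

theorem not_sep (h : Good (triv B) C U) (g : GP C U) :
    ¬ CpCpClosedSeparable (MN C U) (val C U XN) := by
  intro hS
  have hZ : IsZF (MN C U) := h.isZF
  obtain ⟨Cs, hCsN, hCs⟩ := exists_Cs h g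
  have hPsN : val C U PsN ∈ MN C U := val_mem g.cPs
  have hPPN : val C U PPN ∈ MN C U := val_mem g.cPP
  obtain ⟨W', hW, hW'⟩ := ModT.stProd hZ _ hCsN _ (val_mem g.cR)
  obtain ⟨P, hP, hP'⟩ := hZ.power _ hW
  -- the code of the closed set
  have hdA : ModT.Dfn (MN C U) (fun v : Fin 4 → ZFSet.{0} => ∃ a ∈ MN C U, ∃ p ∈ MN C U,
      ZFSet.pair a p ∈ v 1 ∧ IsP (MN C U) (v 2) (v 3) p (v 0)) :=
    ModT.dex (ModT.dex (ModT.dand (ModT.dpmem hZ _ _ _) (dIsP hZ _ _ _ _)))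
  obtain ⟨A, hA, hA'⟩ := ModT.sep_mem hZ hdA ![val C U PPN, Cs, val C U PsN] (by
    intro i; fin_cases i
    · exact hPPN
    · exact hCsN
    · exact hPsN) hP
  have hAm : ∀ z, z ∈ A ↔ ∃ Φ ∈ CC h g, CodeFun2 Φ.1 z := by
    intro z
    have h0 : z ∈ A ↔ z ∈ P ∧ ∃ a ∈ MN C U, ∃ p ∈ MN C U,
      ZFSet.pair a p ∈ val C U PPN ∧ IsP (MN C U) Cs (val C U PsN) p z := hA' z
    rw [h0, hP']
    constructor
    · rintro ⟨⟨hzN, _⟩, a, _, p, _, h1, h2⟩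
      obtain ⟨α, hα, hαC, h3⟩ := (mem_PPN h g).1 h1
      obtain ⟨_, rfl⟩ := ZFSet.pair_inj.1 h3
      have h4 := (isP_iff h g hCs ⟨α, hαC⟩ hzN).1 h2
      exact ⟨Fn h g ⟨α, hαC⟩ hα, (mem_CC h g _).2 ⟨⟨α, hαC⟩, hα, rfl⟩, h4⟩
    · rintro ⟨Φ, hΦ, hz⟩
      obtain ⟨α, hα, h1⟩ := (mem_CC h g _).1 hΦ
      obtain ⟨c, hc, hc'⟩ := Φ.2.2
      have h2 : z = c := codeFun2_uniq hz hc'
      have hzN : z ∈ MN C U := by rw [h2]; exact hc
      rw [h1] at hz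
      refine ⟨⟨hzN, ?_⟩, val C U (wN α.1), val_mem α.2, val C U (pN α.1),
        val_mem (g.pn _ α.2), (mem_PPN h g).2 ⟨α.1, hα, α.2, rfl⟩,
        (isP_iff h g hCs α hzN).2 hz⟩
      intro w hw
      obtain ⟨f, d, h3, rfl⟩ := (hz w).1 hw
      exact (hW' _).2 ⟨d, (hCs d).2 ⟨code_mem f h3, f.1, f.2.1, h3⟩, _,
        (mem_RN h).2 ⟨_, g.psi _ (seq_name h g α f), rfl⟩, rfl⟩
  obtain ⟨D, hDC, hCD, Bs, hBs, hBs', f, hf, hf1, hf2, hf3⟩ := hS (CC h g) (closed_CC h g)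
    ⟨A, hA, hAm⟩
  -- the set of indices
  have hAA : ZFSet.sUnion (ZFSet.sUnion (val C U PPN)) ∈ MN C U :=
    hZ.union _ (hZ.union _ hPPN)
  obtain ⟨V', hV, hV'⟩ := ModT.stProd hZ _ hZ.omega _ hAA
  have hdG : ModT.Dfn (MN C U) (fun v : Fin 6 → ZFSet.{0} => ∃ n ∈ MN C U, ∃ a ∈ MN C U,
      v 0 = ZFSet.pair n a ∧ ∃ p ∈ MN C U, ZFSet.pair a p ∈ v 1 ∧ ∃ z ∈ MN C U,
        ZFSet.pair n z ∈ v 4 ∧ z ∈ v 5 ∧ IsP (MN C U) (v 2) (v 3) p z) :=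
    ModT.dex (ModT.dex (ModT.dand (ModT.dopair hZ _ _ _) (ModT.dex (ModT.dand
      (ModT.dpmem hZ _ _ _) (ModT.dex (ModT.dand (ModT.dpmem hZ _ _ _) (ModT.dand
        (ModT.dmem _ _) (dIsP hZ _ _ _ _))))))))
  obtain ⟨G, hG, hG'⟩ := ModT.sep_mem hZ hdG ![val C U PPN, Cs, val C U PsN, f, Bs] (by
    intro i; fin_cases i
    · exact hPPN
    · exact hCsN
    · exact hPsN
    · exact hf
    · exact hBs) hV
  obtain ⟨τ, hτ, _, rfl⟩ := hG
  have hGm : ∀ (n : ℕ) (α : VC C), ZFSet.pair (natSet n) (val C U (wN α.1)) ∈ val C U τ ↔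
      vT C α ∧ ∃ z, ZFSet.pair (natSet n) z ∈ f ∧ z ∈ Bs ∧ CodeFun2 (Fv h g α) z := by
    intro n α
    have h0 : ZFSet.pair (natSet n) (val C U (wN α.1)) ∈ val C U τ ↔
        ZFSet.pair (natSet n) (val C U (wN α.1)) ∈ V' ∧ ∃ m ∈ MN C U, ∃ a ∈ MN C U,
        ZFSet.pair (natSet n) (val C U (wN α.1)) = ZFSet.pair m a ∧ ∃ p ∈ MN C U,
        ZFSet.pair a p ∈ val C U PPN ∧ ∃ z ∈ MN C U, ZFSet.pair m z ∈ f ∧ z ∈ Bs ∧
        IsP (MN C U) Cs (val C U PsN) p z := hG' _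
    rw [h0]
    constructor
    · rintro ⟨_, m, _, a, _, h1, p, _, h2, z, hzN, h3, h4, h5⟩
      obtain ⟨rfl, rfl⟩ := ZFSet.pair_inj.1 h1
      obtain ⟨β, hβ, hβC, h6⟩ := (mem_PPN h g).1 h2
      obtain ⟨h7, rfl⟩ := ZFSet.pair_inj.1 h6
      have h8 : α.1 = β := val_wN_inj h α.2 hβC h7
      subst h8
      exact ⟨hβ, z, h3, h4, (isP_iff h g hCs α hzN).1 h5⟩
    · rintro ⟨hα, z, h3, h4, h5⟩
      have hzN : z ∈ MN C U := hZ.trans _ hBs _ h4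
      have hPP : ZFSet.pair (val C U (wN α.1)) (val C U (pN α.1)) ∈ val C U PPN :=
        (mem_PPN h g).2 ⟨α.1, hα, α.2, rfl⟩
      refine ⟨(hV' _).2 ⟨natSet n, mem_omega_iff.2 ⟨n, rfl⟩, val C U (wN α.1), ?_, rfl⟩,
        natSet n, ModT.natSet_mem' hZ n, val C U (wN α.1), val_mem α.2, rfl,
        val C U (pN α.1), val_mem (g.pn _ α.2), hPP, z, hzN, h3, h4,
        (isP_iff h g hCs α hzN).2 h5⟩
      rw [ZFSet.mem_sUnion]
      refine ⟨{val C U (wN α.1)}, ?_, by simp⟩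
      rw [ZFSet.mem_sUnion]
      exact ⟨_, hPP, by simp [ZFSet.pair]⟩
  have hbG : ∀ (n : ℕ) (α : W), wN α ∈ C → (bmem (opN (natN n) (wN α)) τ ∈ U ↔
      ZFSet.pair (natSet n) (val C U (wN α)) ∈ val C U τ) := by
    intro n α hα
    rw [h.bmem_iff (h.opN_mem (h.nat n) hα) hτ, h.val_opN (h.nat n) hα, h.val_natN]
  obtain ⟨s, hs, hs'⟩ := g.sqw τ hτ
  have hsC : ∀ n, wN (s n) ∈ C := g.useq _ hs
  let γ : VC C := ⟨nextT s, g.nxt s hs⟩
  have hγ : vT C γ := T_nextT s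
  refine not_cl h g D γ hγ ?_ (hCD ((mem_CC h g _).2 ⟨γ, hγ, rfl⟩))
  intro Φ hΦ
  obtain ⟨α, hα, h1⟩ := (mem_CC h g _).1 (hDC hΦ)
  refine ⟨α, hα, ?_, h1⟩
  obtain ⟨z, _, hz⟩ := Φ.2.2
  have hzB : z ∈ Bs := (hBs' z).2 ⟨Φ, hΦ, hz⟩
  obtain ⟨n, hn⟩ := hf3 z hzB
  obtain ⟨m, hm, y, _, hmy⟩ := hf1 _ hn
  obtain ⟨m, rfl⟩ := mem_omega_iff.1 hm
  obtain ⟨rfl, _⟩ := ZFSet.pair_inj.1 hmy
  have hz' : CodeFun2 (Fv h g α) z := by
    rw [← h1]
    exact hz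
  have h2 : bmem (opN (natN m) (wN α.1)) τ ∈ U :=
    (hbG m α.1 α.2).2 ((hGm m α).2 ⟨hα, z, hn, hzB, hz'⟩)
  have h3 := hs' m (h.up _ h2 _ (le_iSup (fun α => bmem (opN (natN m) (wN α)) τ) α.1))
  obtain ⟨h4, z', h5, _, h6⟩ := (hGm m ⟨s m, hsC m⟩).1 ((hbG m (s m) (hsC m)).1 h3)
  have h7 : z' = z := hf2 _ _ _ h5 hn
  rw [h7] at h6
  have h8 : Fv h g α = Fv h g ⟨s m, hsC m⟩ := codeFun2_inj hz' h6
  have h9 := Fv_inj h g hα h4 h8
  rw [h9]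
  exact lt_nextT s m

/-- The spaces are Tychonoff. -/
theorem t35 (X : ZFSet.{0}) : T35Space (Pt X) := by
  classical
  have h1 : IsEmbedding (fun (x : Pt X) (l : ZFSet.{0}) => decide (l ∈ x.1)) := by
    refine ⟨⟨rfl⟩, ?_⟩
    intro x y hxy
    apply Subtype.ext
    ext l
    have := congrFun hxy l
    simpa using this
  exact h1.t35Space

/-- There is a countable transitive model of ZFC with a space whose countable power is
closed-separable and whose double function space is not. -/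
theorem main : ∃ N : Set ZFSet.{0}, N.Countable ∧ IsZFC N ∧ ∃ X ∈ N,
    T35Space (Pt X) ∧ PowClosedSeparable N X ∧ ¬ CpCpClosedSeparable N X := by
  obtain ⟨C, U, h, g, h1, h2⟩ := exists_pair
  exact ⟨MN C U, model_countable h, (stAC B).2 C U h h1 h2 g.unop, val C U XN, val_mem g.cX,
    t35 _, pow_sep h g, not_sep h g⟩

end TK

end SymExt
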