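import Pool.Agent.Lib.MP_44eb6b_gt.Data

/-!
The matrix given by a sequence of requirements, by a deterministic recursion.
-/

set_option autoImplicit false

namespace Pool.Agent.Lib.MP_44eb6b_gt

namespace TK

open Set Cardinal

/-- Requirements: a finite condition for the row, a sequence of families to be met by later rows, a
sequence of tuples of rows for later columns. -/
abbrev E : Type := Cnd K × (ℕ → Set (Cnd (ℕ × K))) × (ℕ → ℕ → W)

/-- The requirement for the row `α`. -/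
def RRow (g : W → E) (α : W) (p : W → K → Bool) (f : K → Bool) : Prop :=
  ((∃ h, Mt (g α).1 h) → Mt (g α).1 f) ∧
  (∀ η < α, ∀ (i j : ℕ) (A : Finset (ℕ × W)), (∀ q ∈ A, q.2 < α) →
    Pre (Sec ((g η).2.1 i) A j p) → ∃ d ∈ Sec ((g η).2.1 i) A j p, Mt d f) ∧
  (∀ β < α, ∃ n, f (Sum.inl n) ≠ p β (Sum.inl n))

theorem exists_rrow (g : W → E) (α : W) (p : W → K → Bool) : ∃ f, RRow g α p f := by
  classical
  let C1 : Set (Set (Cnd K)) :=
    (fun x : W × ℕ × ℕ × Finset (ℕ × W) => Sec ((g x.1).2.1 x.2.1) x.2.2.2 x.2.2.1 p) ''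
      {x | x.1 < α ∧ True ∧ True ∧ (∀ q ∈ x.2.2.2, True ∧ q.2 < α) ∧
        Pre (Sec ((g x.1).2.1 x.2.1) x.2.2.2 x.2.2.1 p)}
  let C2 : Set (Set (Cnd K)) := (fun β => Dist (p β)) '' Set.Iio α
  have hC1 : C1.Countable := by
    apply Set.Countable.image
    have := (Rk.prod rk_lt (Rk.prod (Rk.triv (H := ℕ)) (Rk.prod (Rk.triv (H := ℕ))
      (Rk.finset (Rk.prod (Rk.triv (H := ℕ)) rk_lt))))).cnt α
    refine this.mono ?_
    rintro ⟨x1, x2, x3, x4⟩ ⟨h1, h2, h3, h4, _⟩
    exact ⟨h1, h2, h3, h4⟩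
  have hC2 : C2.Countable := (Iio_ctb α).image _
  let c0 : Cnd K := if ∃ h, Mt (g α).1 h then (g α).1 else (∅, ∅)
  have hc0 : ∃ f, Mt c0 f := by
    by_cases h : ∃ h, Mt (g α).1 h
    · simp only [c0, if_pos h]; exact h
    · simp only [c0, if_neg h]
      exact ⟨fun _ => true, by simp, by simp⟩
  obtain ⟨f, hf1, hf2⟩ := generic (C1 ∪ C2) (hC1.union hC2) (by
    rintro D (⟨x, ⟨_, _, _, _, hx⟩, rfl⟩ | ⟨β, _, rfl⟩)
    · exact hx
    · exact pre_Dist _) c0 hc0
  refine ⟨f, ?_, ?_, ?_⟩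
  · intro h
    simpa only [c0, if_pos h] using hf1
  · intro η hη i j A hA hpre
    exact hf2 _ (Or.inl ⟨(η, i, j, A), ⟨hη, trivial, trivial, fun q hq => ⟨trivial, hA q hq⟩,
      hpre⟩, rfl⟩)
  · intro β hβ
    obtain ⟨d, ⟨n, rfl⟩, hd⟩ := hf2 _ (Or.inr ⟨β, hβ, rfl⟩)
    refine ⟨n, ?_⟩
    by_cases h : p β (Sum.inl n) = true
    · rw [if_pos h] at hd
      have := hd.2 (Sum.inl n) (by simp)
      rw [this, h]; simp
    · rw [if_neg h] at hd
      have := hd.1 (Sum.inl n) (by simp)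
      rw [this]
      exact fun h' => h h'.symm

theorem RRow.congr {g g' : W → E} {α : W} {p p' : W → K → Bool} {f : K → Bool}
    (h : RRow g α p f) (hg : ∀ η ≤ α, g η = g' η) (hp : ∀ β < α, p β = p' β) :
    RRow g' α p' f := by
  refine ⟨?_, ?_, ?_⟩
  · rw [← hg α le_rfl]; exact h.1
  · intro η hη i j A hA hpre
    rw [← hg η hη.le] at hpre ⊢
    rw [← Sec_congr _ A j p p' (fun x hx => hp _ (hA x hx))] at hpre ⊢
    exact h.2.1 η hη i j A hA hpre
  · intro β hβ
    rw [← hp β hβ]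
    exact h.2.2 β hβ

open Classical in
/-- Truncation. -/
noncomputable def tr (α : W) (g : W → E) : W → E := fun η => if η ≤ α then g η else default

open Classical in
/-- The rows. -/
noncomputable def rr (g : W → E) : W → K → Bool :=
  (wellFounded_lt (α := W)).fix (C := fun _ => K → Bool) fun α rec =>
    (exists_rrow (tr α g) α (fun β => if h : β < α then rec β h else default)).choose

open Classical in
theorem rr_eq (g : W → E) (α : W) : rr g α =
    (exists_rrow (tr α g) α (fun β => if β < α then rr g β else default)).choose := by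
  have h := (wellFounded_lt (α := W)).fix_eq (C := fun _ => K → Bool) (fun α rec =>
    (exists_rrow (tr α g) α (fun β => if h : β < α then rec β h else default)).choose) α
  have h2 : rr g α = (exists_rrow (tr α g) α
    (fun β => if h : β < α then rr g β else default)).choose := h
  rw [h2]

theorem rr_spec (g : W → E) (α : W) : RRow g α (rr g) (rr g α) := by
  classical
  have h := (exists_rrow (tr α g) α (fun β => if β < α then rr g β else default)).choose_spec
  rw [← rr_eq] at h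
  refine h.congr ?_ ?_
  · intro η hη
    simp [tr, hη]
  · intro β hβ
    simp [hβ]

theorem rr_congr {g g' : W → E} (α : W) : (∀ η ≤ α, g η = g' η) → rr g α = rr g' α := by
  classical
  induction α using WellFoundedLT.induction with
  | ind α ih =>
    intro h
    have h1 : tr α g = tr α g' := by
      funext η
      by_cases hη : η ≤ α
      · simp [tr, hη, h η hη]
      · simp [tr, hη]
    have h2 : (fun β => if β < α then rr g β else default) =
        (fun β => if β < α then rr g' β else default) := by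
      funext β
      by_cases hβ : β < α
      · simp only [hβ, if_true]
        exact ih β hβ (fun η hη => h η (hη.trans hβ.le))
      · simp [hβ]
    rw [rr_eq, rr_eq, h1, h2]

theorem reqCol_congr {en en' : W → (ℕ → ℕ → W)} {ξ : W} {p q : W → W → Bool} {f : W → Bool}
    (h : ReqCol en ξ p f) (hen : ∀ η < ξ, en η = en' η) (hpq : ∀ β < ξ, p β = q β) :
    ReqCol en' ξ q f := by
  intro η hη n c hc1 hc2 ε k h1 h2 h3
  rw [← hen η hη] at h1 h2 h3 ⊢
  have hiff : ∀ l, Mt c (fun x => p x.2 (en η l x.1)) ↔ Mt c (fun x => q x.2 (en η l x.1)) := by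
    intro l
    constructor
    · rintro ⟨a, b⟩
      refine ⟨fun x hx => ?_, fun x hx => ?_⟩
      · have := a x hx
        beta_reduce at this ⊢
        rwa [hpq _ (hc1 x hx)] at this
      · have := b x hx
        beta_reduce at this ⊢
        rwa [hpq _ (hc2 x hx)] at this
    · rintro ⟨a, b⟩
      refine ⟨fun x hx => ?_, fun x hx => ?_⟩
      · have := a x hx
        beta_reduce at this ⊢
        rwa [← hpq _ (hc1 x hx)] at this
      · have := b x hx
        beta_reduce at this ⊢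
        rwa [← hpq _ (hc2 x hx)] at this
  simp only [← hiff] at h3 ⊢
  exact h η hη n c hc1 hc2 ε k h1 h2 h3

open Classical in
/-- Truncation. -/
noncomputable def trc (ξ : W) (g : W → E) : W → ℕ → ℕ → W :=
  fun η => if η < ξ then (g η).2.2 else default

open Classical in
/-- The columns. -/
noncomputable def vv (g : W → E) : W → W → Bool :=
  (wellFounded_lt (α := W)).fix (C := fun _ => W → Bool) fun ξ rec =>
    (exists_col (trc ξ g) ξ (fun β => if h : β < ξ then rec β h else default)).choose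

open Classical in
theorem vv_eq (g : W → E) (ξ : W) : vv g ξ =
    (exists_col (trc ξ g) ξ (fun β => if β < ξ then vv g β else default)).choose := by
  have h := (wellFounded_lt (α := W)).fix_eq (C := fun _ => W → Bool) (fun ξ rec =>
    (exists_col (trc ξ g) ξ (fun β => if h : β < ξ then rec β h else default)).choose) ξ
  have h2 : vv g ξ = (exists_col (trc ξ g) ξ
    (fun β => if h : β < ξ then vv g β else default)).choose := h
  rw [h2]

theorem vv_spec (g : W → E) (ξ : W) : ReqCol (fun η => (g η).2.2) ξ (vv g) (vv g ξ) := by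
  classical
  have h := (exists_col (trc ξ g) ξ (fun β => if β < ξ then vv g β else default)).choose_spec
  rw [← vv_eq] at h
  refine reqCol_congr h ?_ ?_
  · intro η hη
    simp [trc, hη]
  · intro β hβ
    simp [hβ]

theorem vv_congr {g g' : W → E} (ξ : W) : (∀ η < ξ, g η = g' η) → vv g ξ = vv g' ξ := by
  classical
  induction ξ using WellFoundedLT.induction with
  | ind ξ ih =>
    intro h
    have h1 : trc ξ g = trc ξ g' := by
      funext η
      by_cases hη : η < ξ
      · simp [trc, hη, h η hη]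
      · simp [trc, hη]
    have h2 : (fun β => if β < ξ then vv g β else default) =
        (fun β => if β < ξ then vv g' β else default) := by
      funext β
      by_cases hβ : β < ξ
      · simp only [hβ, if_true]
        exact ih β hβ (fun η hη => h η (hη.trans hβ))
      · simp [hβ]
    rw [vv_eq, vv_eq, h1, h2]

theorem exists_T : ∃ T : W → Prop, (∀ α, ∃ β, α ≤ β ∧ T β) ∧ ∀ α, ∃ β, α ≤ β ∧ ¬ T β := by
  have h1 : #(W × Bool) = #W := by
    rw [Cardinal.mk_prod, Cardinal.lift_id, Cardinal.lift_id]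
    apply Cardinal.mul_eq_left
    · rw [mk_W]; exact Cardinal.aleph0_lt_aleph_one.le
    · rw [mk_W]
      exact (Cardinal.lt_aleph0_of_finite _).le.trans Cardinal.aleph0_lt_aleph_one.le
    · simp
  obtain ⟨e⟩ := Cardinal.eq.1 h1
  have key : ∀ (b : Bool) (α : W), ∃ β, α ≤ β ∧ (e.symm β).2 = b := by
    intro b α
    by_contra hcon
    push Not at hcon
    apply unctb
    have h1 : (Set.univ : Set W) ⊆ (fun β => (e.symm β).1) '' Set.Iio α := by
      intro γ _
      refine ⟨e (γ, b), ?_, by simp⟩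
      by_contra hlt
      exact hcon _ (not_lt.mp hlt) (by simp)
    exact ((Iio_ctb α).image _).mono h1
  refine ⟨fun β => (e.symm β).2 = true, key true, fun α => ?_⟩
  obtain ⟨β, h1, h2⟩ := key false α
  exact ⟨β, h1, by simp [h2]⟩

/-- The left separated rows. -/
def T : W → Prop := exists_T.choose

theorem T_ub (α : W) : ∃ β, α ≤ β ∧ T β := exists_T.choose_spec.1 α

theorem nT_ub (α : W) : ∃ β, α ≤ β ∧ ¬ T β := exists_T.choose_spec.2 α

open Classical in
/-- The matrix. -/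
noncomputable def zm (g : W → E) (α : W) (κ : K) : Bool :=
  match κ with
  | Sum.inl n => rr g α (Sum.inl n)
  | Sum.inr ξ => if ξ < α then rr g α (Sum.inr ξ) else if T α then decide (ξ = α) else vv g ξ α

theorem zm_low (g : W → E) {α : W} {κ : K} (h : bel κ α) : zm g α κ = rr g α κ := by
  rcases κ with n | ξ
  · rfl
  · have h' : ξ < α := h
    simp [zm, h']

theorem zm_congr {g g' : W → E} {δ : W} (h : ∀ η < δ, g η = g' η) {α : W} (hα : α < δ) {κ : K}
    (hκ : bel κ δ) : zm g α κ = zm g' α κ := by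
  have h1 := rr_congr (g := g) (g' := g') α (fun η hη => h η (lt_of_le_of_lt hη hα))
  rcases κ with n | ξ
  · exact congrFun h1 _
  · have h2 : ξ < δ := hκ
    have h3 := vv_congr (g := g) (g' := g') ξ (fun η hη => h η (hη.trans h2))
    simp only [zm, h1, h3]

theorem zm_T {g : W → E} {α : W} (hα : T α) : zm g α (Sum.inr α) = true := by
  simp [zm, hα]

theorem zm_T' {g : W → E} {α ξ : W} (hα : T α) (h : α < ξ) : zm g α (Sum.inr ξ) = false := by
  have h1 : ¬ ξ < α := not_lt.mpr h.le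
  have h2 : ξ ≠ α := h.ne'
  simp [zm, h1, hα, h2]

theorem zm_ne (g : W → E) {α β : W} (hne : α ≠ β) :
    ∃ n : ℕ, zm g α (Sum.inl n) ≠ zm g β (Sum.inl n) := by
  rcases lt_or_gt_of_ne hne with h | h
  · obtain ⟨n, hn⟩ := (rr_spec g β).2.2 α h
    exact ⟨n, fun h' => hn h'.symm⟩
  · obtain ⟨n, hn⟩ := (rr_spec g α).2.2 β h
    exact ⟨n, hn⟩

/-- The condition is below `δ`. -/
def kbel (c : Cnd K) (δ : W) : Prop := (∀ κ ∈ c.1, bel κ δ) ∧ ∀ κ ∈ c.2, bel κ δ

theorem rk_kbel : Rk kbel := Rk.prod (Rk.finset rk_bel) (Rk.finset rk_bel)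

theorem zm_init {g : W → E} {α : W} (h : ∃ f, Mt (g α).1 f) (hb : kbel (g α).1 α) :
    Mt (g α).1 (zm g α) := by
  have h1 := (rr_spec g α).1 h
  refine ⟨fun κ hκ => ?_, fun κ hκ => ?_⟩
  · rw [zm_low g (hb.1 κ hκ)]; exact h1.1 κ hκ
  · rw [zm_low g (hb.2 κ hκ)]; exact h1.2 κ hκ

/-- Sequences of families closed under traces. -/
def CP (en : ℕ → Set (Cnd (ℕ × K))) (δ : W) : Prop :=
  (∀ i, ∀ c ∈ en i, cbel c δ) ∧
  ∀ (i j : ℕ) (c0 : Cnd K), kbel c0 δ → ∃ i', en i' = Tr (en i) j c0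

theorem zm_meet (g : W → E) (η δ ζ : W) (hcp : CP (g η).2.1 δ) (hδζ : δ ≤ ζ) (hηζ : η < ζ)
    (n : ℕ) : ∀ (J : Finset ℕ), J.card = n → ∀ i,
      (∀ c ∈ (g η).2.1 i, (∀ q ∈ c.1, q.1 ∈ J) ∧ (∀ q ∈ c.2, q.1 ∈ J)) → Pre ((g η).2.1 i) →
      ∀ s : ℕ → W, Set.InjOn s (J : Set ℕ) → (∀ j ∈ J, ζ ≤ s j) →
        ∃ c ∈ (g η).2.1 i, Mt c (fun q => zm g (s q.1) q.2) := by
  classical
  induction n with
  | zero =>
    intro J hJ i hsupp hD s _ _
    rw [Finset.card_eq_zero] at hJ
    subst hJ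
    obtain ⟨d, hd, _⟩ := hD (∅, ∅) ⟨fun _ => true, by simp, by simp⟩
    refine ⟨d, hd, ?_, ?_⟩
    · intro q hq
      exact absurd ((hsupp d hd).1 q hq) (Finset.notMem_empty _)
    · intro q hq
      exact absurd ((hsupp d hd).2 q hq) (Finset.notMem_empty _)
  | succ n ih =>
    intro J hJ i hsupp hD s hs hsζ
    have hδ := hcp.1 i
    have hJne : J.Nonempty := by
      rw [← Finset.card_pos, hJ]; omega
    obtain ⟨j0, hj0, hmax⟩ := Finset.exists_max_image J s hJne
    have hlt : ∀ j ∈ J, j ≠ j0 → s j < s j0 := by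
      intro j hj hne
      refine lt_of_le_of_ne (hmax j hj) ?_
      intro heq
      exact hne (hs (Finset.mem_coe.mpr hj) (Finset.mem_coe.mpr hj0) heq)
    let A : Finset (ℕ × W) := (J.erase j0).image (fun j => (j, s j))
    have hA : ∀ q ∈ A, q.2 < s j0 := by
      intro q hq
      obtain ⟨j, hj, rfl⟩ := Finset.mem_image.mp hq
      exact hlt j (Finset.mem_of_mem_erase hj) (Finset.ne_of_mem_erase hj)
    have hA2 : ∀ j β, (j, β) ∈ A → β = s j := by
      intro j β hq
      obtain ⟨j', hj', he⟩ := Finset.mem_image.mp hq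
      obtain ⟨rfl, rfl⟩ := Prod.mk.inj he
      rfl
    have hpre : Pre (Sec ((g η).2.1 i) A j0 (rr g)) := by
      rintro c0' ⟨f, hf⟩
      let c0 : Cnd K := (c0'.1.filter (fun κ => bel κ δ), c0'.2.filter (fun κ => bel κ δ))
      have hc0 : ∃ f, Mt c0 f :=
        ⟨f, hf.mono (Finset.filter_subset _ _) (Finset.filter_subset _ _)⟩
      obtain ⟨i', hi'⟩ := hcp.2 i j0 c0 ⟨fun κ hκ => (Finset.mem_filter.mp hκ).2,
        fun κ hκ => (Finset.mem_filter.mp hκ).2⟩
      have hih := ih (J.erase j0) (by rw [Finset.card_erase_of_mem hj0, hJ]; rfl) i'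
        (by
          rw [hi']
          rintro d ⟨c, hc, _, rfl⟩
          refine ⟨fun q hq => ?_, fun q hq => ?_⟩
          · obtain ⟨h1, h2⟩ := mem_restr1.mp hq
            exact Finset.mem_erase.mpr ⟨h2, (hsupp c hc).1 q h1⟩
          · obtain ⟨h1, h2⟩ := mem_restr2.mp hq
            exact Finset.mem_erase.mpr ⟨h2, (hsupp c hc).2 q h1⟩)
        (by rw [hi']; exact pre_Tr hD _ _ hc0) s
        (hs.mono (by exact_mod_cast Finset.erase_subset _ _))
        (fun j hj => hsζ j (Finset.mem_of_mem_erase hj))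
      rw [hi'] at hih
      obtain ⟨d, ⟨c, hc, ⟨g1, hg1, hg2⟩, rfl⟩, hm⟩ := hih
      refine ⟨row j0 c, ⟨c, hc, ?_, ?_, rfl⟩,
        fun κ => if bel κ δ then g1 κ else f κ, ⟨?_, ?_⟩, ⟨?_, ?_⟩⟩
      · intro q hq hne
        have hqJ := (hsupp c hc).1 q hq
        refine ⟨s q.1, Finset.mem_image.mpr ⟨q.1, Finset.mem_erase.mpr ⟨hne, hqJ⟩, rfl⟩, ?_⟩
        rw [← zm_low g (rk_bel.mono _ _ _ (hδζ.trans (hsζ _ hqJ)) ((hδ c hc).1 q hq).2)]
        exact hm.1 q (mem_restr1.mpr ⟨hq, hne⟩)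
      · intro q hq hne
        have hqJ := (hsupp c hc).2 q hq
        refine ⟨s q.1, Finset.mem_image.mpr ⟨q.1, Finset.mem_erase.mpr ⟨hne, hqJ⟩, rfl⟩, ?_⟩
        rw [← zm_low g (rk_bel.mono _ _ _ (hδζ.trans (hsζ _ hqJ)) ((hδ c hc).2 q hq).2)]
        exact hm.2 q (mem_restr2.mpr ⟨hq, hne⟩)
      · intro κ hκ
        by_cases h : bel κ δ
        · simp only [h, if_true]
          exact hg2.1 κ (Finset.mem_filter.mpr ⟨hκ, h⟩)
        · simp only [h, if_false]
          exact hf.1 κ hκ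
      · intro κ hκ
        by_cases h : bel κ δ
        · simp only [h, if_true]
          exact hg2.2 κ (Finset.mem_filter.mpr ⟨hκ, h⟩)
        · simp only [h, if_false]
          exact hf.2 κ hκ
      · intro κ hκ
        have h : bel κ δ := ((hδ c hc).1 _ (mem_row1.mp hκ)).2
        simp only [h, if_true]
        exact hg1.1 κ hκ
      · intro κ hκ
        have h : bel κ δ := ((hδ c hc).2 _ (mem_row2.mp hκ)).2
        simp only [h, if_true]
        exact hg1.2 κ hκ
    obtain ⟨d, ⟨c, hc, h1, h2, rfl⟩, hm⟩ :=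
      (rr_spec g (s j0)).2.1 η (hηζ.trans_le (hsζ j0 hj0)) i j0 A hA hpre
    refine ⟨c, hc, ?_, ?_⟩
    · rintro ⟨j, κ⟩ hq
      have hqJ := (hsupp c hc).1 _ hq
      have hzr := zm_low g (α := s j) (κ := κ)
        (rk_bel.mono _ _ _ (hδζ.trans (hsζ _ hqJ)) ((hδ c hc).1 _ hq).2)
      show zm g (s j) κ = true
      rw [hzr]
      by_cases hj : j = j0
      · subst hj
        exact hm.1 κ (mem_row1.mpr hq)
      · obtain ⟨β, hβ, hβ'⟩ := h1 _ hq hj
        rw [hA2 _ _ hβ] at hβ'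
        exact hβ'
    · rintro ⟨j, κ⟩ hq
      have hqJ := (hsupp c hc).2 _ hq
      have hzr := zm_low g (α := s j) (κ := κ)
        (rk_bel.mono _ _ _ (hδζ.trans (hsζ _ hqJ)) ((hδ c hc).2 _ hq).2)
      show zm g (s j) κ = false
      rw [hzr]
      by_cases hj : j = j0
      · subst hj
        exact hm.2 κ (mem_row2.mpr hq)
      · obtain ⟨β, hβ, hβ'⟩ := h2 _ hq hj
        rw [hA2 _ _ hβ] at hβ'
        exact hβ'

/-- Later columns realize all patterns on the promised sequence. -/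
theorem zm_pat (g : W → E) (η ζ : W) (n : ℕ)
    (h1 : ∀ l, Set.InjOn ((g η).2.2 l) (Set.Iio n))
    (h2 : ∀ l l', l ≠ l' → ∀ j < n, ∀ j' < n, (g η).2.2 l j ≠ (g η).2.2 l' j')
    (h3 : ∀ l, ∀ j < n, ¬ T ((g η).2.2 l j)) (h4 : ∀ l, ∀ j < n, (g η).2.2 l j < ζ)
    (h5 : η < ζ) (b : Finset K) (f : ℕ → K → Bool) (hb : ∀ κ ∈ b, ¬ bel κ ζ) :
    ∃ l, ∀ j < n, ∀ κ ∈ b, zm g ((g η).2.2 l j) κ = f j κ := by
  classical
  let b' : Finset W := b.image (Sum.elim (fun _ => ζ) id)
  have hb' : ∀ ξ ∈ b', η < ξ := by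
    intro ξ hξ
    obtain ⟨κ, hκ, rfl⟩ := Finset.mem_image.mp hξ
    rcases κ with m | ξ'
    · exact h5
    · exact h5.trans_le (not_lt.mp (hb _ hκ))
  obtain ⟨l, hl⟩ := (z2_aux (fun η => (g η).2.2) (vv g) (vv_spec g) η n h1 h2
    (fun j ξ => f j (Sum.inr ξ)) b' hb').nonempty
  refine ⟨l, ?_⟩
  intro j hj κ hκ
  rcases κ with m | ξ
  · exact absurd trivial (hb _ hκ)
  · have h6 : ζ ≤ ξ := not_lt.mp (hb _ hκ)
    have h7 : ¬ ξ < (g η).2.2 l j := not_lt.mpr ((h4 l j hj).le.trans h6)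
    have h8 := hl j hj ξ (Finset.mem_image.mpr ⟨Sum.inr ξ, hκ, rfl⟩)
    simp only [zm, h7, if_false, h3 l j hj]
    exact h8

/-- Iterated traces. -/
def TrL (D : Set (Cnd (ℕ × K))) : List (ℕ × Cnd K) → Set (Cnd (ℕ × K))
  | [] => D
  | x :: l => Tr (TrL D l) x.1 x.2

theorem TrL_bel {D : Set (Cnd (ℕ × K))} {δ : W} (h : ∀ c ∈ D, cbel c δ) (l : List (ℕ × Cnd K)) :
    ∀ c ∈ TrL D l, cbel c δ := by
  induction l with
  | nil => exact h
  | cons x l ih =>
    rintro d ⟨c, hc, _, rfl⟩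
    refine ⟨fun q hq => ?_, fun q hq => ?_⟩
    · exact (ih c hc).1 q (mem_restr1.mp hq).1
    · exact (ih c hc).2 q (mem_restr2.mp hq).1

theorem exists_cp (DD : Set (Set (Cnd (ℕ × K)))) (hDD : DD.Countable) (δ : W)
    (hb : ∀ D ∈ DD, ∀ c ∈ D, cbel c δ) : ∃ en, CP en δ ∧ ∀ D ∈ DD, ∃ i, en i = D := by
  let I : Set (Set (Cnd (ℕ × K)) × List (ℕ × Cnd K)) :=
    {x | x.1 ∈ insert ∅ DD ∧ ∀ y ∈ x.2, True ∧ kbel y.2 δ}
  have hI : I.Countable := by
    have h1 := (hDD.insert ∅).prod ((Rk.list (Rk.prod (Rk.triv (H := ℕ)) rk_kbel)).cnt δ)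
    exact h1.mono fun x hx => hx
  have hne : ((fun x : Set (Cnd (ℕ × K)) × List (ℕ × Cnd K) => TrL x.1 x.2) '' I).Nonempty :=
    ⟨_, (∅, []), ⟨Set.mem_insert _ _, by simp⟩, rfl⟩
  obtain ⟨en, hen⟩ := (hI.image _).exists_eq_range hne
  have hmem : ∀ i, ∃ x ∈ I, TrL x.1 x.2 = en i := by
    intro i
    have : en i ∈ (fun x : Set (Cnd (ℕ × K)) × List (ℕ × Cnd K) => TrL x.1 x.2) '' I := by
      rw [hen]; exact Set.mem_range_self i
    exact this
  have hmem' : ∀ x ∈ I, ∃ i, en i = TrL x.1 x.2 := by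
    intro x hx
    have : TrL x.1 x.2 ∈ Set.range en := by
      rw [← hen]; exact ⟨x, hx, rfl⟩
    exact this
  refine ⟨en, ⟨?_, ?_⟩, ?_⟩
  · intro i
    obtain ⟨x, hx, hx'⟩ := hmem i
    rw [← hx']
    refine TrL_bel ?_ _
    rcases hx.1 with h | h
    · rw [h]; simp
    · exact hb _ h
  · intro i j c0 hc0
    obtain ⟨x, hx, hx'⟩ := hmem i
    rw [← hx']
    refine hmem' (x.1, (j, c0) :: x.2) ⟨hx.1, ?_⟩
    intro y hy
    rcases List.mem_cons.mp hy with rfl | hy
    · exact ⟨trivial, hc0⟩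
    · exact hx.2 y hy
  · intro D hD
    exact hmem' (D, []) ⟨Set.mem_insert_of_mem _ hD, by simp⟩

end TK

end Pool.Agent.Lib.MP_44eb6b_gt
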