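import Mathlib

/-!
The set of functionals is closed in the space of all functionals of a given class on a given class
of continuous functions.
-/

set_option autoImplicit false

namespace Pool.Agent.Lib.MP_44eb6b_gt

namespace TK

open Set TopologicalSpace Filter Topology

universe u

/-! ### The functional on sequences -/

/-- The terms of the series. -/
noncomputable def tmS (u : ℕ → ℝ) (i : ℕ) : ℝ :=
  (1 / 2 : ℝ) ^ (i + 1) * max 0 (1 - |u (i + 1) - u 0|)

/-- The series. -/
noncomputable def sfS (u : ℕ → ℝ) : ℝ := ∑' i, tmS u i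

/-- The functional. -/
noncomputable def psiS (u : ℕ → ℝ) : ℝ := (sfS u)⁻¹ + u 0

theorem sum_halfS : Summable (fun i : ℕ => (1 / 2 : ℝ) ^ (i + 1)) := by
  have := summable_geometric_two
  exact (summable_nat_add_iff 1).mpr this

theorem tsum_halfS : ∑' i : ℕ, (1 / 2 : ℝ) ^ (i + 1) = 1 := by
  have h : ∀ i : ℕ, (1 / 2 : ℝ) ^ (i + 1) = (1 / 2) * (1 / 2) ^ i := fun i => by ring
  simp only [h]
  rw [tsum_mul_left, tsum_geometric_two]
  norm_num

theorem tsum_halfS_add (N : ℕ) : ∑' i : ℕ, (1 / 2 : ℝ) ^ (i + N + 1) = (1 / 2) ^ N := by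
  have h : ∀ i : ℕ, (1 / 2 : ℝ) ^ (i + N + 1) = (1 / 2) ^ N * (1 / 2) ^ (i + 1) :=
    fun i => by ring
  simp only [h]
  rw [tsum_mul_left, tsum_halfS]
  ring

theorem tmS_nonneg (u : ℕ → ℝ) (i : ℕ) : 0 ≤ tmS u i :=
  mul_nonneg (by positivity) (le_max_left _ _)

theorem tmS_le (u : ℕ → ℝ) (i : ℕ) : tmS u i ≤ (1 / 2 : ℝ) ^ (i + 1) := by
  have h1 : max 0 (1 - |u (i + 1) - u 0|) ≤ 1 := by
    apply max_le zero_le_one
    have := abs_nonneg (u (i + 1) - u 0)
    linarith
  calc tmS u i ≤ (1 / 2 : ℝ) ^ (i + 1) * 1 := mul_le_mul_of_nonneg_left h1 (by positivity)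
    _ = _ := mul_one _

theorem tmS_norm (u : ℕ → ℝ) (i : ℕ) : ‖tmS u i‖ ≤ (1 / 2 : ℝ) ^ (i + 1) := by
  rw [Real.norm_eq_abs, abs_of_nonneg (tmS_nonneg u i)]
  exact tmS_le u i

theorem tmS_sum (u : ℕ → ℝ) : Summable (tmS u) :=
  Summable.of_nonneg_of_le (tmS_nonneg u) (tmS_le u) sum_halfS

theorem psiS_const (u : ℕ → ℝ) (c : ℝ) (h : ∀ m, u m = c) : psiS u = 1 + c := by
  have h1 : ∀ i, tmS u i = (1 / 2 : ℝ) ^ (i + 1) := by
    intro i
    simp [tmS, h]
  have h2 : sfS u = 1 := by
    unfold sfS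
    simp only [h1]
    exact tsum_halfS
  unfold psiS
  rw [h2, h]
  norm_num

theorem psiS_one (u : ℕ → ℝ) (h1 : u 1 = 1) (h2 : ∀ m, m ≠ 1 → u m = 0) : psiS u = 2 := by
  have h3 : sfS u = 1 / 2 := by
    unfold sfS
    rw [(tmS_sum u).tsum_eq_zero_add]
    have h4 : tmS u 0 = 0 := by
      simp [tmS, h1, h2 0 (by norm_num)]
    have h5 : ∀ i, tmS u (i + 1) = (1 / 2 : ℝ) ^ (i + 1 + 1) := by
      intro i
      simp [tmS, h2 0 (by norm_num), h2 (i + 1 + 1) (by omega)]
    rw [h4]
    simp only [h5]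
    rw [zero_add, tsum_halfS_add 1]
    norm_num
  unfold psiS
  rw [h3, h2 0 (by norm_num)]
  norm_num

theorem psiS_big (u : ℕ → ℝ) (N : ℕ) (h0 : u 0 = 1) (h1 : ∀ i < N, u (i + 1) = 0)
    (hpos : 0 < sfS u) : (2 : ℝ) ^ N ≤ psiS u := by
  have h2 : sfS u ≤ (1 / 2) ^ N := by
    unfold sfS
    rw [← (tmS_sum u).sum_add_tsum_nat_add N]
    have h3 : ∑ i ∈ Finset.range N, tmS u i = 0 := by
      apply Finset.sum_eq_zero
      intro i hi
      rw [Finset.mem_range] at hi
      simp [tmS, h0, h1 i hi]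
    rw [h3, zero_add, ← tsum_halfS_add N]
    refine Summable.tsum_le_tsum (fun i => tmS_le u (i + N)) ?_ ?_
    · exact (summable_nat_add_iff N).mpr (tmS_sum u)
    · exact (summable_nat_add_iff N).mpr sum_halfS
  have h3 : (2 : ℝ) ^ N ≤ (sfS u)⁻¹ := by
    have h4 : ((1 / 2 : ℝ) ^ N)⁻¹ ≤ (sfS u)⁻¹ := inv_anti₀ hpos h2
    have h5 : ((1 / 2 : ℝ) ^ N)⁻¹ = 2 ^ N := by
      rw [one_div, inv_pow, inv_inv]
    rwa [h5] at h4
  unfold psiS
  rw [h0]
  linarith

theorem sfS_pos (u : ℕ → ℝ) (i : ℕ) (h : |u (i + 1) - u 0| < 1) : 0 < sfS u := by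
  refine (tmS_sum u).tsum_pos (tmS_nonneg u) i ?_
  unfold tmS
  apply mul_pos (by positivity)
  apply lt_max_of_lt_right
  linarith

/-! ### The space -/

/-- Indices of the basic clopen sets. -/
abbrev LV (V : Type) : Type := (ℕ ⊕ ℕ) ⊕ ((ℕ ⊕ V) ⊕ V)

open Classical in
/-- The characteristic functions of the basic clopen sets. -/
noncomputable def phV {V : Type} (z : V → ℕ ⊕ V → Bool) (T : V → Prop) (x : V × ℕ) (l : LV V) :
    Bool :=
  match l with
  | Sum.inl (Sum.inl n) => z x.1 (Sum.inl n)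
  | Sum.inl (Sum.inr n) => decide (x.2 = n + 1)
  | Sum.inr (Sum.inl κ) => decide (x.2 = 1) && z x.1 κ
  | Sum.inr (Sum.inr β) => decide (¬ T β →
      x.2 = 0 ∨ ∃ n < x.2, z x.1 (Sum.inl n) ≠ z β (Sum.inl n))

section

variable {V : Type} {z : V → ℕ ⊕ V → Bool} {T : V → Prop}

theorem phV_inj (z5 : ∀ α β, α ≠ β → ∃ n : ℕ, z α (Sum.inl n) ≠ z β (Sum.inl n)) :
    Function.Injective (phV z T) := by
  rintro ⟨α, m⟩ ⟨β, n⟩ h
  have h1 : α = β := by
    by_contra hne
    obtain ⟨k, hk⟩ := z5 α β hne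
    exact hk (congrFun h (Sum.inl (Sum.inl k)))
  subst h1
  have h2 : m = n := by
    rcases m with _ | m
    · rcases n with _ | n
      · rfl
      · have := congrFun h (Sum.inl (Sum.inr n))
        simp [phV] at this
    · have := congrFun h (Sum.inl (Sum.inr m))
      simp only [phV, decide_true] at this
      have := of_decide_eq_true this.symm
      exact this.symm
  rw [h2]

theorem phV_dep (l : LV V) (m : ℕ) : ∃ a : Finset (ℕ ⊕ V), ∀ x y : V × ℕ, x.2 = m → y.2 = m →
    (∀ κ ∈ a, z y.1 κ = z x.1 κ) → phV z T y l = phV z T x l := by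
  classical
  rcases l with (n | n) | (κ | β)
  · refine ⟨{Sum.inl n}, ?_⟩
    intro x y _ _ h
    exact h _ (Finset.mem_singleton_self _)
  · refine ⟨∅, ?_⟩
    intro x y hx hy _
    simp only [phV, hx, hy]
  · refine ⟨{κ}, ?_⟩
    intro x y hx hy h
    simp only [phV, hx, hy, h _ (Finset.mem_singleton_self _)]
  · refine ⟨(Finset.range m).image Sum.inl, ?_⟩
    intro x y hx hy h
    simp only [phV, hx, hy]
    congr 1
    apply propext
    refine imp_congr_right fun _ => or_congr_right ?_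
    constructor
    · rintro ⟨n, hn, h1⟩
      rw [h _ (Finset.mem_image_of_mem _ (Finset.mem_range.mpr hn))] at h1
      exact ⟨n, hn, h1⟩
    · rintro ⟨n, hn, h1⟩
      rw [← h _ (Finset.mem_image_of_mem _ (Finset.mem_range.mpr hn))] at h1
      exact ⟨n, hn, h1⟩

variable {Y : Type u} [TopologicalSpace Y] {e : V × ℕ ≃ Y}
  (he : IsInducing fun y => phV z T (e.symm y))

include he

theorem open_phV (O : Set Y) (hO : IsOpen O) (p : V × ℕ) (hp : e p ∈ O) :
    ∃ A : Finset (LV V), ∀ q : V × ℕ, (∀ l ∈ A, phV z T q l = phV z T p l) → e q ∈ O := by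
  obtain ⟨t, ht, rfl⟩ := he.isOpen_iff.mp hO
  have hp' : phV z T p ∈ t := by
    have : phV z T (e.symm (e p)) ∈ t := hp
    rwa [Equiv.symm_apply_apply] at this
  obtain ⟨I, w, hw1, hw2⟩ := isOpen_pi_iff.mp ht (phV z T p) hp'
  refine ⟨I, ?_⟩
  intro q hq
  show phV z T (e.symm (e q)) ∈ t
  rw [Equiv.symm_apply_apply]
  apply hw2
  intro l hl
  rw [hq l hl]
  exact (hw1 l hl).2

theorem open_ptV (O : Set Y) (hO : IsOpen O) (p : V × ℕ) (hp : e p ∈ O) :
    ∃ a : Finset (ℕ ⊕ V), ∀ q : V × ℕ, q.2 = p.2 → (∀ κ ∈ a, z q.1 κ = z p.1 κ) → e q ∈ O := by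
  classical
  obtain ⟨A, hA⟩ := open_phV he O hO p hp
  choose d hd using fun l => phV_dep (z := z) (T := T) l p.2
  refine ⟨A.biUnion d, ?_⟩
  intro q hq1 hq2
  apply hA
  intro l hl
  exact hd l p q rfl hq1 (fun κ hκ => hq2 κ (Finset.mem_biUnion.mpr ⟨l, hl, hκ⟩))

/-- Continuity of functions depending on finitely many clopen sets. -/
theorem cont_finV (A : Finset (LV V)) (h : (LV V → Bool) → Bool)
    (hd : ∀ g g', (∀ l ∈ A, g l = g' l) → h g = h g') :
    Continuous (fun y : Y => (if h (phV z T (e.symm y)) = true then (1 : ℝ) else 0)) := by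
  have h1 : IsLocallyConstant (fun g => if h g = true then (1 : ℝ) else 0) := by
    rw [IsLocallyConstant.iff_exists_open]
    intro g
    refine ⟨(A : Set (LV V)).pi (fun l => {g l}), ?_, ?_, ?_⟩
    · exact isOpen_set_pi A.finite_toSet (fun l _ => isOpen_discrete _)
    · intro l _; rfl
    · intro g' hg'
      have := hd g' g (fun l hl => hg' l hl)
      simp only [this]
  exact h1.continuous.comp he.continuous

omit he in
theorem conv_phV (z5 : ∀ α β, α ≠ β → ∃ n : ℕ, z α (Sum.inl n) ≠ z β (Sum.inl n)) (α : V)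
    (hα : T α) (l : LV V) : ∃ N, ∀ i, N ≤ i → phV z T (α, i + 1) l = phV z T (α, 0) l := by
  rcases l with (n | n) | (κ | β)
  · exact ⟨0, fun i _ => rfl⟩
  · refine ⟨n + 1, ?_⟩
    intro i hi
    have h1 : ¬ i + 1 = n + 1 := by omega
    have h2 : ¬ (0 : ℕ) = n + 1 := by omega
    simp only [phV, h1, h2]
  · refine ⟨1, ?_⟩
    intro i hi
    have h1 : ¬ i + 1 = 1 := by omega
    simp [phV]
    intro h
    omega
  · by_cases hβ : T β
    · exact ⟨0, fun i _ => by simp [phV, hβ]⟩
    · have hne : α ≠ β := by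
        rintro rfl
        exact hβ hα
      obtain ⟨n, hn⟩ := z5 α β hne
      refine ⟨n, ?_⟩
      intro i hi
      have h1 : ∃ n < i + 1, z α (Sum.inl n) ≠ z β (Sum.inl n) := ⟨n, by omega, hn⟩
      have h2 : (¬ T β → (i + 1 = 0 ∨ ∃ n < i + 1, z α (Sum.inl n) ≠ z β (Sum.inl n))) :=
        fun _ => Or.inr h1
      have h3 : (¬ T β → ((0 : ℕ) = 0 ∨ ∃ n < 0, z α (Sum.inl n) ≠ z β (Sum.inl n))) :=
        fun _ => Or.inl rfl
      simp only [phV]
      congr 1
      exact propext ⟨fun _ => h3, fun _ => h2⟩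

theorem sfS_pos' (z5 : ∀ α β, α ≠ β → ∃ n : ℕ, z α (Sum.inl n) ≠ z β (Sum.inl n)) (f : Y → ℝ)
    (hf : Continuous f) (α : V) (hα : T α) : 0 < sfS fun m => f (e (α, m)) := by
  have hopen : IsOpen {q : Y | |f q - f (e (α, 0))| < 1} := by
    apply isOpen_lt _ continuous_const
    exact (hf.sub continuous_const).abs
  obtain ⟨A, hA⟩ := open_phV he _ hopen (α, 0) (by
    show |f (e (α, 0)) - f (e (α, 0))| < 1
    simp)
  choose N hN using fun l => conv_phV (z := z) (T := T) z5 α hα l
  exact sfS_pos _ (A.sup N) (hA (α, A.sup N + 1) (fun l hl => hN l _ (Finset.le_sup hl)))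

variable (I : (Y → ℝ) → Prop)

/-- The continuous functions of a class. -/
abbrev CI (I : (Y → ℝ) → Prop) : Type u := {f : Y → ℝ // Continuous f ∧ I f}

omit he in
theorem cont_sfS (v : ℕ → Y) : Continuous (fun f : CI I => sfS fun m => f.1 (v m)) := by
  unfold sfS
  refine continuous_tsum (fun i => ?_) sum_halfS (fun i f => tmS_norm _ i)
  unfold tmS
  have h1 : ∀ p : Y, Continuous (fun f : CI I => f.1 p) := fun p =>
    (continuous_apply (A := fun _ : Y => ℝ) p).comp continuous_subtype_val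
  have h2 := ((h1 (v (i + 1))).sub (h1 (v 0))).abs
  exact continuous_const.mul (continuous_const.max (continuous_const.sub h2))

theorem cont_psiS (z5 : ∀ α β, α ≠ β → ∃ n : ℕ, z α (Sum.inl n) ≠ z β (Sum.inl n)) (α : V)
    (hα : T α) : Continuous (fun f : CI I => psiS fun m => f.1 (e (α, m))) := by
  unfold psiS
  have h1 : Continuous (fun f : CI I => f.1 (e (α, 0))) :=
    (continuous_apply (A := fun _ : Y => ℝ) (e (α, 0))).comp continuous_subtype_val
  exact ((cont_sfS I fun m => e (α, m)).inv₀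
    (fun f => (sfS_pos' he z5 f.1 f.2.1 α hα).ne')).add h1

variable {I} (J : (CI I → ℝ) → Prop)

/-- The continuous functionals of a class. -/
abbrev CJ (J : (CI I → ℝ) → Prop) : Type u := {Φ : CI I → ℝ // Continuous Φ ∧ J Φ}

omit he in
theorem zero_nbhdS (zf : CI I) (h0 : ∀ y, zf.1 y = 0) (Φ : CI I → ℝ) (hΦ : Continuous Φ) :
    ∃ A : Finset Y, ∀ g : CI I, (∀ p ∈ A, g.1 p = 0) → |Φ g - Φ zf| < 1 / 2 := by
  have hopen : IsOpen {g : CI I | |Φ g - Φ zf| < 1 / 2} := by
    apply isOpen_lt _ continuous_const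
    exact (hΦ.sub continuous_const).abs
  obtain ⟨t, ht, ht2⟩ := isOpen_induced_iff.mp hopen
  have h0' : zf.1 ∈ t := by
    have : zf ∈ {g : CI I | |Φ g - Φ zf| < 1 / 2} := by
      show |Φ zf - Φ zf| < 1 / 2
      simp
    rw [← ht2] at this
    exact this
  obtain ⟨A, w, hw1, hw2⟩ := isOpen_pi_iff.mp ht zf.1 h0'
  refine ⟨A, ?_⟩
  intro g hg
  have : g ∈ {g : CI I | |Φ g - Φ zf| < 1 / 2} := by
    rw [← ht2]
    apply hw2
    intro p hp
    rw [hg p hp, ← h0 p]
    exact (hw1 p hp).2
  exact this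

/-- The set of functionals. -/
def CS (T : V → Prop) (e : V × ℕ ≃ Y) (J : (CI I → ℝ) → Prop) : Set (CJ J) :=
  {Φ | ∃ α, T α ∧ ∀ f, Φ.1 f = psiS fun m => f.1 (e (α, m))}

theorem closed_CS (z5 : ∀ α β, α ≠ β → ∃ n : ℕ, z α (Sum.inl n) ≠ z β (Sum.inl n))
    (hne : Nonempty V)
    (hI : ∀ (A : Finset (LV V)) (h : (LV V → Bool) → Bool),
      (∀ g g', (∀ l ∈ A, g l = g' l) → h g = h g') →
      I fun y => if h (phV z T (e.symm y)) = true then 1 else 0) :
    IsClosed (CS T e J) := by
  classical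
  -- test functions
  let tf : ∀ (A : Finset (LV V)) (h : (LV V → Bool) → Bool),
      (∀ g g', (∀ l ∈ A, g l = g' l) → h g = h g') → CI I := fun A h hd =>
    ⟨fun y => if h (phV z T (e.symm y)) = true then 1 else 0, cont_finV he A h hd, hI A h hd⟩
  have tf_app : ∀ A h hd (x : V × ℕ), (tf A h hd).1 (e x) =
      if h (phV z T x) = true then 1 else 0 := by
    intro A h hd x
    show (if h (phV z T (e.symm (e x))) = true then (1 : ℝ) else 0) = _
    rw [Equiv.symm_apply_apply]
  let zf : CI I := tf ∅ (fun _ => false) (fun _ _ _ => rfl)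
  have zf0 : ∀ y, zf.1 y = 0 := fun y => by
    show (if (false = true) then (1 : ℝ) else 0) = 0
    simp
  rw [← closure_subset_iff_isClosed]
  intro Φ hΦ
  obtain ⟨w, hw1, hw2⟩ := mem_closure_iff_ultrafilter.mp hΦ
  -- the index function
  obtain ⟨α0⟩ := hne
  have hidx : ∀ Φ' : CJ J, ∃ α : V, Φ' ∈ CS T e J → T α ∧ ∀ f, Φ'.1 f =
      psiS fun m => f.1 (e (α, m)) := by
    intro Φ'
    by_cases h : Φ' ∈ CS T e J
    · obtain ⟨α, hα⟩ := h
      exact ⟨α, fun _ => hα⟩
    · exact ⟨α0, fun h' => absurd h' h⟩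
  choose idx hidx using hidx
  let v : Ultrafilter V := w.map idx
  have hT : ∀ᶠ α in (v : Filter V), T α := by
    show {α | T α} ∈ w.map idx
    rw [Ultrafilter.mem_map]
    exact Filter.mem_of_superset hw1 (fun Φ' h => (hidx Φ' h).1)
  have hlim : ∀ f : CI I, Tendsto (fun α => psiS fun m => f.1 (e (α, m))) (v : Filter V)
      (𝓝 (Φ.1 f)) := by
    intro f
    have h1 : Tendsto (fun Φ' : CJ J => Φ'.1 f) (w : Filter _) (𝓝 (Φ.1 f)) := by
      have h2 : Continuous (fun Φ' : CJ J => Φ'.1 f) :=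
        (continuous_apply f).comp continuous_subtype_val
      exact (h2.tendsto Φ).mono_left hw2
    have h3 : Tendsto (fun Φ' : CJ J => psiS fun m => f.1 (e (idx Φ', m))) (w : Filter _)
        (𝓝 (Φ.1 f)) := by
      refine h1.congr' ?_
      exact Filter.mem_of_superset hw1 (fun Φ' h => (hidx Φ' h).2 f)
    have h4 : ((v : Filter V)) = Filter.map idx (w : Filter _) := rfl
    rw [h4, Filter.tendsto_map'_iff]
    exact h3
  have hconst : ∀ (f : CI I) (c : ℝ), (∀ᶠ α in (v : Filter V),
      (psiS fun m => f.1 (e (α, m))) = c) → Φ.1 f = c := by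
    intro f c h
    have h1 : Tendsto (fun α => psiS fun m => f.1 (e (α, m))) (v : Filter V) (𝓝 c) :=
      tendsto_const_nhds.congr' (h.mono fun α hα => hα.symm)
    exact tendsto_nhds_unique (hlim f) h1
  have hzero : Φ.1 zf = 1 := hconst _ _ (Eventually.of_forall fun α => by
    have := psiS_const (fun m => zf.1 (e (α, m))) 0 (fun m => zf0 _)
    rw [this]; norm_num)
  obtain ⟨A', hA'⟩ := zero_nbhdS zf zf0 Φ.1 Φ.2.1
  let A : Finset (V × ℕ) := A'.image e.symm
  have hA : ∀ g : CI I, (∀ p ∈ A, g.1 (e p) = 0) → |Φ.1 g - Φ.1 zf| < 1 / 2 := by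
    intro g hg
    apply hA'
    intro y hy
    have := hg (e.symm y) (Finset.mem_image_of_mem _ hy)
    rwa [Equiv.apply_symm_apply] at this
  -- limits of the coordinates
  have hρ : ∀ n : ℕ, ∃ b : Bool, ∀ᶠ α in (v : Filter V), z α (Sum.inl n) = b := by
    intro n
    rcases v.em (fun α => z α (Sum.inl n) = true) with h | h
    · exact ⟨true, h⟩
    · exact ⟨false, h.mono fun α hα => by simpa using hα⟩
  choose ρ hρ using hρ
  have hρN : ∀ N : ℕ, ∀ᶠ α in (v : Filter V), ∀ n < N, z α (Sum.inl n) = ρ n := by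
    intro N
    have := (Filter.eventually_all_finset (Finset.range N)
      (p := fun n α => z α (Sum.inl n) = ρ n) (l := (v : Filter V))).mpr (fun n _ => hρ n)
    exact this.mono fun α hα n hn => hα n (Finset.mem_range.mpr hn)
  -- step 1
  have hβ : ∃ β, ∀ n, z β (Sum.inl n) = ρ n := by
    by_contra hcon
    push Not at hcon
    choose ee hee using hcon
    let N : ℕ := A.sup (fun p : V × ℕ => ee p.1 + 1)
    let h : (LV V → Bool) → Bool := fun g => decide (∀ n < N, g (Sum.inl (Sum.inl n)) = ρ n)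
    have hd : ∀ g g', (∀ l ∈ (Finset.range N).image (fun n => (Sum.inl (Sum.inl n) : LV V)),
        g l = g' l) → h g = h g' := by
      intro g g' hg
      have : (∀ n < N, g (Sum.inl (Sum.inl n)) = ρ n) ↔
          (∀ n < N, g' (Sum.inl (Sum.inl n)) = ρ n) := by
        refine forall_congr' fun n => imp_congr_right fun hn => ?_
        rw [hg _ (Finset.mem_image_of_mem _ (Finset.mem_range.mpr hn))]
      show decide _ = decide _
      simp only [this]
    have h1 := hA (tf _ h hd) (by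
      intro p hp
      have hp' : ee p.1 < N := Finset.le_sup (f := fun p : V × ℕ => ee p.1 + 1) hp
      have : ¬ h (phV z T p) = true := by
        intro hh
        exact hee _ (of_decide_eq_true hh _ hp')
      rw [tf_app _ _ hd, if_neg this])
    have h2 : Φ.1 (tf _ h hd) = 2 := by
      apply hconst
      refine (hρN N).mono fun α hα => ?_
      rw [psiS_const _ 1 (fun m => ?_)]
      · norm_num
      · have : h (phV z T (α, m)) = true := decide_eq_true hα
        rw [tf_app _ _ hd, if_pos this]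
    rw [h2, hzero] at h1
    norm_num at h1
  obtain ⟨β, hβ⟩ := hβ
  -- step 2
  have hk : ∀ κ : ℕ ⊕ V, ∀ᶠ α in (v : Filter V), z α κ = z β κ := by
    intro κ
    rcases v.em (fun α => z α κ = z β κ) with h | h
    · exact h
    · exfalso
      have hsep : ∀ γ : V, ∃ n, γ ≠ β → z γ (Sum.inl n) ≠ ρ n := by
        intro γ
        by_cases hγ : γ = β
        · exact ⟨0, fun h => absurd hγ h⟩
        · obtain ⟨n, hn⟩ := z5 γ β hγ
          refine ⟨n, fun _ => ?_⟩
          rw [← hβ n]; exact hn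
      choose ee hee using hsep
      let N : ℕ := A.sup (fun p : V × ℕ => ee p.1 + 1)
      let hh : (LV V → Bool) → Bool := fun g => decide (g (Sum.inl (Sum.inr 0)) = true ∧
        (∀ n < N, g (Sum.inl (Sum.inl n)) = ρ n) ∧ g (Sum.inr (Sum.inl κ)) ≠ z β κ)
      have hd : ∀ g g', (∀ l ∈ insert (Sum.inl (Sum.inr 0)) (insert (Sum.inr (Sum.inl κ))
          ((Finset.range N).image (fun n => (Sum.inl (Sum.inl n) : LV V)))), g l = g' l) →
          hh g = hh g' := by
        intro g g' hg
        have h1 : (∀ n < N, g (Sum.inl (Sum.inl n)) = ρ n) ↔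
            (∀ n < N, g' (Sum.inl (Sum.inl n)) = ρ n) := by
          refine forall_congr' fun n => imp_congr_right fun hn => ?_
          rw [hg _ (Finset.mem_insert_of_mem (Finset.mem_insert_of_mem
            (Finset.mem_image_of_mem _ (Finset.mem_range.mpr hn))))]
        have h2 := hg (Sum.inl (Sum.inr 0)) (Finset.mem_insert_self _ _)
        have h3 := hg (Sum.inr (Sum.inl κ))
          (Finset.mem_insert_of_mem (Finset.mem_insert_self _ _))
        show decide _ = decide _
        simp only [h1, h2, h3]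
      have h1 := hA (tf _ hh hd) (by
        intro p hp
        have hp' : ee p.1 < N := Finset.le_sup (f := fun p : V × ℕ => ee p.1 + 1) hp
        have : ¬ hh (phV z T p) = true := by
          intro hhp
          obtain ⟨a1, a2, a3⟩ := of_decide_eq_true hhp
          have a4 : p.1 = β := by
            by_contra hne
            exact hee _ hne (a2 _ hp')
          have a5 : p.2 = 1 := by
            have := of_decide_eq_true a1
            exact this
          apply a3
          have a6 : p = (β, 1) := Prod.ext a4 a5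
          rw [a6]
          simp [phV]
        rw [tf_app _ _ hd, if_neg this])
      have h2 : Φ.1 (tf _ hh hd) = 2 := by
        apply hconst
        filter_upwards [hρN N, h] with α hα1 hα2
        apply psiS_one
        · have : hh (phV z T (α, 1)) = true := by
            refine decide_eq_true ⟨by simp [phV], hα1, ?_⟩
            simpa [phV] using hα2
          rw [tf_app _ _ hd, if_pos this]
        · intro m hm
          have : ¬ hh (phV z T (α, m)) = true := by
            intro hhp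
            obtain ⟨a1, _, _⟩ := of_decide_eq_true hhp
            have : m = 0 + 1 := of_decide_eq_true a1
            omega
          rw [tf_app _ _ hd, if_neg this]
      rw [h2, hzero] at h1
      norm_num at h1
  -- step 3
  have hTβ : T β := by
    by_contra hβT
    let h3 : (LV V → Bool) → Bool := fun g => g (Sum.inr (Sum.inr β))
    have hd : ∀ g g', (∀ l ∈ ({Sum.inr (Sum.inr β)} : Finset (LV V)), g l = g' l) →
        h3 g = h3 g' := fun g g' hg => hg _ (Finset.mem_singleton_self _)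
    have hpow : ∀ N : ℕ, (2 : ℝ) ^ N ≤ Φ.1 (tf _ h3 hd) := by
      intro N
      refine ge_of_tendsto (hlim (tf _ h3 hd)) ?_
      filter_upwards [hρN N, hT] with α hα1 hα2
      apply psiS_big
      · have : h3 (phV z T (α, 0)) = true := by
          simp [h3, phV]
        rw [tf_app _ _ hd, if_pos this]
      · intro i hi
        have : ¬ h3 (phV z T (α, i + 1)) = true := by
          intro h
          have h1 : (¬ T β → (i + 1 = 0 ∨ ∃ n < i + 1,
              z α (Sum.inl n) ≠ z β (Sum.inl n))) := by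
            have := h
            simp only [h3, phV] at this
            exact of_decide_eq_true this
          rcases h1 hβT with h2 | ⟨n, hn, h2⟩
          · omega
          · apply h2
            rw [hα1 n (by omega), hβ n]
        rw [tf_app _ _ hd, if_neg this]
      · exact sfS_pos' he z5 _ (tf _ h3 hd).2.1 α hα2
    obtain ⟨N, hN⟩ := pow_unbounded_of_one_lt (Φ.1 (tf _ h3 hd)) (by norm_num : (1 : ℝ) < 2)
    exact absurd (hpow N) (not_le.mpr hN)
  -- step 4
  refine ⟨β, hTβ, ?_⟩
  intro f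
  have hpt : ∀ m : ℕ, Tendsto (fun α : V => f.1 (e (α, m))) (v : Filter V)
      (𝓝 (f.1 (e (β, m)))) := by
    intro m
    rw [Metric.tendsto_nhds]
    intro ε hε
    have hopen : IsOpen {q : Y | dist (f.1 q) (f.1 (e (β, m))) < ε} :=
      isOpen_lt (f.2.1.dist continuous_const) continuous_const
    obtain ⟨a, ha⟩ := open_ptV he _ hopen (β, m) (by
      show dist (f.1 (e (β, m))) (f.1 (e (β, m))) < ε
      rw [dist_self]; exact hε)
    have h1 := (Filter.eventually_all_finset a
      (p := fun κ α => z α κ = z β κ) (l := (v : Filter V))).mpr (fun κ _ => hk κ)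
    exact h1.mono fun α hα => ha (α, m) rfl hα
  have hsf : Tendsto (fun α => sfS fun m => f.1 (e (α, m))) (v : Filter V)
      (𝓝 (sfS fun m => f.1 (e (β, m)))) := by
    unfold sfS
    refine tendsto_tsum_of_dominated_convergence sum_halfS ?_
      (Eventually.of_forall fun α i => tmS_norm _ i)
    intro i
    unfold tmS
    have h1 := ((hpt (i + 1)).sub (hpt 0)).abs
    exact tendsto_const_nhds.mul (tendsto_const_nhds.max (tendsto_const_nhds.sub h1))
  have hpsi : Tendsto (fun α => psiS fun m => f.1 (e (α, m))) (v : Filter V)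
      (𝓝 (psiS fun m => f.1 (e (β, m)))) := by
    unfold psiS
    exact (hsf.inv₀ (sfS_pos' he z5 f.1 f.2.1 β hTβ).ne').add (hpt 0)
  exact tendsto_nhds_unique (hlim f) hpsi

/-- A functional is not in the closure of functionals with smaller indices. -/
theorem not_closure_CS
    (hI : ∀ (A : Finset (LV V)) (h : (LV V → Bool) → Bool),
      (∀ g g', (∀ l ∈ A, g l = g' l) → h g = h g') →
      I fun y => if h (phV z T (e.symm y)) = true then 1 else 0)
    (D : Set (CJ J)) (γ : V) (Φ : CJ J) (hΦ : ∀ f, Φ.1 f = psiS fun m => f.1 (e (γ, m)))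
    (hγ : z γ (Sum.inr γ) = true)
    (hD : ∀ Φ' ∈ D, ∃ α, z α (Sum.inr γ) = false ∧
      ∀ f, Φ'.1 f = psiS fun m => f.1 (e (α, m))) : Φ ∉ closure D := by
  classical
  intro hcl
  let h3 : (LV V → Bool) → Bool := fun g => g (Sum.inr (Sum.inl (Sum.inr γ)))
  have hd : ∀ g g', (∀ l ∈ ({Sum.inr (Sum.inl (Sum.inr γ))} : Finset (LV V)), g l = g' l) →
      h3 g = h3 g' := fun g g' hg => hg _ (Finset.mem_singleton_self _)
  let tf : CI I := ⟨fun y => if h3 (phV z T (e.symm y)) = true then 1 else 0,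
    cont_finV he _ h3 hd, hI _ h3 hd⟩
  have tf_app : ∀ x : V × ℕ, tf.1 (e x) = if h3 (phV z T x) = true then 1 else 0 := by
    intro x
    show (if h3 (phV z T (e.symm (e x))) = true then (1 : ℝ) else 0) = _
    rw [Equiv.symm_apply_apply]
  have hopen : IsOpen {Φ' : CJ J | 3 / 2 < Φ'.1 tf} := by
    apply isOpen_lt continuous_const
    exact (continuous_apply tf).comp continuous_subtype_val
  have h1 : Φ.1 tf = 2 := by
    rw [hΦ]
    apply psiS_one
    · have : h3 (phV z T (γ, 1)) = true := by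
        simp [h3, phV, hγ]
      rw [tf_app, if_pos this]
    · intro m hm
      have : ¬ h3 (phV z T (γ, m)) = true := by
        simp [h3, phV, hm]
      rw [tf_app, if_neg this]
  obtain ⟨Φ', hΦ1, hΦ2⟩ := mem_closure_iff.mp hcl _ hopen (by
    show 3 / 2 < Φ.1 tf
    rw [h1]; norm_num)
  obtain ⟨α, hα1, hα2⟩ := hD Φ' hΦ2
  have h2 : Φ'.1 tf = 1 := by
    rw [hα2, psiS_const _ 0 (fun m => ?_)]
    · norm_num
    · have : ¬ h3 (phV z T (α, m)) = true := by
        simp [h3, phV, hα1]
      rw [tf_app, if_neg this]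
  have h5 : 3 / 2 < Φ'.1 tf := hΦ1
  rw [h2] at h5
  norm_num at h5

end

end TK

end Pool.Agent.Lib.MP_44eb6b_gt
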