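import Pool.Agent.Lib.MP_44eb6b_gt.Int.Star
import Pool.Agent.Lib.MP_44eb6b_gt.Int.Top
import Pool.Agent.Lib.MP_44eb6b_gt.Int.Defs
import Pool.Agent.Lib.MP_70f607_gt.G1
import Pool.Agent.Lib.MP_70f607_gt.G2

/-!
The Boolean algebra and the names.
-/

set_option autoImplicit false

namespace SymExt

namespace TK

open Name
open Pool.Agent.Lib.MP_44eb6b_gt Pool.Agent.Lib.MP_44eb6b_gt.TK

/-- The Boolean algebra. -/
abbrev B : Type := RO Pc

/-- Conditions as elements of the Boolean algebra. -/
noncomputable def eB (p : Pc) : B := RO.e p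

theorem dense_eB : DenseMap eB := RO.dense_e

theorem cclosed : CClosed Pc := fun p hp => by
  obtain ⟨q, hq, _⟩ := exists_lim p hp
  exact ⟨q, hq⟩

theorem top_ne : (⊤ : B) ≠ ⊥ := by
  intro h
  refine dense_eB.ne_bot default (le_bot_iff.1 ?_)
  rw [← h]
  exact le_top

/-! ### Injectivity of names -/

section

variable {𝔹 : Type} [CompleteBooleanAlgebra 𝔹]

theorem nrank_ordN (o : Ordinal.{0}) : nrank (ordN o : Name 𝔹) = o := by
  induction o using WellFoundedLT.induction with
  | ind o ih =>
    rw [ordN]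
    change (⨆ i : o.ToType, Order.succ (nrank (ordN i.toOrd.1 : Name 𝔹))) = o
    apply le_antisymm
    · refine Ordinal.iSup_le fun i => ?_
      rw [ih _ i.toOrd.prop]
      exact Order.succ_le_of_lt i.toOrd.prop
    · by_contra hcon
      rw [not_le] at hcon
      have h1 := Ordinal.le_iSup (fun i : o.ToType => Order.succ (nrank (ordN i.toOrd.1 : Name 𝔹)))
        (Ordinal.ToType.mk ⟨_, hcon⟩)
      have h2 : nrank (ordN (Ordinal.ToType.mk ⟨_, hcon⟩).toOrd.1 : Name 𝔹) =
          ⨆ i : o.ToType, Order.succ (nrank (ordN i.toOrd.1 : Name 𝔹)) := by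
        rw [ih _ (Ordinal.ToType.mk ⟨_, hcon⟩).toOrd.prop]
        simp
      simp only [h2] at h1
      exact absurd h1 (not_le.mpr (Order.lt_succ _))

theorem ordN_inj {a b : Ordinal.{0}} (h : (ordN a : Name 𝔹) = ordN b) : a = b := by
  rw [← nrank_ordN (𝔹 := 𝔹) a, h, nrank_ordN]

theorem pairN_inj {a b a' b' : Name 𝔹} (h : pairN a b = pairN a' b') : a = a' ∧ b = b' := by
  have h1 := (Name.mk.inj h).2.1
  have h2 := eq_of_heq h1
  exact ⟨congrFun h2 ⟨true⟩, congrFun h2 ⟨false⟩⟩

theorem opN_inj {x y x' y' : Name 𝔹} (h : opN x y = opN x' y') : x = x' ∧ y = y' := by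
  obtain ⟨h1, h2⟩ := pairN_inj h
  exact ⟨(pairN_inj h1).1, (pairN_inj h2).2⟩

end

/-- The name of the ordinal `α`. -/
noncomputable def wN (α : W) : Name B := ordN (Ordinal.ToType.toOrd α).1

theorem wN_inj {α β : W} (h : wN α = wN β) : α = β := by
  have h1 := ordN_inj h
  exact Ordinal.ToType.mk.symm.injective (Subtype.ext h1)

/-- The name of the sequence `F`. -/
noncomputable def seqN (F : ℕ → Name B) : Name B :=
  Name.mk ℕ (fun n => opN (natN n) (F n)) fun _ => ⊤

theorem seqN_inj {F F' : ℕ → Name B} (h : seqN F = seqN F') : F = F' := by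
  have h1 := (Name.mk.inj h).2.1
  have h2 := eq_of_heq h1
  funext n
  exact (opN_inj (congrFun h2 n)).2

open Classical in
/-- Components of an ordered pair. -/
noncomputable def unop (c : Bool) (x : Name B) : Name B :=
  if h : ∃ p : Name B × Name B, x = opN p.1 p.2 then cond c h.choose.1 h.choose.2 else empN

theorem unop_opN (c : Bool) (x y : Name B) : unop c (opN x y) = cond c x y := by
  have h : ∃ p : Name B × Name B, opN x y = opN p.1 p.2 := ⟨(x, y), rfl⟩
  rw [unop, dif_pos h]
  obtain ⟨h1, h2⟩ := opN_inj h.choose_spec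
  cases c
  · exact h2.symm
  · exact h1.symm

open Classical in
/-- The components of the name of a sequence. -/
noncomputable def unseq (n : ℕ) (z : Name B) : Name B :=
  if h : ∃ F, z = seqN F then h.choose n else empN

theorem unseq_seqN (n : ℕ) (F : ℕ → Name B) : unseq n (seqN F) = F n := by
  have h : ∃ F', seqN F = seqN F' := ⟨F, rfl⟩
  rw [unseq, dif_pos h]
  exact congrFun (seqN_inj h.choose_spec).symm n

open Classical in
/-- The left inverse of an injective function into names. -/
noncomputable def dc {A : Type} [Inhabited A] (f : A → Name B) (z : Name B) : A :=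
  if h : ∃ a, z = f a then h.choose else default

theorem dc_eq {A : Type} [Inhabited A] {f : A → Name B} (hf : ∀ a b, f a = f b → a = b) (a : A) :
    dc f (f a) = a := by
  have h : ∃ b, f a = f b := ⟨a, rfl⟩
  rw [dc, dif_pos h]
  exact (hf _ _ h.choose_spec).symm

/-! ### The space -/

/-- The index is below `δ`. -/
def lbel (l : LV W) (δ : W) : Prop :=
  match l with
  | Sum.inl _ => True
  | Sum.inr (Sum.inl κ) => bel κ δ
  | Sum.inr (Sum.inr β) => β < δ

theorem ph_congr {Z Z' : W → K → Bool} {δ : W}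
    (h : ∀ α < δ, ∀ κ, bel κ δ → Z α κ = Z' α κ) {x : W × ℕ} (hx : x.1 < δ) {l : LV W}
    (hl : lbel l δ) : phV Z T x l = phV Z' T x l := by
  rcases l with (n | n) | (κ | β)
  · exact h _ hx _ trivial
  · rfl
  · simp only [phV]
    rw [h _ hx _ hl]
  · have h1 : ∀ n : ℕ, Z x.1 (Sum.inl n) = Z' x.1 (Sum.inl n) := fun n => h _ hx _ trivial
    have h2 : ∀ n : ℕ, Z β (Sum.inl n) = Z' β (Sum.inl n) := fun n => h _ hl _ trivial
    simp only [phV]
    congr 1
    simp only [h1, h2]

theorem ph_agree {q p : Pc} (h : q ≤ p) {x : W × ℕ} (hx : x.1 < p.d) {l : LV W}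
    (hl : lbel l p.d) : phV (zm q.g) T x l = phV (zm p.g) T x l :=
  ph_congr (fun _ hα _ hκ => Pc.agree h hα hκ) hx hl

theorem lbel_mono {l : LV W} {δ δ' : W} (h : δ ≤ δ') (hl : lbel l δ) : lbel l δ' := by
  rcases l with _ | (κ | β)
  · trivial
  · exact rk_bel.mono _ _ _ h hl
  · exact lt_of_lt_of_le hl h

/-- The value of: the point `x` is in the basic clopen set `l`. -/
noncomputable def bph (x : W × ℕ) (l : LV W) : B :=
  ⨆ p : {p : Pc // x.1 < p.d ∧ lbel l p.d ∧ phV (zm p.g) T x l = true}, eB p.1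

theorem bph_pos {x : W × ℕ} {l : LV W} {p : Pc} (h1 : x.1 < p.d) (h2 : lbel l p.d)
    (h3 : phV (zm p.g) T x l = true) : eB p ≤ bph x l :=
  le_iSup (fun p : {p : Pc // x.1 < p.d ∧ lbel l p.d ∧ phV (zm p.g) T x l = true} => eB p.1)
    ⟨p, h1, h2, h3⟩

/-- A condition that is incompatible with the conditions of a family. -/
theorem le_compl_of {S : Pc → Prop} {p : Pc} (h : ∀ q r, S q → r ≤ p → r ≤ q → False) :
    eB p ≤ (⨆ q : {q : Pc // S q}, eB q.1)ᶜ := by
  rw [le_compl_iff_disjoint_right, disjoint_iff, inf_iSup_eq]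
  refine le_antisymm (iSup_le fun q => ?_) bot_le
  by_contra hcon
  have h1 : eB p ⊓ eB q.1 ≠ ⊥ := fun h2 => hcon (by rw [h2])
  obtain ⟨r, hr1, hr2⟩ := dense_eB.compat _ _ h1
  exact h q.1 r q.2 hr1 hr2

theorem bph_neg {x : W × ℕ} {l : LV W} {p : Pc} (h1 : x.1 < p.d) (h2 : lbel l p.d)
    (h3 : phV (zm p.g) T x l = false) : eB p ≤ (bph x l)ᶜ := by
  refine le_compl_of fun q r hq hrp hrq => ?_
  have e1 := ph_agree hrp h1 h2
  have e2 := ph_agree hrq hq.1 hq.2.1
  rw [hq.2.2] at e2
  rw [h3, e2] at e1
  exact absurd e1 (by simp)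

/-- Names of the indices. -/
noncomputable def lN : LV W → Name B
  | Sum.inl (Sum.inl n) => opN (natN 0) (natN n)
  | Sum.inl (Sum.inr n) => opN (natN 1) (natN n)
  | Sum.inr (Sum.inl (Sum.inl n)) => opN (natN 2) (natN n)
  | Sum.inr (Sum.inl (Sum.inr β)) => opN (natN 3) (wN β)
  | Sum.inr (Sum.inr β) => opN (natN 4) (wN β)

/-- Names of the points. -/
noncomputable def ptX (x : W × ℕ) : Name B := Name.mk (LV W) lN (bph x)

theorem ptX_inj {x y : W × ℕ} (h : ptX x = ptX y) : x = y := by
  have h1 : bph x = bph y := eq_of_heq (Name.mk.inj h).2.2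
  let p : Pc := up (up default (nx x.1)) (nx y.1)
  have hx : x.1 < p.d := (lt_nx _).trans_le ((le_up _ _).trans (up_le _ _).1)
  have hy : y.1 < p.d := (lt_nx _).trans_le (le_up _ _)
  have key : ∀ l, lbel l p.d → phV (zm p.g) T x l = phV (zm p.g) T y l := by
    intro l hl
    by_contra hne
    have h2 := congrFun h1 l
    rcases Bool.eq_false_or_eq_true (phV (zm p.g) T x l) with h3 | h3
    · have h4 : phV (zm p.g) T y l = false := by
        rw [h3] at hne
        cases h : phV (zm p.g) T y l
        · rfl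
        · exact absurd h.symm hne
      have h5 := bph_pos hx hl h3
      have h6 := bph_neg hy hl h4
      rw [h2] at h5
      exact dense_eB.not_both h5 h6
    · have h4 : phV (zm p.g) T y l = true := by
        rw [h3] at hne
        cases h : phV (zm p.g) T y l
        · exact absurd h.symm hne
        · rfl
      have h5 := bph_pos hy hl h4
      have h6 := bph_neg hx hl h3
      rw [h2] at h6
      exact dense_eB.not_both h5 h6
  have e1 : x.1 = y.1 := by
    by_contra hne
    obtain ⟨n, hn⟩ := zm_ne p.g hne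
    exact hn (key (Sum.inl (Sum.inl n)) trivial)
  have e2 : x.2 = y.2 := by
    rcases h2 : x.2 with _ | m
    · rcases h3 : y.2 with _ | n
      · rfl
      · have := key (Sum.inl (Sum.inr n)) trivial
        simp [phV, h2, h3] at this
    · have := key (Sum.inl (Sum.inr m)) trivial
      simp only [phV, h2] at this
      have h4 : y.2 = m + 1 := of_decide_eq_true (by rw [← this]; simp)
      exact h4.symm
  exact Prod.ext e1 e2

/-- The name of the space. -/
noncomputable def XN : Name B := Name.mk (W × ℕ) ptX fun _ => ⊤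

/-- The name of a sequence of points. -/
noncomputable def sN (x : ℕ → W × ℕ) : Name B := seqN fun n => ptX (x n)

theorem sN_inj {x y : ℕ → W × ℕ} (h : sN x = sN y) : x = y := by
  have h1 := seqN_inj h
  funext n
  exact ptX_inj (congrFun h1 n)

/-- The name of the sequence of the points with first coordinate `α`. -/
noncomputable def pN (α : W) : Name B := sN fun m => (α, m)

/-- The name of the set of these sequences for `α` in `T`. -/
noncomputable def PPN : Name B :=
  Name.mk {α : W // T α} (fun α => opN (wN α.1) (pN α.1)) fun _ => ⊤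

/-! ### Reals -/

open Classical in
/-- The name of a set of natural numbers. -/
noncomputable def aN (s : Set ℕ) : Name B := Name.mk ℕ natN fun n => if n ∈ s then ⊤ else ⊥

theorem aN_inj {s t : Set ℕ} (h : aN s = aN t) : s = t := by
  have h1 := eq_of_heq (Name.mk.inj h).2.2
  ext n
  have h2 := congrFun h1 n
  by_cases h3 : n ∈ s <;> by_cases h4 : n ∈ t
  · exact ⟨fun _ => h4, fun _ => h3⟩
  · simp only [h3, h4, if_true, if_false] at h2
    exact absurd h2 top_ne
  · simp only [h3, h4, if_true, if_false] at h2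
    exact absurd h2.symm top_ne
  · exact ⟨fun h => absurd h h3, fun h => absurd h h4⟩

/-- The lower cut of a real. -/
def cutS (r : ℝ) : Set ℕ := {n | ∃ q : ℚ, (q : ℝ) < r ∧ n = Encodable.encode q}

theorem cutS_mem (r : ℝ) (q : ℚ) : Encodable.encode q ∈ cutS r ↔ (q : ℝ) < r := by
  constructor
  · rintro ⟨q', h1, h2⟩
    rwa [Encodable.encode_injective h2]
  · intro h
    exact ⟨q, h, rfl⟩

theorem cutS_inj {r s : ℝ} (h : cutS r = cutS s) : r = s := by
  rcases lt_trichotomy r s with h1 | h1 | h1
  · obtain ⟨q, h2, h3⟩ := exists_rat_btwn h1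
    have := (cutS_mem s q).mpr h3
    rw [← h, cutS_mem] at this
    exact absurd this (not_lt.mpr h2.le)
  · exact h1
  · obtain ⟨q, h2, h3⟩ := exists_rat_btwn h1
    have := (cutS_mem r q).mpr h3
    rw [h, cutS_mem] at this
    exact absurd this (not_lt.mpr h2.le)

/-- The name of a real. -/
noncomputable def rN (r : ℝ) : Name B := aN (cutS r)

theorem rN_inj {r s : ℝ} (h : rN r = rN s) : r = s := cutS_inj (aN_inj h)

/-- The name of the set of the reals. -/
noncomputable def RN : Name B := Name.mk ℝ rN fun _ => ⊤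

/-- The name of the order of the rational numbers. -/
noncomputable def LtN : Name B := Name.mk {q : ℚ × ℚ // q.1 < q.2}
  (fun q => opN (natN (Encodable.encode q.1.1)) (natN (Encodable.encode q.1.2))) fun _ => ⊤

/-- The name of the functional on sequences. -/
noncomputable def PsN : Name B := Name.mk (ℕ → ℝ)
  (fun u => opN (seqN fun n => rN (u n)) (rN (psiS u))) fun _ => ⊤

/-- Names of finite sets. -/
noncomputable def liN : List (LV W) → Name B
  | [] => empN
  | l :: t => insN (lN l) (liN t)

/-- The name of the set of the finite sets of indices. -/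
noncomputable def FinN : Name B := Name.mk (List (LV W)) liN fun _ => ⊤

theorem exists_nextT (s : ℕ → W) : ∃ γ, T γ ∧ ∀ n, s n < γ := by
  obtain ⟨a, ha⟩ := bdd_ctb (Set.range s) (Set.countable_range s)
  obtain ⟨γ, h1, h2⟩ := T_ub a
  exact ⟨γ, h2, fun n => (ha _ ⟨n, rfl⟩).trans_le h1⟩

/-- An element of `T` above the sequence. -/
noncomputable def nextT (s : ℕ → W) : W := (exists_nextT s).choose

theorem T_nextT (s : ℕ → W) : T (nextT s) := (exists_nextT s).choose_spec.1

theorem lt_nextT (s : ℕ → W) (n : ℕ) : s n < nextT s := (exists_nextT s).choose_spec.2 n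

end TK

end SymExt
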