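import Pool.Agent.Lib.MP_44eb6b_gt.Int.Boo

/-!
The generic pair.
-/

set_option autoImplicit false

namespace SymExt

namespace TK

open Name
open Pool.Agent.Lib.MP_44eb6b_gt Pool.Agent.Lib.MP_44eb6b_gt.TK

/-- A finite set of coordinates. -/
noncomputable def kk (n : ℕ) (bs : List W) : Finset K :=
  open Classical in
  (Finset.range n).image Sum.inl ∪ bs.toFinset.image Sum.inr

/-- The ordinal of a name. -/
noncomputable def unw : Name B → W := dc wN

theorem unw_wN (α : W) : unw (wN α) = α := dc_eq (fun _ _ => wN_inj) α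

/-- The point of a name. -/
noncomputable def unpt : Name B → W × ℕ := dc ptX

theorem unpt_ptX (x : W × ℕ) : unpt (ptX x) = x := dc_eq (fun _ _ => ptX_inj) x

/-- The sequence of points of a name. -/
noncomputable def uns (z : Name B) : ℕ → W × ℕ := fun n => unpt (unseq n z)

theorem uns_sN (x : ℕ → W × ℕ) : uns (sN x) = x := by
  funext n
  show unpt (unseq n (seqN fun n => ptX (x n))) = x n
  rw [unseq_seqN, unpt_ptX]

/-- The real of a name. -/
noncomputable def unr : Name B → ℝ := dc rN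

theorem unr_rN (r : ℝ) : unr (rN r) = r := dc_eq (fun _ _ => rN_inj) r

/-- The additional operations. -/
noncomputable def opM : ℕ × ℕ → List (Name B) → Name B
  | (0, _), l => unop true (l.getD 0 empN)
  | (1, _), l => unop false (l.getD 0 empN)
  | (2, n), l => unseq n (l.getD 0 empN)
  | (3, m), l => ptX (unw (l.getD 0 empN), m)
  | (4, _), l => wN (unpt (l.getD 0 empN)).1
  | (5, _), _ => XN
  | (6, _), _ => PPN
  | (7, _), _ => RN
  | (8, _), _ => LtN
  | (9, _), _ => PsN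
  | (10, _), _ => FinN
  | (11, _), l => insN (l.getD 0 empN) (l.getD 1 empN)
  | (12, _), _ => wN default
  | (13, _), l => wN (nextT fun n => unw (unseq n (l.getD 0 empN)))
  | (14, _), l => rN (psiS fun n => unr (unseq n (l.getD 0 empN)))
  | (15, _), l => pN (unw (l.getD 0 empN))
  | (16, _), l => acN (l.getD 0 empN)
  | (17, _), l => acE (l.getD 0 empN) (l.getD 1 empN)
  | (18, _), _ => rN 0
  | (19, _), _ => rN 1
  | (_, _), _ => empN

/-- The additional requirements. -/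
noncomputable def reqM (r : ℕ × ℕ × ℕ) (l : List (Name B)) : Set (B × List (Name B)) :=
  let k := r.2.1
  let n := r.2.2
  let a := l.getD 0 empN
  let b := l.getD 1 empN
  match r.1 with
  | 0 => fam (fun p : {p : Pc // unw a < p.d} => eB p.1) fun _ => []
  | 1 => fam (fun x : ℕ → W × ℕ => ⨅ n, bmem (opN (natN n) (ptX (x n))) a) fun x => [sN x]
  | 2 => fam (fun n => (⨆ y, bmem (opN (natN n) (ptX y)) a)ᶜ) fun _ : ℕ => []
  | 3 => fam (fun u : ℕ → ℝ => ⨅ n, bmem (opN (natN n) (rN (u n))) a)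
      fun u => [seqN fun n => rN (u n)]
  | 4 => fam (fun n => (⨆ y, bmem (opN (natN n) (rN y)) a)ᶜ) fun _ : ℕ => []
  | 5 => fam (fun s : ℕ → W => ⨅ n, ((⨆ α, bmem (opN (natN n) (wN α)) a) ⇨
      bmem (opN (natN n) (wN (s n))) a)) fun s => [seqN fun n => wN (s n)]
  | 6 => fam (fun s : Set ℕ => subB a s) fun s => [aN s]
  | 7 => fam (fun y => bF a y ⊓ nearB k (kk n ((l.drop 2).map unw)) (uns b) y) fun y => [sN y]
  | 8 => fam (fun x => (limB a x ⇨ bF a x)ᶜ) fun x => [sN x]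
  | 9 => fam (fun en => denseB a en) fun en => [seqN fun i => sN (en i)]
  | 10 => fam (fun i => bF a (uns (unseq i b)) ⊓
      nearB k (kk n ((l.drop 3).map unw)) (uns (l.getD 2 empN)) (uns (unseq i b)))
      fun _ : ℕ => []
  | _ => ∅

/-- The properties of the generic pair that are used. -/
structure GP (C : Set (Name B)) (U : Set B) : Prop where
  unop : ∀ x y : Name B, opN x y ∈ C → x ∈ C ∧ y ∈ C
  useq : ∀ F : ℕ → Name B, seqN F ∈ C → ∀ n, F n ∈ C
  pt : ∀ α m, wN α ∈ C → ptX (α, m) ∈ C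
  unpt : ∀ x, ptX x ∈ C → wN x.1 ∈ C
  cX : XN ∈ C
  cPP : PPN ∈ C
  cR : RN ∈ C
  cLt : LtN ∈ C
  cPs : PsN ∈ C
  cFin : FinN ∈ C
  ins : ∀ a ∈ C, ∀ x ∈ C, insN a x ∈ C
  w0 : wN default ∈ C
  nxt : ∀ s : ℕ → W, (seqN fun n => wN (s n)) ∈ C → wN (nextT s) ∈ C
  psi : ∀ u : ℕ → ℝ, (seqN fun n => rN (u n)) ∈ C → rN (psiS u) ∈ C
  pn : ∀ α, wN α ∈ C → pN α ∈ C
  r0 : rN 0 ∈ C
  r1 : rN 1 ∈ C
  ht : ∀ α, wN α ∈ C → ∃ p, eB p ∈ U ∧ α < p.d
  sqx : ∀ τ ∈ C, (∀ n, (⨆ y, bmem (opN (natN n) (ptX y)) τ) ∈ U) →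
    ∃ x : ℕ → W × ℕ, sN x ∈ C ∧ ∀ n, bmem (opN (natN n) (ptX (x n))) τ ∈ U
  sqr : ∀ τ ∈ C, (∀ n, (⨆ y, bmem (opN (natN n) (rN y)) τ) ∈ U) →
    ∃ u : ℕ → ℝ, (seqN fun n => rN (u n)) ∈ C ∧ ∀ n, bmem (opN (natN n) (rN (u n))) τ ∈ U
  sqw : ∀ τ ∈ C, ∃ s : ℕ → W, (seqN fun n => wN (s n)) ∈ C ∧
    ∀ n, (⨆ α, bmem (opN (natN n) (wN α)) τ) ∈ U → bmem (opN (natN n) (wN (s n))) τ ∈ U
  sub : ∀ τ ∈ C, ∃ s : Set ℕ, aN s ∈ C ∧ ∀ n, (n ∈ s ↔ bmem (natN n) τ ∈ U)
  lim : ∀ φ ∈ C, ∀ x, sN x ∈ C → ∀ (k n : ℕ) (bs : List W), (∀ β ∈ bs, wN β ∈ C) →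
    (⨆ y, bF φ y ⊓ nearB k (kk n bs) x y) ∈ U →
    ∃ y, sN y ∈ C ∧ bF φ y ∈ U ∧ nearB k (kk n bs) x y ∈ U
  clo : ∀ φ ∈ C, (∀ x, sN x ∈ C → limB φ x ∈ U → bF φ x ∈ U) → closedB φ ∈ U
  dns : ∀ φ ∈ C, closedB φ ∈ U → ∃ en : ℕ → ℕ → W × ℕ, (seqN fun i => sN (en i)) ∈ C ∧
    denseB φ en ∈ U
  wit : ∀ φ ∈ C, ∀ en : ℕ → ℕ → W × ℕ, (seqN fun i => sN (en i)) ∈ C → ∀ x, sN x ∈ C →
    ∀ (k n : ℕ) (bs : List W), (∀ β ∈ bs, wN β ∈ C) →
    (⨆ i, bF φ (en i) ⊓ nearB k (kk n bs) x (en i)) ∈ U →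
    ∃ i, bF φ (en i) ∈ U ∧ nearB k (kk n bs) x (en i) ∈ U

/-- A universal statement. -/
theorem all_mem {C : Set (Name B)} {U : Set B} {ι : Sort*} {f : ι → B} {l : ι → List (Name B)}
    (hr : Met C U (fam (fun i => (f i)ᶜ) l))
    (hb : ∀ i, (∀ x ∈ l i, x ∈ C) → (f i)ᶜ ∉ U) : (⨅ i, f i) ∈ U := by
  rcases hr.dec with h1 | h1
  · exfalso
    obtain ⟨i, h2, h3⟩ := hr.wit h1
    exact hb i h3 h2
  · rw [compl_iSup] at h1
    simp only [compl_compl] at h1
    exact h1

/-- The generic pair. -/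
theorem exists_pair : ∃ (C : Set (Name B)) (U : Set B), Good (triv B) C U ∧ GP C U ∧
    (∀ x ∈ C, acN x ∈ C) ∧ ∀ x ∈ C, ∀ y ∈ C, acE x y ∈ C := by
  obtain ⟨C, U, h, _, hop, hreq⟩ := exists_good (triv B) opM reqM ⊤ top_ne
  have hmem : ∀ {a : Name B}, a ∈ C → ∀ x ∈ [a], x ∈ C := by
    intro a ha x hx
    rw [List.mem_singleton] at hx
    rwa [hx]
  have hmem2 : ∀ {a b : Name B}, a ∈ C → b ∈ C → ∀ x ∈ [a, b], x ∈ C := by
    intro a b ha hb x hx
    simp only [List.mem_cons, List.not_mem_nil, or_false] at hx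
    rcases hx with rfl | rfl
    · exact ha
    · exact hb
  have hcons : ∀ {a : Name B} {l : List (Name B)}, a ∈ C → (∀ x ∈ l, x ∈ C) →
      ∀ x ∈ a :: l, x ∈ C := by
    intro a l ha hl x hx
    rcases List.mem_cons.1 hx with rfl | hx
    · exact ha
    · exact hl x hx
  have hnil : ∀ x ∈ ([] : List (Name B)), x ∈ C := by simp
  have hunop : ∀ x y : Name B, opN x y ∈ C → x ∈ C ∧ y ∈ C := fun x y hxy => by
    have e1 := hop (0, 0) [opN x y] (hmem hxy)
    have e2 := hop (1, 0) [opN x y] (hmem hxy)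
    change TK.unop true (opN x y) ∈ C at e1
    change TK.unop false (opN x y) ∈ C at e2
    rw [unop_opN] at e1 e2
    exact ⟨e1, e2⟩
  have hmw : ∀ bs : List W, (bs.map wN).map unw = bs := by
    intro bs
    rw [List.map_map]
    have : unw ∘ wN = id := funext fun α => unw_wN α
    rw [this, List.map_id]
  have hbs : ∀ bs : List W, (∀ β ∈ bs, wN β ∈ C) → ∀ x ∈ bs.map wN, x ∈ C := by
    intro bs hbs x hx
    obtain ⟨β, hβ, rfl⟩ := List.mem_map.1 hx
    exact hbs β hβ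
  refine ⟨C, U, h, ?_, fun x hx => hop (16, 0) [x] (hmem hx),
    fun x hx y hy => hop (17, 0) [x, y] (hmem2 hx hy)⟩
  exact
    { unop := hunop
      useq := fun F hF n => by
        have e1 := hop (2, n) [seqN F] (hmem hF)
        change unseq n (seqN F) ∈ C at e1
        rwa [unseq_seqN] at e1
      pt := fun α m hα => by
        have e1 := hop (3, m) [wN α] (hmem hα)
        change ptX (unw (wN α), m) ∈ C at e1
        rwa [unw_wN] at e1
      unpt := fun x hx => by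
        have e1 := hop (4, 0) [ptX x] (hmem hx)
        change wN (TK.unpt (ptX x)).1 ∈ C at e1
        rwa [unpt_ptX] at e1
      cX := hop (5, 0) [] hnil
      cPP := hop (6, 0) [] hnil
      cR := hop (7, 0) [] hnil
      cLt := hop (8, 0) [] hnil
      cPs := hop (9, 0) [] hnil
      cFin := hop (10, 0) [] hnil
      ins := fun a ha x hx => hop (11, 0) [a, x] (hmem2 ha hx)
      w0 := hop (12, 0) [] hnil
      nxt := fun s hs => by
        have e1 := hop (13, 0) [seqN fun n => wN (s n)] (hmem hs)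
        change wN (nextT fun n => unw (unseq n (seqN fun n => wN (s n)))) ∈ C at e1
        simpa only [unseq_seqN, unw_wN] using e1
      psi := fun u hu => by
        have e1 := hop (14, 0) [seqN fun n => rN (u n)] (hmem hu)
        change rN (psiS fun n => unr (unseq n (seqN fun n => rN (u n)))) ∈ C at e1
        simpa only [unseq_seqN, unr_rN] using e1
      pn := fun α hα => by
        have e1 := hop (15, 0) [wN α] (hmem hα)
        change pN (unw (wN α)) ∈ C at e1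
        rwa [unw_wN] at e1
      r0 := hop (18, 0) [] hnil
      r1 := hop (19, 0) [] hnil
      ht := fun α hα => by
        obtain ⟨p, h1, _⟩ := (hreq (0, 0, 0) [wN α] (hmem hα)).wit (by
          change (⨆ p : {p : Pc // unw (wN α) < p.d}, eB p.1) ∈ U
          rw [ht_top]
          exact h.top)
        have h2 : unw (wN α) < p.1.d := p.2
        rw [unw_wN] at h2
        exact ⟨p.1, h1, h2⟩
      sqx := fun τ hτ hk => by
        have h1 : (⨅ n, ⨆ y, bmem (opN (natN n) (ptX y)) τ) ∈ U := by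
          refine all_mem (l := fun _ : ℕ => []) (hreq (2, 0, 0) [τ] (hmem hτ)) fun k _ => ?_
          exact h.not_compl (hk k)
        have h2 : (⨆ x : ℕ → W × ℕ, ⨅ n, bmem (opN (natN n) (ptX (x n))) τ) ∈ U :=
          h.up _ h1 _ (seq_le _)
        obtain ⟨x, h3, h4⟩ := (hreq (1, 0, 0) [τ] (hmem hτ)).wit h2
        exact ⟨x, h4 _ (by simp), fun n => h.up _ h3 _ (iInf_le _ n)⟩
      sqr := fun τ hτ hk => by
        have h1 : (⨅ n, ⨆ y, bmem (opN (natN n) (rN y)) τ) ∈ U := by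
          refine all_mem (l := fun _ : ℕ => []) (hreq (4, 0, 0) [τ] (hmem hτ)) fun k _ => ?_
          exact h.not_compl (hk k)
        have h2 : (⨆ x : ℕ → ℝ, ⨅ n, bmem (opN (natN n) (rN (x n))) τ) ∈ U :=
          h.up _ h1 _ (seq_le _)
        obtain ⟨x, h3, h4⟩ := (hreq (3, 0, 0) [τ] (hmem hτ)).wit h2
        exact ⟨x, h4 _ (by simp), fun n => h.up _ h3 _ (iInf_le _ n)⟩
      sqw := fun τ hτ => by
        obtain ⟨s, h3, h4⟩ := (hreq (5, 0, 0) [τ] (hmem hτ)).wit (by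
          change (⨆ s : ℕ → W, ⨅ n, ((⨆ α, bmem (opN (natN n) (wN α)) τ) ⇨
            bmem (opN (natN n) (wN (s n))) τ)) ∈ U
          rw [part_top (fun n α => bmem (opN (natN n) (wN α)) τ)]
          exact h.top)
        refine ⟨s, h4 _ (by simp), fun n hn => ?_⟩
        exact h.mp (h.up _ h3 _ (iInf_le _ n)) hn
      sub := fun τ hτ => by
        obtain ⟨s, h3, h4⟩ := (hreq (6, 0, 0) [τ] (hmem hτ)).wit (by
          change (⨆ s : Set ℕ, subB τ s) ∈ U
          rw [sub_top]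
          exact h.top)
        refine ⟨s, h4 _ (by simp), fun n => ?_⟩
        have h5 := h.up _ h3 _ (iInf_le _ n)
        by_cases hn : n ∈ s
        · rw [if_pos hn] at h5
          exact ⟨fun _ => h5, fun _ => hn⟩
        · rw [if_neg hn] at h5
          exact ⟨fun h6 => absurd h6 hn, fun h6 => absurd h5 (h.not_compl h6)⟩
      lim := fun φ hφ x hx k n bs hb hU => by
        have hl : ∀ z ∈ φ :: sN x :: bs.map wN, z ∈ C := hcons hφ (hcons hx (hbs bs hb))
        obtain ⟨y, h3, h4⟩ := (hreq (7, k, n) _ hl).wit (by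
          change (⨆ y, bF φ y ⊓ nearB k (kk n ((bs.map wN).map unw)) (uns (sN x)) y) ∈ U
          rw [hmw, uns_sN]
          exact hU)
        change bF φ y ⊓ nearB k (kk n ((bs.map wN).map unw)) (uns (sN x)) y ∈ U at h3
        rw [hmw, uns_sN, h.inf_iff] at h3
        exact ⟨y, h4 _ (by simp), h3.1, h3.2⟩
      clo := fun φ hφ hk => by
        refine all_mem (l := fun x => [sN x]) (hreq (8, 0, 0) [φ] (hmem hφ)) fun x hx h1 => ?_
        rw [compl_himp, sdiff_eq, h.inf_iff] at h1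
        exact h.not_compl (hk x (hx _ (by simp)) h1.1) h1.2
      dns := fun φ hφ hc => by
        obtain ⟨en, h3, h4⟩ := (hreq (9, 0, 0) [φ] (hmem hφ)).wit
          (h.up _ hc _ (closed_le φ))
        exact ⟨en, h4 _ (by simp), h3⟩
      wit := fun φ hφ en hen x hx k n bs hb hU => by
        have hl : ∀ z ∈ φ :: (seqN fun i => sN (en i)) :: sN x :: bs.map wN, z ∈ C :=
          hcons hφ (hcons hen (hcons hx (hbs bs hb)))
        have he : ∀ i, uns (unseq i (seqN fun i => sN (en i))) = en i := fun i => by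
          rw [unseq_seqN, uns_sN]
        obtain ⟨i, h3, h4⟩ := (hreq (10, k, n) _ hl).wit (by
          change (⨆ i, bF φ (uns (unseq i (seqN fun i => sN (en i)))) ⊓
            nearB k (kk n ((bs.map wN).map unw)) (uns (sN x))
              (uns (unseq i (seqN fun i => sN (en i))))) ∈ U
          simp only [hmw, uns_sN, he]
          exact hU)
        change bF φ (uns (unseq i (seqN fun i => sN (en i)))) ⊓
            nearB k (kk n ((bs.map wN).map unw)) (uns (sN x))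
              (uns (unseq i (seqN fun i => sN (en i)))) ∈ U at h3
        rw [hmw, uns_sN, he, h.inf_iff] at h3
        exact ⟨i, h3.1, h3.2⟩ }

end TK

end SymExt
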