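import Pool.Agent.Lib.MP_44eb6b_gt.Int.Mat

/-!
The conditions: initial segments of sequences of requirements. Closing off with descending
conditions.
-/

set_option autoImplicit false

namespace Pool.Agent.Lib.MP_44eb6b_gt

namespace TK

open Set Cardinal

/-- Conditions. Only the part of the sequence below the height is used. -/
structure Pc where
  /-- the height -/
  d : W
  /-- the requirements -/
  g : W → E

instance : Preorder Pc where
  le q p := p.d ≤ q.d ∧ ∀ η < p.d, q.g η = p.g η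
  le_refl p := ⟨le_rfl, fun _ _ => rfl⟩
  le_trans r q p h1 h2 := ⟨h2.1.trans h1.1,
    fun η hη => (h1.2 η (hη.trans_le h2.1)).trans (h2.2 η hη)⟩

noncomputable instance : Inhabited Pc := ⟨⟨default, default⟩⟩

theorem Pc.agree {q p : Pc} (h : q ≤ p) {α : W} (hα : α < p.d) {κ : K} (hκ : bel κ p.d) :
    zm q.g α κ = zm p.g α κ := zm_congr h.2 hα hκ

/-- A condition of larger height. -/
noncomputable def up (p : Pc) (δ : W) : Pc := ⟨max p.d δ, p.g⟩

theorem up_le (p : Pc) (δ : W) : up p δ ≤ p := ⟨le_max_left _ _, fun _ _ => rfl⟩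

theorem le_up (p : Pc) (δ : W) : δ ≤ (up p δ).d := le_max_right _ _

/-- A larger ordinal. -/
noncomputable def nx (a : W) : W := (bdd_ctb' ∅ Set.countable_empty a).choose

theorem lt_nx (a : W) : a < nx a := (bdd_ctb' ∅ Set.countable_empty a).choose_spec.1

/-- Put the requirement `e` at the ordinal `β`. -/
noncomputable def putAt (p : Pc) (β : W) (e : E) : Pc := ⟨nx β, Function.update p.g β e⟩

theorem putAt_le {p : Pc} {β : W} (h : p.d ≤ β) (e : E) : putAt p β e ≤ p :=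
  ⟨h.trans (lt_nx β).le, fun _ hη => Function.update_of_ne (hη.trans_le h).ne _ _⟩

theorem putAt_at {p r : Pc} {β : W} {e : E} (h : r ≤ putAt p β e) : r.g β = e := by
  rw [h.2 β (lt_nx β)]
  exact Function.update_self _ _ _

/-- Put a requirement at the height. -/
noncomputable def put (p : Pc) (e : E) : Pc := putAt p p.d e

theorem put_le (p : Pc) (e : E) : put p e ≤ p := putAt_le le_rfl e

theorem put_at {p r : Pc} {e : E} (h : r ≤ put p e) : r.g p.d = e := putAt_at h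

theorem lt_put (p : Pc) (e : E) : p.d < (put p e).d := lt_nx _

/-- Descending sequences have lower bounds. -/
theorem exists_lim (p : ℕ → Pc) (hp : ∀ n, p (n + 1) ≤ p n) :
    ∃ q, (∀ n, q ≤ p n) ∧ IsLUB (Set.range fun n => (p n).d) q.d := by
  classical
  have hanti : ∀ m n, m ≤ n → p n ≤ p m := by
    intro m n h
    induction n, h using Nat.le_induction with
    | base => exact le_refl _
    | succ n _ ih => exact le_trans (hp n) ih
  obtain ⟨δ, hδ⟩ := exists_lub (Set.range fun n => (p n).d) (Set.countable_range _)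
  let g : W → E := fun η => if h : ∃ n, η < (p n).d then (p (Nat.find h)).g η else default
  refine ⟨⟨δ, g⟩, fun n => ⟨hδ.1 ⟨n, rfl⟩, ?_⟩, hδ⟩
  intro η hη
  have h : ∃ n, η < (p n).d := ⟨n, hη⟩
  have h1 : g η = (p (Nat.find h)).g η := dif_pos h
  show g η = (p n).g η
  rw [h1]
  exact ((hanti _ _ (Nat.find_min' h hη)).2 η (Nat.find_spec h)).symm

/-- Countably many tasks. -/
theorem ctb_tasks {H O : Type} (R : Pc → H → O → Prop)
    (hm : ∀ q q' h o, q' ≤ q → R q h o → R q' h o) (bd : O → W) (p : Pc)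
    (hden : ∀ q ≤ p, ∀ h, ∃ q' ≤ q, ∃ o, R q' h o) (A : Set H) (hA : A.Countable) :
    ∃ q ≤ p, ∀ h ∈ A, ∃ o, R q h o ∧ bd o ≤ q.d := by
  rcases A.eq_empty_or_nonempty with rfl | hne
  · exact ⟨p, le_refl _, by simp⟩
  obtain ⟨en, rfl⟩ := hA.exists_eq_range hne
  have hone : ∀ (q : {q : Pc // q ≤ p}) (h : H), ∃ q' : {q : Pc // q ≤ p}, q'.1 ≤ q.1 ∧
      ∃ o, R q'.1 h o ∧ bd o ≤ q'.1.d := by
    rintro ⟨q, hq⟩ h
    obtain ⟨q', hq', o, ho⟩ := hden q hq h
    exact ⟨⟨up q' (bd o), le_trans (up_le _ _) (le_trans hq' hq)⟩, le_trans (up_le _ _) hq',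
      o, hm _ _ _ _ (up_le _ _) ho, le_up _ _⟩
  choose f hf1 hf2 using hone
  let s : ℕ → {q : Pc // q ≤ p} := fun n => Nat.rec ⟨p, le_refl _⟩ (fun n q => f q (en n)) n
  have hs : ∀ n, s (n + 1) = f (s n) (en n) := fun n => rfl
  obtain ⟨q, hq, _⟩ := exists_lim (fun n => (s n).1) (fun n => by
    show (s (n + 1)).1 ≤ (s n).1
    rw [hs]; exact hf1 _ _)
  refine ⟨q, hq 0, ?_⟩
  rintro _ ⟨n, rfl⟩
  obtain ⟨o, ho1, ho2⟩ := hf2 (s n) (en n)
  rw [← hs] at ho1 ho2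
  exact ⟨o, hm _ _ _ _ (hq (n + 1)) ho1, ho2.trans (hq (n + 1)).1⟩

/-- Closing off. -/
theorem co {H O : Type} {Bel : H → W → Prop} (hR : Rk Bel) (R : Pc → H → O → Prop)
    (hm : ∀ q q' h o, q' ≤ q → R q h o → R q' h o) (bd : O → W) (p : Pc)
    (hden : ∀ q ≤ p, ∀ h, ∃ q' ≤ q, ∃ o, R q' h o) :
    ∃ q ≤ p, ∀ h, Bel h q.d → ∃ o, R q h o ∧ bd o ≤ q.d := by
  have hone : ∀ (q : {q : Pc // q ≤ p}), ∃ q' : {q : Pc // q ≤ p}, q'.1 ≤ q.1 ∧
      ∀ h, Bel h q.1.d → ∃ o, R q'.1 h o ∧ bd o ≤ q'.1.d := by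
    rintro ⟨q, hq⟩
    obtain ⟨q', hq', h'⟩ := ctb_tasks R hm bd q (fun r hr => hden r (le_trans hr hq))
      {h | Bel h q.d} (hR.cnt _)
    exact ⟨⟨q', le_trans hq' hq⟩, hq', fun h hh => h' h hh⟩
  choose f hf1 hf2 using hone
  let s : ℕ → {q : Pc // q ≤ p} := fun n => Nat.rec ⟨p, le_refl _⟩ (fun n q => f q) n
  have hs : ∀ n, s (n + 1) = f (s n) := fun n => rfl
  have hdes : ∀ n, (s (n + 1)).1 ≤ (s n).1 := fun n => by rw [hs]; exact hf1 _
  obtain ⟨q, hq, hlub⟩ := exists_lim (fun n => (s n).1) hdes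
  refine ⟨q, hq 0, ?_⟩
  intro h hh
  obtain ⟨i, hi⟩ := hR.cont (fun n => (s n).1.d) (monotone_nat_of_le_succ fun n => (hdes n).1)
    q.d hlub h hh
  obtain ⟨o, ho1, ho2⟩ := hf2 (s i) h hi
  rw [← hs] at ho1 ho2
  exact ⟨o, hm _ _ _ _ (hq (i + 1)) ho1, ho2.trans (hq (i + 1)).1⟩

end TK

end Pool.Agent.Lib.MP_44eb6b_gt
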