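import Pool.Agent.Lib.MP_44eb6b_gt.Int.Tf

/-!
The functionals of the model.
-/

set_option autoImplicit false

namespace SymExt

namespace TK

open Name Topology
open Pool.Agent.Lib.MP_44eb6b_gt Pool.Agent.Lib.MP_44eb6b_gt.TK

/-! ### Formulas -/

/-- `u` is the composition of the sequence `p` and the function `d`. -/
def Usq (N : Set ZFSet.{0}) (p d u : ZFSet.{0}) : Prop :=
  ∀ v ∈ N, (v ∈ u ↔ ∃ m ∈ N, ∃ x ∈ N, ∃ s ∈ N, v = ZFSet.pair m s ∧ ZFSet.pair m x ∈ p ∧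
    ZFSet.pair x s ∈ d)

/-- `w` is in the functional given by the sequence `p`. -/
def RelP (N : Set ZFSet.{0}) (Cs Ps p w : ZFSet.{0}) : Prop :=
  ∃ d ∈ N, ∃ r ∈ N, w = ZFSet.pair d r ∧ d ∈ Cs ∧ ∃ u ∈ N, Usq N p d u ∧ ZFSet.pair u r ∈ Ps

/-- `z` is the functional given by the sequence `p`. -/
def IsP (N : Set ZFSet.{0}) (Cs Ps p z : ZFSet.{0}) : Prop :=
  ∀ w ∈ N, (w ∈ z ↔ RelP N Cs Ps p w)

section

variable {N : Set ZFSet.{0}} {n : ℕ}

open ModT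

theorem dUsq (h : IsZF N) (i j k : Fin n) : Dfn N (fun v => Usq N (v i) (v j) (v k)) := by
  unfold Usq
  exact dall (diff (dmem _ _) (dex (dex (dex (dand (dopair h _ _ _) (dand (dpmem h _ _ _)
    (dpmem h _ _ _)))))))

theorem dRelP (h : IsZF N) (i j k l : Fin n) :
    Dfn N (fun v => RelP N (v i) (v j) (v k) (v l)) := by
  unfold RelP
  exact dex (dex (dand (dopair h _ _ _) (dand (dmem _ _) (dex (dand (dUsq h _ _ _)
    (dpmem h _ _ _))))))

theorem dIsP (h : IsZF N) (i j k l : Fin n) :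
    Dfn N (fun v => IsP N (v i) (v j) (v k) (v l)) := by
  unfold IsP
  exact dall (diff (dmem _ _) (dRelP h _ _ _ _))

end

/-! ### Semantics -/

variable {C : Set (Name B)} {U : Set B}

/-- The code of a function of `C_p(X)` belongs to the model. -/
theorem code_mem {X : ZFSet.{0}} {N : Set ZFSet.{0}} (f : Cp N X) {d : ZFSet.{0}}
    (hd : CodeFun f.1 d) : d ∈ N := by
  obtain ⟨c, hc, hc'⟩ := f.2.2
  rw [codeFun_uniq hd hc']
  exact hc

theorem pair_pN (h : Good (triv B) C U) (g : GP C U) (α : VC C) (m : ℕ) (z : ZFSet.{0}) :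
    ZFSet.pair (natSet m) z ∈ val C U (pN α.1) ↔ z = (ee h g (α, m)).1 :=
  pair_mem_seqN h g (g.pn _ α.2)

theorem mem_pN (h : Good (triv B) C U) (g : GP C U) (α : VC C) {m x : ZFSet.{0}}
    (hm : ZFSet.pair m x ∈ val C U (pN α.1)) : ∃ k : ℕ, m = natSet k ∧ x = (ee h g (α, k)).1 := by
  obtain ⟨k, hk⟩ := (mem_seqN h g (g.pn _ α.2)).1 hm
  obtain ⟨h1, h2⟩ := ZFSet.pair_inj.1 hk
  exact ⟨k, h1, h2⟩

/-- The compositions of the functions and the sequences have names. -/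
theorem seq_name (h : Good (triv B) C U) (g : GP C U) (α : VC C)
    (f : Cp (MN C U) (val C U XN)) :
    (seqN fun m => rN (f.1 (ee h g (α, m)))) ∈ C := by
  have hZ : IsZF (MN C U) := h.isZF
  obtain ⟨d, hdN, hd⟩ := f.2.2
  have hRN : val C U RN ∈ MN C U := val_mem g.cR
  have hpN : val C U (pN α.1) ∈ MN C U := val_mem (g.pn _ α.2)
  obtain ⟨W', hW, hW'⟩ := ModT.stProd hZ _ hZ.omega _ hRN
  have hdf : ModT.Dfn (MN C U) (fun v : Fin 3 → ZFSet.{0} => ∃ m ∈ MN C U, ∃ x ∈ MN C U,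
      ∃ s ∈ MN C U, v 0 = ZFSet.pair m s ∧ ZFSet.pair m x ∈ v 1 ∧ ZFSet.pair x s ∈ v 2) :=
    ModT.dex (ModT.dex (ModT.dex (ModT.dand (ModT.dopair hZ _ _ _)
      (ModT.dand (ModT.dpmem hZ _ _ _) (ModT.dpmem hZ _ _ _)))))
  obtain ⟨u, hu, hu'⟩ := ModT.sep_mem hZ hdf ![val C U (pN α.1), d] (by
    intro i; fin_cases i
    · exact hpN
    · exact hdN) hW
  obtain ⟨τ, hτ, _, rfl⟩ := hu
  have hfr : ∀ m, rN (f.1 (ee h g (α, m))) ∈ C := by
    intro m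
    have h1 : ZFSet.pair (ee h g (α, m)).1 (realC (f.1 (ee h g (α, m)))) ∈ d :=
      (hd _).2 ⟨_, rfl⟩
    exact rN_mem h g (ModT.of_opair_mem hZ (hZ.trans _ hdN _ h1)).2
  have hmem : ∀ m : ℕ, ∀ s : ZFSet.{0}, ZFSet.pair (natSet m) s ∈ val C U τ ↔
      s = realC (f.1 (ee h g (α, m))) := by
    intro m s
    constructor
    · intro h1
      obtain ⟨_, m', _, x, _, s', _, h2, h3, h4⟩ := (hu' _).1 h1
      have h2' : ZFSet.pair (natSet m) s = ZFSet.pair m' s' := h2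
      have h3' : ZFSet.pair m' x ∈ val C U (pN α.1) := h3
      have h4' : ZFSet.pair x s' ∈ d := h4
      obtain ⟨rfl, rfl⟩ := ZFSet.pair_inj.1 h2'
      rw [pair_pN h g] at h3'
      rw [h3', codeFun_pair hd] at h4'
      exact h4'
    · rintro rfl
      refine (hu' _).2 ⟨(hW' _).2 ⟨natSet m, mem_omega_iff.2 ⟨m, rfl⟩, _,
        (mem_RN h).2 ⟨_, hfr m, rfl⟩, rfl⟩, natSet m, ModT.natSet_mem' hZ m,
        (ee h g (α, m)).1, ?_, _, realC_mem h (hfr m), rfl, ?_, ?_⟩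
      · exact hZ.trans _ (val_mem g.cX) _ (ee h g (α, m)).2
      · exact (pair_pN h g α m _).2 rfl
      · exact (codeFun_pair hd _ _).2 rfl
  obtain ⟨u', hu'C, h1⟩ := g.sqr τ hτ (by
    intro n
    have h2 : bmem (opN (natN n) (rN (f.1 (ee h g (α, n))))) τ ∈ U := by
      rw [h.bmem_iff (h.opN_mem (h.nat n) (hfr n)) hτ, h.val_opN (h.nat n) (hfr n), h.val_natN,
        hmem, val_rN h]
    exact h.up _ h2 _ (le_iSup (fun y => bmem (opN (natN n) (rN y)) τ) _))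
  have h2 : u' = fun m => f.1 (ee h g (α, m)) := by
    funext m
    have h3 := h1 m
    have h4 : rN (u' m) ∈ C := g.useq _ hu'C m
    rw [h.bmem_iff (h.opN_mem (h.nat m) h4) hτ, h.val_opN (h.nat m) h4, h.val_natN,
      hmem, val_rN h] at h3
    exact realC_inj h3
  rw [h2] at hu'C
  exact hu'C

/-- The value of the functional. -/
noncomputable def Fv (h : Good (triv B) C U) (g : GP C U) (α : VC C)
    (f : Cp (MN C U) (val C U XN)) : ℝ := psiS fun m => f.1 (ee h g (α, m))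

theorem relP_iff (h : Good (triv B) C U) (g : GP C U) {Cs : ZFSet.{0}}
    (hCs : ∀ d, d ∈ Cs ↔ d ∈ MN C U ∧ ∃ f : Pt (val C U XN) → ℝ, Continuous f ∧ CodeFun f d)
    (α : VC C) (w : ZFSet.{0}) :
    RelP (MN C U) Cs (val C U PsN) (val C U (pN α.1)) w ↔
      ∃ (f : Cp (MN C U) (val C U XN)) (d : ZFSet.{0}), CodeFun f.1 d ∧
        w = ZFSet.pair d (realC (Fv h g α f)) := by
  have hZ : IsZF (MN C U) := h.isZF
  constructor
  · rintro ⟨d, hdN, r, hr, rfl, hd, u, hu, h1, h2⟩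
    obtain ⟨_, f, hf, hcf⟩ := (hCs d).1 hd
    refine ⟨⟨f, hf, d, hdN, hcf⟩, d, hcf, ?_⟩
    obtain ⟨u', hu', h3⟩ := (mem_PsN h g).1 h2
    obtain ⟨rfl, rfl⟩ := ZFSet.pair_inj.1 h3
    have h4 : u' = fun m => f (ee h g (α, m)) := by
      funext m
      have h5 : ZFSet.pair (natSet m) (val C U (rN (u' m))) ∈
          val C U (seqN fun n => rN (u' n)) := (mem_seqN h g hu').2 ⟨m, rfl⟩
      have h6 := (h1 _ (hZ.trans _ hu _ h5)).1 h5
      obtain ⟨m', _, x, _, s, _, h7, h8, h9⟩ := h6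
      obtain ⟨rfl, rfl⟩ := ZFSet.pair_inj.1 h7
      rw [pair_pN h g] at h8
      rw [h8, codeFun_pair hcf, val_rN h] at h9
      exact realC_inj h9
    rw [h4]
    rfl
  · rintro ⟨f, d, hd, rfl⟩
    have hdN := code_mem f hd
    have hsq := seq_name h g α f
    have hps := g.psi _ hsq
    have hfr : ∀ m, rN (f.1 (ee h g (α, m))) ∈ C := g.useq _ hsq
    refine ⟨d, hdN, realC (Fv h g α f), realC_mem h hps, rfl,
      (hCs d).2 ⟨hdN, f.1, f.2.1, hd⟩, val C U (seqN fun m => rN (f.1 (ee h g (α, m)))),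
      val_mem hsq, ?_, (mem_PsN h g).2 ⟨_, hsq, rfl⟩⟩
    intro v _
    rw [mem_seqN h g hsq]
    constructor
    · rintro ⟨m, rfl⟩
      refine ⟨natSet m, ModT.natSet_mem' hZ m, (ee h g (α, m)).1,
        hZ.trans _ (val_mem g.cX) _ (ee h g (α, m)).2, _, val_mem (hfr m), rfl,
        (pair_pN h g α m _).2 rfl, ?_⟩
      rw [val_rN h]
      exact (codeFun_pair hd _ _).2 rfl
    · rintro ⟨m, _, x, _, s, _, rfl, h1, h2⟩
      obtain ⟨k, rfl, rfl⟩ := mem_pN h g α h1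
      rw [codeFun_pair hd] at h2
      exact ⟨k, by rw [h2, val_rN h]⟩

/-- The functional belongs to the model. -/
theorem exists_Fv (h : Good (triv B) C U) (g : GP C U) (α : VC C) : ∃ c ∈ MN C U,
    CodeFun2 (Fv h g α) c := by
  have hZ : IsZF (MN C U) := h.isZF
  obtain ⟨Cs, hCsN, hCs⟩ := exists_Cs h g
  obtain ⟨W', hW, hW'⟩ := ModT.stProd hZ _ hCsN _ (val_mem g.cR)
  have hd : ModT.Dfn (MN C U) (fun v : Fin 4 → ZFSet.{0} =>
      RelP (MN C U) (v 1) (v 2) (v 3) (v 0)) := dRelP hZ _ _ _ _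
  obtain ⟨c, hc, hc'⟩ := ModT.sep_mem hZ hd ![Cs, val C U PsN, val C U (pN α.1)] (by
    intro i; fin_cases i
    · exact hCsN
    · exact val_mem g.cPs
    · exact val_mem (g.pn _ α.2)) hW
  refine ⟨c, hc, fun z => ?_⟩
  have h1 : z ∈ c ↔ z ∈ W' ∧ RelP (MN C U) Cs (val C U PsN) (val C U (pN α.1)) z := hc' z
  rw [h1, relP_iff h g hCs]
  constructor
  · rintro ⟨_, h2⟩
    exact h2
  · rintro ⟨f, d, h2, rfl⟩
    have hps := g.psi _ (seq_name h g α f)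
    exact ⟨(hW' _).2 ⟨d, (hCs d).2 ⟨code_mem f h2, f.1, f.2.1, h2⟩, _,
      (mem_RN h).2 ⟨_, hps, rfl⟩, rfl⟩, f, d, h2, rfl⟩

theorem codeFun2_inj {N : Set ZFSet.{0}} {X : ZFSet.{0}} {Φ Φ' : Cp N X → ℝ} {c : ZFSet.{0}}
    (hc : CodeFun2 Φ c) (hc' : CodeFun2 Φ' c) : Φ = Φ' := by
  funext f
  obtain ⟨d, _, hd⟩ := f.2.2
  obtain ⟨f', d', h1, h2⟩ := (hc' _).1 ((hc _).2 ⟨f, d, hd, rfl⟩)
  obtain ⟨rfl, h4⟩ := ZFSet.pair_inj.1 h2
  have h5 : f = f' := Subtype.ext (codeFun_inj hd h1)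
  rw [h5]
  rw [h5] at h4
  exact realC_inj h4

theorem codeFun2_uniq {N : Set ZFSet.{0}} {X : ZFSet.{0}} {Φ : Cp N X → ℝ} {c c' : ZFSet.{0}}
    (hc : CodeFun2 Φ c) (hc' : CodeFun2 Φ c') : c = c' := by
  ext z
  rw [hc z, hc' z]

/-- The formula defines the functional. -/
theorem isP_iff (h : Good (triv B) C U) (g : GP C U) {Cs : ZFSet.{0}}
    (hCs : ∀ d, d ∈ Cs ↔ d ∈ MN C U ∧ ∃ f : Pt (val C U XN) → ℝ, Continuous f ∧ CodeFun f d)
    (α : VC C) {z : ZFSet.{0}} (hz : z ∈ MN C U) :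
    IsP (MN C U) Cs (val C U PsN) (val C U (pN α.1)) z ↔ CodeFun2 (Fv h g α) z := by
  have hZ : IsZF (MN C U) := h.isZF
  obtain ⟨c, hc, hcc⟩ := exists_Fv h g α
  constructor
  · intro h1 w
    rw [← relP_iff h g hCs]
    constructor
    · intro h2
      exact (h1 w (hZ.trans _ hz _ h2)).1 h2
    · intro h2
      have h3 : w ∈ c := (hcc w).2 ((relP_iff h g hCs α w).1 h2)
      exact (h1 w (hZ.trans _ hc _ h3)).2 h2
  · intro h1 w _
    rw [relP_iff h g hCs]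
    exact h1 w

end TK

end SymExt
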