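import Pool.Agent.Lib.MP_44eb6b_gt.Int.Vsp
import Pool.Agent.Lib.MP_4e922d_lc.T

/-!
Closed subspaces of the countable power are separable in the model.
-/

set_option autoImplicit false

namespace SymExt

namespace TK

open Name Topology
open Pool.Agent.Lib.MP_44eb6b_gt Pool.Agent.Lib.MP_44eb6b_gt.TK

variable {C : Set (Name B)} {U : Set B}

/-- The model. -/
abbrev MN (C : Set (Name B)) (U : Set B) : Set ZFSet.{0} := model (triv B) C U

theorem val_mem {x : Name B} (hx : x ∈ C) : val C U x ∈ MN C U := ⟨x, hx, (stAC B).1 _, rfl⟩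

theorem sN_ord (g : GP C U) {x : ℕ → W × ℕ} (hx : sN x ∈ C) (n : ℕ) : wN (x n).1 ∈ C :=
  g.unpt _ (g.useq _ hx n)

/-- The point of the power given by a name. -/
noncomputable def pw (h : Good (triv B) C U) (g : GP C U) (x : ℕ → W × ℕ) (hx : sN x ∈ C) :
    Pow (MN C U) (val C U XN) :=
  ⟨fun n => ee h g (⟨(x n).1, sN_ord g hx n⟩, (x n).2), val C U (sN x), val_mem hx,
    fun _ => mem_seqN h g hx⟩

theorem codeSeq_pw (h : Good (triv B) C U) (g : GP C U) {x : ℕ → W × ℕ} (hx : sN x ∈ C) :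
    CodeSeq (pw h g x hx).1 (val C U (sN x)) := fun _ => mem_seqN h g hx

theorem codeSeq_inj {X : ZFSet.{0}} {p q : ℕ → Pt X} {c : ZFSet.{0}} (hp : CodeSeq p c)
    (hq : CodeSeq q c) : p = q := by
  funext n
  obtain ⟨m, hm⟩ := (hq _).1 ((hp _).2 ⟨n, rfl⟩)
  obtain ⟨h1, h2⟩ := ZFSet.pair_inj.1 hm
  rw [natSet_inj h1]
  rw [natSet_inj h1] at h2
  exact Subtype.ext h2

theorem codeSeq_uniq {X : ZFSet.{0}} {p : ℕ → Pt X} {c d : ZFSet.{0}} (hp : CodeSeq p c)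
    (hq : CodeSeq p d) : c = d := by
  ext z
  rw [hp z, hq z]

theorem exists_pw (h : Good (triv B) C U) (g : GP C U) (p : Pow (MN C U) (val C U XN)) :
    ∃ x, ∃ hx : sN x ∈ C, p = pw h g x hx := by
  obtain ⟨p, c, ⟨τ, hτ, _, rfl⟩, hc⟩ := p
  obtain ⟨x, hx, h1⟩ := g.sqx τ hτ (by
    intro n
    obtain ⟨y, hy, h2⟩ := (mem_XN h g).1 (p n).2
    have hyC : ptX y ∈ C := g.pt y.1 y.2 hy
    have h3 : bmem (opN (natN n) (ptX y)) τ ∈ U := by
      rw [h.bmem_iff (h.opN_mem (h.nat n) hyC) hτ, h.val_opN (h.nat n) hyC, h.val_natN]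
      exact (hc _).2 ⟨n, by rw [h2]⟩
    exact h.up _ h3 _ (le_iSup (fun y => bmem (opN (natN n) (ptX y)) τ) y))
  refine ⟨x, hx, Subtype.ext (funext fun n => Subtype.ext ?_)⟩
  have hyC := g.useq _ hx n
  have h2 := h1 n
  rw [h.bmem_iff (h.opN_mem (h.nat n) hyC) hτ, h.val_opN (h.nat n) hyC, h.val_natN] at h2
  obtain ⟨m, hm⟩ := (hc _).1 h2
  obtain ⟨h3, h4⟩ := ZFSet.pair_inj.1 hm
  rw [natSet_inj h3]
  rw [natSet_inj h3] at h4
  exact h4.symm

theorem bF_iff (h : Good (triv B) C U) {φ : Name B} (hφ : φ ∈ C) {x : ℕ → W × ℕ}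
    (hx : sN x ∈ C) : bF φ x ∈ U ↔ val C U (sN x) ∈ val C U φ := h.bmem_iff hx hφ

/-- The sequences of indices are close. -/
def NearV (U : Set B) (k : ℕ) (a : Finset K) (x y : ℕ → W × ℕ) : Prop :=
  ∀ i < k, (y i).2 = (x i).2 ∧ ∀ κ ∈ a, zG U (y i).1 κ = zG U (x i).1 κ

theorem kk_bel {n : ℕ} {bs : List W} {δ : W} (hb : ∀ β ∈ bs, β < δ) {κ : K}
    (hκ : κ ∈ kk n bs) : bel κ δ := by
  classical
  unfold kk at hκ
  rcases Finset.mem_union.1 hκ with h1 | h1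
  · obtain ⟨i, _, rfl⟩ := Finset.mem_image.1 h1
    trivial
  · obtain ⟨β, h2, rfl⟩ := Finset.mem_image.1 h1
    exact hb β (List.mem_toFinset.1 h2)

theorem near_iff (h : Good (triv B) C U) (g : GP C U) {x y : ℕ → W × ℕ} (hx : sN x ∈ C)
    (hy : sN y ∈ C) (k n : ℕ) {bs : List W} (hb : ∀ β ∈ bs, wN β ∈ C) :
    nearB k (kk n bs) x y ∈ U ↔ NearV U k (kk n bs) x y := by
  obtain ⟨p, hp, h1⟩ := exists_up g ((List.range k).map (fun i => (x i).1) ++
    ((List.range k).map (fun i => (y i).1) ++ bs)) (by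
    intro β hβ
    rw [List.mem_append, List.mem_append] at hβ
    rcases hβ with hβ | hβ | hβ
    · obtain ⟨i, _, rfl⟩ := List.mem_map.1 hβ
      exact sN_ord g hx i
    · obtain ⟨i, _, rfl⟩ := List.mem_map.1 hβ
      exact sN_ord g hy i
    · exact hb β hβ)
  have hxp : ∀ i < k, (x i).1 < p.d := fun i hi => h1 _ (List.mem_append_left _
    (List.mem_map.2 ⟨i, List.mem_range.2 hi, rfl⟩))
  have hyp : ∀ i < k, (y i).1 < p.d := fun i hi => h1 _ (List.mem_append_right _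
    (List.mem_append_left _ (List.mem_map.2 ⟨i, List.mem_range.2 hi, rfl⟩)))
  have hbp : ∀ κ ∈ kk n bs, bel κ p.d := fun κ hκ =>
    kk_bel (fun β hβ => h1 _ (List.mem_append_right _ (List.mem_append_right _ hβ))) hκ
  constructor
  · intro hU
    by_contra hcon
    have h2 : eB p ≤ (nearB k (kk n bs) x y)ᶜ := by
      refine le_compl_of fun q r hq hrp hrq => hcon ?_
      intro i hi
      obtain ⟨q1, q2, q3, q4⟩ := hq i hi
      refine ⟨q3, fun κ hκ => ?_⟩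
      obtain ⟨q5, q6⟩ := q4 κ hκ
      rw [zG_eq h hp (hyp i hi) (hbp κ hκ), zG_eq h hp (hxp i hi) (hbp κ hκ),
        ← Pc.agree hrp (hyp i hi) (hbp κ hκ), ← Pc.agree hrp (hxp i hi) (hbp κ hκ),
        Pc.agree hrq q2 q5, Pc.agree hrq q1 q5, q6]
    exact h.not_compl hU (h.up _ hp _ h2)
  · intro hV
    refine h.up _ hp _ (le_nearB fun i hi => ⟨hxp i hi, hyp i hi, (hV i hi).1, fun κ hκ =>
      ⟨hbp κ hκ, ?_⟩⟩)
    rw [← zG_eq h hp (hyp i hi) (hbp κ hκ), ← zG_eq h hp (hxp i hi) (hbp κ hκ)]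
    exact (hV i hi).2 κ hκ

/-- A base of the countable power. -/
theorem nb_pow (h : Good (triv B) C U) (g : GP C U) {x : ℕ → W × ℕ} (hx : sN x ∈ C)
    {O : Set (Pow (MN C U) (val C U XN))} (hO : IsOpen O) (hxO : pw h g x hx ∈ O) :
    ∃ (k n : ℕ) (bs : List W), (∀ β ∈ bs, wN β ∈ C) ∧ ∀ y, ∀ hy : sN y ∈ C,
      NearV U k (kk n bs) x y → pw h g y hy ∈ O := by
  classical
  obtain ⟨t, ht, rfl⟩ := isOpen_induced_iff.mp hO
  obtain ⟨I, u, hu1, hu2⟩ := isOpen_pi_iff.mp ht (pw h g x hx).1 hxO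
  have hpt : ∀ i : ℕ, ∃ a : Finset (ℕ ⊕ VC C), i ∈ I → ∀ q : VC C × ℕ, q.2 = (x i).2 →
      (∀ κ ∈ a, vz C U q.1 κ = vz C U ⟨(x i).1, sN_ord g hx i⟩ κ) → ee h g q ∈ u i := by
    intro i
    by_cases hi : i ∈ I
    · obtain ⟨a, ha⟩ := open_ptV (inducing_ee h g) (u i) (hu1 i hi).1
        (⟨(x i).1, sN_ord g hx i⟩, (x i).2) (hu1 i hi).2
      exact ⟨a, fun _ => ha⟩
    · exact ⟨∅, fun h' => absurd h' hi⟩
  choose a ha using hpt
  let A : Finset (ℕ ⊕ VC C) := I.biUnion a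
  let n : ℕ := A.sup (fun κ => Sum.elim (fun m => m + 1) (fun _ => 0) κ)
  let bs : List W := A.toList.flatMap (fun κ => Sum.elim (fun _ => []) (fun β => [β.1]) κ)
  have hA : ∀ κ ∈ A, Sum.map id Subtype.val κ ∈ kk n bs := by
    intro κ hκ
    unfold kk
    rcases κ with m | β
    · refine Finset.mem_union_left _ (Finset.mem_image.2 ⟨m, ?_, rfl⟩)
      rw [Finset.mem_range]
      have := Finset.le_sup (f := fun κ : ℕ ⊕ VC C =>
        Sum.elim (fun m => m + 1) (fun _ => 0) κ) hκ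
      exact this
    · refine Finset.mem_union_right _ (Finset.mem_image.2 ⟨β.1, ?_, rfl⟩)
      rw [List.mem_toFinset]
      exact List.mem_flatMap.2 ⟨Sum.inr β, Finset.mem_toList.2 hκ, by simp⟩
  refine ⟨I.sup (fun i => i + 1), n, bs, ?_, ?_⟩
  · intro β hβ
    obtain ⟨κ, _, h2⟩ := List.mem_flatMap.1 hβ
    rcases κ with m | β'
    · simp at h2
    · simp only [Sum.elim_inr, List.mem_singleton] at h2
      rw [h2]
      exact β'.2
  · intro y hy hn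
    refine hu2 ?_
    intro i hi
    have hi' : i < I.sup (fun i => i + 1) := Finset.le_sup (f := fun i => i + 1) hi
    obtain ⟨h1, h2⟩ := hn i hi'
    refine ha i hi (⟨(y i).1, sN_ord g hy i⟩, (y i).2) h1 fun κ hκ => ?_
    exact h2 _ (hA κ (Finset.mem_biUnion.2 ⟨i, hi, hκ⟩))

theorem pow_sep (h : Good (triv B) C U) (g : GP C U) :
    PowClosedSeparable (MN C U) (val C U XN) := by
  have hZ : IsZF (MN C U) := h.isZF
  rintro F hF ⟨A, hAN, hA⟩
  obtain ⟨φ, hφ, _, rfl⟩ := hAN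
  have hAN : val C U φ ∈ MN C U := val_mem hφ
  have hmemF : ∀ x (hx : sN x ∈ C), val C U (sN x) ∈ val C U φ ↔ pw h g x hx ∈ F := by
    intro x hx
    rw [hA]
    constructor
    · rintro ⟨y, hy, h1⟩
      have h2 : y = pw h g x hx := Subtype.ext (codeSeq_inj h1 (codeSeq_pw h g hx))
      rwa [← h2]
    · intro h1
      exact ⟨_, h1, codeSeq_pw h g hx⟩
  have hclosed : closedB φ ∈ U := by
    refine g.clo φ hφ fun x hx hl => ?_
    rw [bF_iff h hφ hx, hmemF x hx]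
    rw [← hF.closure_eq, mem_closure_iff]
    intro O hO hxO
    obtain ⟨k, n, bs, hb, h1⟩ := nb_pow h g hx hO hxO
    have h2 : (⨆ y, bF φ y ⊓ nearB k (kk n bs) x y) ∈ U :=
      h.up _ hl _ ((iInf_le _ k).trans (iInf_le _ (kk n bs)))
    obtain ⟨y, hy, h3, h4⟩ := g.lim φ hφ x hx k n bs hb h2
    rw [bF_iff h hφ hy, hmemF y hy] at h3
    rw [near_iff h g hx hy k n hb] at h4
    exact ⟨_, h1 y hy h4, h3⟩
  obtain ⟨en, hen, hd⟩ := g.dns φ hφ hclosed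
  have hei : ∀ i, sN (en i) ∈ C := g.useq _ hen
  refine ⟨{p | ∃ i, p = pw h g (en i) (hei i) ∧ p ∈ F}, fun p hp => hp.choose_spec.2, ?_, ?_⟩
  · intro p hp
    obtain ⟨x, hx, rfl⟩ := exists_pw h g p
    rw [mem_closure_iff]
    intro O hO hxO
    obtain ⟨k, n, bs, hb, h1⟩ := nb_pow h g hx hO hxO
    have h2 : bF φ x ∈ U := by rwa [bF_iff h hφ hx, hmemF x hx]
    have h3 := h.mp (h.up _ hd _ (iInf_le _ x)) h2
    have h4 : (⨆ i, bF φ (en i) ⊓ nearB k (kk n bs) x (en i)) ∈ U :=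
      h.up _ h3 _ ((iInf_le _ k).trans (iInf_le _ (kk n bs)))
    obtain ⟨i, h5, h6⟩ := g.wit φ hφ en hen x hx k n bs hb h4
    rw [bF_iff h hφ (hei i), hmemF _ (hei i)] at h5
    rw [near_iff h g hx (hei i) k n hb] at h6
    exact ⟨_, h1 _ (hei i) h6, i, rfl, h5⟩
  · have heN : val C U (seqN fun i => sN (en i)) ∈ MN C U := val_mem hen
    have hpe : ∀ n z, ZFSet.pair (natSet n) z ∈ val C U (seqN fun i => sN (en i)) ↔
        z = val C U (sN (en n)) := fun n z => pair_mem_seqN h g hen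
    have hd1 : ModT.Dfn (MN C U) (fun v : Fin 3 → ZFSet.{0} => ∃ n ∈ MN C U,
        n ∈ v 2 ∧ ZFSet.pair n (v 0) ∈ v 1) :=
      ModT.dex (ModT.dand (ModT.dmem _ _) (ModT.dpmem hZ _ _ _))
    obtain ⟨D, hD, hD'⟩ := ModT.sep_mem hZ hd1
      ![val C U (seqN fun i => sN (en i)), ZFSet.omega] (by
        intro i; fin_cases i
        · exact heN
        · exact hZ.omega) hAN
    have hDm : ∀ z, z ∈ D ↔ z ∈ val C U φ ∧ ∃ n : ℕ, z = val C U (sN (en n)) := by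
      intro z
      rw [hD']
      refine and_congr_right fun hz => ?_
      constructor
      · rintro ⟨n, _, h1, h2⟩
        obtain ⟨n, rfl⟩ := mem_omega_iff.1 h1
        exact ⟨n, (hpe n z).1 h2⟩
      · rintro ⟨n, h1⟩
        exact ⟨natSet n, ModT.natSet_mem' hZ n, mem_omega_iff.2 ⟨n, rfl⟩, (hpe n z).2 h1⟩
    have hd2 : ModT.Dfn (MN C U) (fun v : Fin 2 → ZFSet.{0} => ∃ n ∈ MN C U, ∃ z ∈ MN C U,
        v 0 = ZFSet.pair n z ∧ z ∈ v 1) :=
      ModT.dex (ModT.dex (ModT.dand (ModT.dopair hZ _ _ _) (ModT.dmem _ _)))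
    obtain ⟨f, hf, hf'⟩ := ModT.sep_mem hZ hd2 ![D] (by
        intro i; fin_cases i
        exact hD) heN
    refine ⟨D, hD, ?_, f, hf, ?_, ?_, ?_⟩
    · intro z
      rw [hDm]
      constructor
      · rintro ⟨h1, n, rfl⟩
        exact ⟨pw h g (en n) (hei n), ⟨n, rfl, (hmemF _ (hei n)).1 h1⟩,
          codeSeq_pw h g (hei n)⟩
      · rintro ⟨p, ⟨n, rfl, hp⟩, h1⟩
        have h2 : z = val C U (sN (en n)) := codeSeq_uniq h1 (codeSeq_pw h g (hei n))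
        rw [h2]
        exact ⟨(hmemF _ (hei n)).2 hp, n, rfl⟩
    · intro z hz
      obtain ⟨h1, n, _, y, _, h2, h3⟩ := (hf' z).1 hz
      obtain ⟨m, hm⟩ := (mem_seqN h g hen).1 h1
      have h2' : z = ZFSet.pair n y := h2
      rw [h2'] at hm
      obtain ⟨h4, h5⟩ := ZFSet.pair_inj.1 hm
      exact ⟨n, mem_omega_iff.2 ⟨m, h4⟩, y, h3, h2'⟩
    · intro n y y' h1 h2
      obtain ⟨m, hm⟩ := (mem_seqN h g hen).1 ((hf' _).1 h1).1
      obtain ⟨m', hm'⟩ := (mem_seqN h g hen).1 ((hf' _).1 h2).1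
      obtain ⟨h3, h4⟩ := ZFSet.pair_inj.1 hm
      obtain ⟨h5, h6⟩ := ZFSet.pair_inj.1 hm'
      have h7 : m = m' := natSet_inj (h3.symm.trans h5)
      rw [h4, h6, h7]
    · intro y hy
      obtain ⟨h1, n, h2⟩ := (hDm y).1 hy
      refine ⟨natSet n, (hf' _).2 ⟨(hpe n y).2 h2, natSet n, ModT.natSet_mem' hZ n, y,
        hZ.trans _ hD _ hy, rfl, hy⟩⟩

end TK

end SymExt
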