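import Pool.Agent.Lib.MP_44eb6b_gt.Int.Core

/-!
Points of closed sets with prescribed types.
-/

set_option autoImplicit false

namespace Pool.Agent.Lib.MP_44eb6b_gt

namespace TK

open Set Cardinal

variable {Fo : Pc → (ℕ → W × ℕ) → Prop}

/-- Ordinals of pairs of a code and a condition. -/
def bb (b : Cd × Cnd (ℕ × K)) (δ : W) : Prop := (∀ u ∈ b.1, belu u δ) ∧ cbel b.2 δ

theorem rk_bb : Rk bb := Rk.prod (Rk.list rk_belu) rk_cbel

/-- The families promised for the construction of points. -/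
def FamB (Fo : Pc → (ℕ → W × ℕ) → Prop) (q : Pc) (b : Cd × Cnd (ℕ × K)) :
    Set (Cnd (ℕ × K)) :=
  {d | ∃ u c', belu u q.d ∧ cbel c' q.d ∧ SolidF Fo q (b.1 ++ [u]) c' ∧
    d = cut b.1.length c'} ∪ Sing b.2

theorem cut_bd (t : Cd) (c' : Cnd (ℕ × K)) : Bd t (cut t.length c') := by
  classical
  refine ⟨fun q hq => ?_, fun q hq => ?_⟩
  · exact (Finset.mem_filter.mp hq).2
  · exact (Finset.mem_filter.mp hq).2

theorem cut_bel {n : ℕ} {c' : Cnd (ℕ × K)} {δ : W} (h : cbel c' δ) : cbel (cut n c') δ := by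
  classical
  refine ⟨fun q hq => ?_, fun q hq => ?_⟩
  · exact h.1 q (Finset.mem_filter.mp hq).1
  · exact h.2 q (Finset.mem_filter.mp hq).1

/-- Closing off for the construction of points. -/
theorem exists_closed (hm : ∀ p q x, q ≤ p → Fo p x → Fo q x) (p : Pc) :
    ∃ q ≤ p, ∃ q2 ≤ q, q.d < q2.d ∧ ∀ r ≤ q2, ∀ b, bb b q.d → SolidF Fo q b.1 b.2 →
      ∀ s : ℕ → W, Set.InjOn s (Set.Iio b.1.length) → (∀ j < b.1.length, q2.d ≤ s j) →
      Mt b.2 (zw r s) → ∃ u c', belu u q.d ∧ cbel c' q.d ∧ SolidF Fo q (b.1 ++ [u]) c' ∧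
        Mt (cut b.1.length c') (zw r s) := by
  classical
  let R : Pc → (Cd × Cnd (ℕ × K)) × Cnd (ℕ × K) → ((W ⊕ ℕ) × ℕ) × Cnd (ℕ × K) × W → Prop :=
    fun q h o => (∀ q' ≤ q, ¬ SolidF Fo q' h.1.1 h.1.2) ∨
      (h.1.2.1 ⊆ h.2.1 → h.1.2.2 ⊆ h.2.2 → Bd h.1.1 h.2 → (∃ f, Mt h.2 f) →
        (h.2.1 ⊆ o.2.1.1 ∧ h.2.2 ⊆ o.2.1.2 ∧ SolidF Fo q (h.1.1 ++ [o.1]) o.2.1 ∧
          belu o.1 o.2.2 ∧ cbel o.2.1 o.2.2))
  obtain ⟨q, hq, hR⟩ := co (Rk.prod rk_bb rk_cbel) R (by
    rintro q q' h o hqq (hr | hr)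
    · exact Or.inl fun q'' h' => hr q'' (le_trans h' hqq)
    · refine Or.inr fun h1 h2 h3 h4 => ?_
      obtain ⟨a1, a2, a3, a4⟩ := hr h1 h2 h3 h4
      exact ⟨a1, a2, a3.mono hqq, a4⟩) (fun o => o.2.2) p (by
    rintro q hq ⟨⟨t, c⟩, c'⟩
    by_cases h : ∃ q' ≤ q, SolidF Fo q' t c
    · obtain ⟨q', hq', hs⟩ := h
      by_cases h' : c.1 ⊆ c'.1 ∧ c.2 ⊆ c'.2 ∧ Bd t c' ∧ ∃ f, Mt c' f
      · obtain ⟨h1, h2, h3, h4⟩ := h'
        obtain ⟨q1, hq1, u, hu1, hu2⟩ := exists_stepF hm hs.1 h3 (hs.2.2.2 c' h1 h2 h3 h4)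
        obtain ⟨q2, hq2, c'', a1, a2, a3⟩ := exists_solidF hu1 (bd_append u h3) hu2
        obtain ⟨δ1, hδ1⟩ := rk_belu.ex u
        obtain ⟨δ2, hδ2⟩ := ex_cbel c''
        exact ⟨q2, le_trans hq2 (le_trans hq1 hq'), (u, c'', max δ1 δ2),
          Or.inr fun _ _ _ _ => ⟨a1, a2, a3, rk_belu.mono _ _ _ (le_max_left _ _) hδ1,
            cbel_mono hδ2 (le_max_right _ _)⟩⟩
      · exact ⟨q, le_refl _, default, Or.inr fun h1 h2 h3 h4 => absurd ⟨h1, h2, h3, h4⟩ h'⟩
    · push Not at h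
      exact ⟨q, le_refl _, default, Or.inl fun q' hq' => h q' hq'⟩)
  have hpre : ∀ b, bb b q.d → SolidF Fo q b.1 b.2 → Pre (FamB Fo q b) := by
    rintro ⟨t, c⟩ hb hs
    apply pre_below hs.2.1 hs.2.2.1 hb.2
    intro c' h1 h2 h3 h4 h5
    obtain ⟨o, ho, ho2⟩ := hR ((t, c), c') ⟨hb, h5⟩
    rcases ho with ho | ho
    · exact absurd hs (ho q (le_refl _))
    · obtain ⟨a1, a2, a3, a4, a5⟩ := ho h1 h2 h3 h4
      obtain ⟨g, hg⟩ := a3.2.2.1
      exact ⟨cut t.length o.2.1, ⟨o.1, o.2.1, rk_belu.mono _ _ _ ho2 a4, cbel_mono a5 ho2,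
        a3, rfl⟩, cut_bd _ _, cut_bel (cbel_mono a5 ho2), g, hg.mono a1 a2,
        hg.mono (Finset.filter_subset _ _) (Finset.filter_subset _ _)⟩
  have hbel : ∀ b, bb b q.d → ∀ d ∈ FamB Fo q b, cbel d q.d := by
    rintro b hb d (⟨u, c', _, h2, _, rfl⟩ | h)
    · exact cut_bel h2
    · exact sing_below hb.2 h
  obtain ⟨en, hcp, hen⟩ := exists_cp (FamB Fo q '' {b | bb b q.d}) ((rk_bb.cnt _).image _) q.d
    (by rintro _ ⟨b, hb, rfl⟩; exact hbel b hb)
  refine ⟨q, hq, put q (default, en, default), put_le _ _, lt_put _ _, ?_⟩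
  intro r hr b hb hs s hinj hge hmt
  obtain ⟨i, hi⟩ := hen _ ⟨b, hb, rfl⟩
  have hrq : r.g q.d = (default, en, default) := put_at hr
  have hbd : ∀ d ∈ FamB Fo q b, Bd b.1 d := by
    rintro d (⟨u, c', _, _, _, rfl⟩ | h)
    · exact cut_bd _ _
    · exact bd_sing hs.2.1 h
  obtain ⟨d, hd, hmd⟩ := zm_meet r.g q.d q.d (put q (default, en, default)).d
    (by rw [hrq]; exact hcp) (lt_put _ _).le (lt_put _ _) b.1.length
    (Finset.range b.1.length) (Finset.card_range _) i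
    (by
      rw [hrq]
      show ∀ c ∈ en i, _
      rw [hi]
      exact fun d hd => ⟨fun q hq => Finset.mem_range.mpr ((hbd d hd).1 q hq),
        fun q hq => Finset.mem_range.mpr ((hbd d hd).2 q hq)⟩)
    (by rw [hrq]; show Pre (en i); rw [hi]; exact hpre b hb hs) s
    (by
      intro a ha b' hb' hab
      exact hinj (by simpa using ha) (by simpa using hb') hab)
    (fun j hj => hge j (Finset.mem_range.mp hj))
  rw [hrq] at hd
  have hd' : d ∈ en i := hd
  rw [hi] at hd'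
  rcases hd' with ⟨u, c', h1, h2, h3, rfl⟩ | h
  · exact ⟨u, c', h1, h2, h3, hmd⟩
  · exact (Sing_not h hmt hmd).elim

/-- Stages of the construction of a point. -/
structure StF (Fo : Pc → (ℕ → W × ℕ) → Prop) (q q2 : Pc) where
  /-- the code and the condition -/
  b : Cd × Cnd (ℕ × K)
  /-- the condition of the forcing -/
  r : Pc
  /-- the rows -/
  s : ℕ → W
  le : r ≤ q2
  bel : bb b q.d
  sol : SolidF Fo q b.1 b.2
  inj : Set.InjOn s (Set.Iio b.1.length)
  ge : ∀ j < b.1.length, q2.d ≤ s j ∧ s j < r.d ∧ ¬ T (s j)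
  mt : Mt b.2 (zw r s)

/-- Lemma C. -/
theorem starF (hm : ∀ p q x, q ≤ p → Fo p x → Fo q x) {p0 : Pc}
    (hcl : ∀ p ≤ p0, ∀ x, (∀ (k : ℕ) (a : Finset K), ∀ q ≤ p, ∃ r ≤ q, ∃ y, Fo r y ∧
      NearAt r k a x y) → Fo p x)
    {p : Pc} (hp : p ≤ p0) {t : Cd} {c : Cnd (ℕ × K)} (hs : SolidF Fo p t c) (α : W) :
    ∃ q ≤ p, ∃ x w, Fo q x ∧ Rep α x t w ∧ (∀ j < t.length, ¬ T (w j)) ∧
      (∀ j < t.length, w j < q.d) ∧ cbel c q.d ∧ Mt c (zw q w) := by
  classical
  obtain ⟨δ0, hδ0⟩ := rk_bb.ex (t, c)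
  obtain ⟨q, hq, q2, hq2, hlt, hext⟩ := exists_closed hm (up (up p δ0) α)
  have hqp : q ≤ p := le_trans hq (le_trans (up_le _ _) (up_le _ _))
  have hbq : bb (t, c) q.d := rk_bb.mono _ _ _
    ((le_up p δ0).trans ((up_le (up p δ0) α).1.trans hq.1)) hδ0
  have hαq : α ≤ q.d := (le_up (up p δ0) α).trans hq.1
  -- one step
  have hstep : ∀ g : StF Fo q q2, ∃ g' : StF Fo q q2, g'.r ≤ g.r ∧
      (∃ u, g'.b.1 = g.b.1 ++ [u]) ∧ (∀ j < g.b.1.length, g'.s j = g.s j) := by
    intro g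
    obtain ⟨u, c', h1, h2, h3, h4⟩ := hext g.r g.le g.b g.bel g.sol g.s g.inj
      (fun j hj => (g.ge j hj).1) g.mt
    obtain ⟨f, hf⟩ := h3.2.2.1
    have hqr : q.d ≤ g.r.d := hlt.le.trans g.le.1
    obtain ⟨r', hr', β, hβ1, hβ2, hβ3, hβ4⟩ := add_row g.r (row g.b.1.length c')
      ⟨fun κ => f (g.b.1.length, κ), fun κ hκ => hf.1 _ (mem_row1.mp hκ),
        fun κ hκ => hf.2 _ (mem_row2.mp hκ)⟩
      ⟨fun κ hκ => rk_bel.mono _ _ _ hqr (h2.1 _ (mem_row1.mp hκ)).2,
        fun κ hκ => rk_bel.mono _ _ _ hqr (h2.2 _ (mem_row2.mp hκ)).2⟩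
    have hne : ∀ j < g.b.1.length, g.s j ≠ β := fun j hj =>
      ((g.ge j hj).2.1.trans_le hβ1).ne
    have hlen : (g.b.1 ++ [u]).length = g.b.1.length + 1 := by simp
    refine ⟨⟨(g.b.1 ++ [u], c'), r', Function.update g.s g.b.1.length β,
      le_trans hr' g.le, ⟨?_, h2⟩, h3, ?_, ?_, ?_⟩, hr', ⟨u, rfl⟩,
      fun j hj => Function.update_of_ne (by omega) _ _⟩
    · intro v hv
      rcases List.mem_append.mp hv with h | h
      · exact g.bel.1 v h
      · rw [List.mem_singleton] at h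
        rw [h]; exact h1
    · intro i hi j hj hij
      rw [Set.mem_Iio] at hi hj
      simp only [hlen] at hi hj
      by_cases hi' : i = g.b.1.length
      · by_cases hj' : j = g.b.1.length
        · rw [hi', hj']
        · rw [hi', Function.update_self, Function.update_of_ne hj'] at hij
          exact absurd hij.symm (hne j (by omega))
      · by_cases hj' : j = g.b.1.length
        · rw [hj', Function.update_self, Function.update_of_ne hi'] at hij
          exact absurd hij (hne i (by omega))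
        · rw [Function.update_of_ne hi', Function.update_of_ne hj'] at hij
          exact g.inj (show i < g.b.1.length by omega) (show j < g.b.1.length by omega) hij
    · intro j hj
      simp only [hlen] at hj
      by_cases hj' : j = g.b.1.length
      · rw [hj', Function.update_self]
        exact ⟨g.le.1.trans hβ1, hβ2, hβ3⟩
      · rw [Function.update_of_ne hj']
        obtain ⟨a1, a2, a3⟩ := g.ge j (by omega)
        exact ⟨a1, a2.trans_le hr'.1, a3⟩
    · refine ⟨?_, ?_⟩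
      · rintro ⟨j, κ⟩ hx
        have hj : j < (g.b.1 ++ [u]).length := h3.2.1.1 _ hx
        rw [hlen] at hj
        show zm r'.g (Function.update g.s g.b.1.length β j) κ = true
        by_cases hj' : j = g.b.1.length
        · subst hj'
          rw [Function.update_self]
          exact hβ4.1 κ (mem_row1.mpr hx)
        · rw [Function.update_of_ne hj', Pc.agree hr' (g.ge j (by omega)).2.1
            (rk_bel.mono _ _ _ hqr (h2.1 _ hx).2)]
          exact h4.1 (j, κ) (Finset.mem_filter.mpr ⟨hx, show j < g.b.1.length by omega⟩)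
      · rintro ⟨j, κ⟩ hx
        have hj : j < (g.b.1 ++ [u]).length := h3.2.1.2 _ hx
        rw [hlen] at hj
        show zm r'.g (Function.update g.s g.b.1.length β j) κ = false
        by_cases hj' : j = g.b.1.length
        · subst hj'
          rw [Function.update_self]
          exact hβ4.2 κ (mem_row2.mpr hx)
        · rw [Function.update_of_ne hj', Pc.agree hr' (g.ge j (by omega)).2.1
            (rk_bel.mono _ _ _ hqr (h2.2 _ hx).2)]
          exact h4.2 (j, κ) (Finset.mem_filter.mpr ⟨hx, show j < g.b.1.length by omega⟩)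
  choose nxt hn0 hn1 hn2 using hstep
  have hsq : SolidF Fo q t c := hs.mono hqp
  obtain ⟨r0, hr0, s0, hs01, hs02⟩ := fillF hs.2.2.1 hbq.2 q2 hlt.le t.length
  let g0 : StF Fo q q2 := ⟨(t, c), r0, s0, hr0, hbq, hsq, hs01,
    fun j hj => ⟨(hs02 j hj).1, (hs02 j hj).2.1, (hs02 j hj).2.2.1⟩, by
      refine ⟨?_, ?_⟩
      · rintro ⟨j, κ⟩ hx
        exact (hs02 j (hs.2.1.1 _ hx)).2.2.2.1 κ (mem_row1.mpr hx)
      · rintro ⟨j, κ⟩ hx
        exact (hs02 j (hs.2.1.2 _ hx)).2.2.2.2 κ (mem_row2.mpr hx)⟩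
  let G : ℕ → StF Fo q q2 := fun n => Nat.rec g0 (fun _ g => nxt g) n
  have hG : ∀ n, G (n + 1) = nxt (G n) := fun n => rfl
  have hlen : ∀ n, (G n).b.1.length = t.length + n := by
    intro n
    induction n with
    | zero => rfl
    | succ n ih =>
      obtain ⟨u, hu⟩ := hn1 (G n)
      rw [hG, hu, List.length_append, ih]
      rfl
  have hsta : ∀ l l', l ≤ l' → ∀ j < (G l).b.1.length, (G l').s j = (G l).s j := by
    intro l l' hll
    induction l', hll using Nat.le_induction with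
    | base => intro j _; rfl
    | succ l' hll ih =>
      intro j hj
      have e1 := hlen l
      have e2 := hlen l'
      rw [hG, hn2 (G l') j (by omega), ih j hj]
  have hstb : ∀ (l l' : ℕ), l ≤ l' → ∀ (i : ℕ) (u : (W ⊕ ℕ) × ℕ),
      (G l).b.1[i]? = some u → (G l').b.1[i]? = some u := by
    intro l l' hll
    induction l', hll using Nat.le_induction with
    | base => intro i u h; exact h
    | succ l' hll ih =>
      intro i u h
      obtain ⟨v, hv⟩ := hn1 (G l')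
      have h2 := ih i u h
      have h3 : i < (G l').b.1.length := by
        by_contra hcon
        rw [List.getElem?_eq_none (by omega)] at h2
        simp at h2
      rw [hG, hv, List.getElem?_append_left h3]
      exact h2
  obtain ⟨rω, hrω, _⟩ := exists_lim (fun n => (G n).r) (fun n => by
    show (G (n + 1)).r ≤ (G n).r
    rw [hG]; exact hn0 _)
  let w : ℕ → W := fun j => (G (j + 1)).s j
  have hw : ∀ l j, j < (G l).b.1.length → w j = (G l).s j := by
    intro l j hj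
    rcases le_total l (j + 1) with h | h
    · exact hsta l (j + 1) h j hj
    · exact (hsta (j + 1) l h j (by have := hlen (j + 1); omega)).symm
  have hu : ∀ i, ∃ u, (G (i + 1)).b.1[i]? = some u := by
    intro i
    have : i < (G (i + 1)).b.1.length := by have := hlen (i + 1); omega
    exact ⟨_, List.getElem?_eq_getElem this⟩
  choose u hu using hu
  let x : ℕ → W × ℕ := fun i => val w (u i)
  have hx : ∀ l i v, (G l).b.1[i]? = some v → x i = val w v := by
    intro l i v hv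
    have : u i = v := by
      rcases le_total l (i + 1) with h | h
      · have h1 := hstb l (i + 1) h i v hv
        rw [hu] at h1
        exact Option.some.inj h1
      · have h1 := hstb (i + 1) l h i (u i) (hu i)
        rw [hv] at h1
        exact (Option.some.inj h1).symm
    show val w (u i) = val w v
    rw [this]
  have hωq2 : rω ≤ q2 := le_trans (hrω 0) (G 0).le
  have hωq : rω ≤ q := le_trans hωq2 hq2
  have hωp : rω ≤ p := le_trans hωq hqp
  have hmtl : ∀ l, Mt (G l).b.2 (zw rω w) := by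
    intro l
    have h1 : Mt (G l).b.2 (zw (G l).r w) := by
      have hbd := (G l).sol.2.1
      refine ⟨fun y hy => ?_, fun y hy => ?_⟩
      · have := (G l).mt.1 y hy
        unfold zw at this ⊢
        rw [hw l _ (hbd.1 y hy)]; exact this
      · have := (G l).mt.2 y hy
        unfold zw at this ⊢
        rw [hw l _ (hbd.2 y hy)]; exact this
    refine zw_agree (hrω l) ?_ (cbel_mono (G l).bel.2 (hlt.le.trans (G l).le.1)) h1
    intro y hy
    have hy' : y.1 < (G l).b.1.length := by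
      rcases hy with hy | hy
      · exact (G l).sol.2.1.1 y hy
      · exact (G l).sol.2.1.2 y hy
    rw [hw l _ hy']
    exact ((G l).ge _ hy').2.1
  refine ⟨rω, hωp, x, w, hcl rω (le_trans hωp hp) x ?_, ⟨?_, ?_, ?_⟩, ?_, ?_, ?_, hmtl 0⟩
  · intro k a q' hq'
    choose κd hκd using fun κ : K => rk_bel.ex κ
    obtain ⟨δa, hδa⟩ := bdd_fun (a : Set K) a.finite_toSet.countable κd
    let q3 : Pc := up q' δa
    have hq3 : q3 ≤ rω := le_trans (up_le _ _) hq'
    have haq : ∀ κ ∈ a, bel κ q3.d := fun κ hκ =>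
      rk_bel.mono _ _ _ ((hδa κ hκ).le.trans (le_up _ _)) (hκd κ)
    let t' : Cd := (G k).b.1
    let c1 : Cnd (ℕ × K) := (G k).b.2
    let P : Finset (ℕ × K) := ((Finset.range t'.length) ×ˢ a).filter (fun y => zw q3 w y = true)
    let N : Finset (ℕ × K) := ((Finset.range t'.length) ×ˢ a).filter (fun y => zw q3 w y = false)
    have hb1 : Bd t' c1 := (G k).sol.2.1
    have hm1 : Mt c1 (zw q3 w) := by
      refine zw_agree hq3 ?_ (cbel_mono (G k).bel.2 ((hωq).1)) (hmtl k)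
      intro y hy
      have hy' : y.1 < (G k).b.1.length := by
        rcases hy with hy | hy
        · exact (G k).sol.2.1.1 y hy
        · exact (G k).sol.2.1.2 y hy
      rw [hw k _ hy']
      exact ((G k).ge _ hy').2.1.trans_le (hrω k).1
    obtain ⟨r, hr, y, w', hF, hrep, hwr, hcr, hmt⟩ := (G k).sol.2.2.2 (c1.1 ∪ P, c1.2 ∪ N)
      Finset.subset_union_left Finset.subset_union_left (by
        refine ⟨fun z hz => ?_, fun z hz => ?_⟩
        · rcases Finset.mem_union.mp hz with h | h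
          · exact hb1.1 z h
          · exact Finset.mem_range.mp (Finset.mem_product.mp (Finset.mem_filter.mp h).1).1
        · rcases Finset.mem_union.mp hz with h | h
          · exact hb1.2 z h
          · exact Finset.mem_range.mp (Finset.mem_product.mp (Finset.mem_filter.mp h).1).1)
      ⟨zw q3 w, by
        refine ⟨fun z hz => ?_, fun z hz => ?_⟩
        · rcases Finset.mem_union.mp hz with h | h
          · exact hm1.1 z h
          · exact (Finset.mem_filter.mp h).2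
        · rcases Finset.mem_union.mp hz with h | h
          · exact hm1.2 z h
          · exact (Finset.mem_filter.mp h).2⟩ q3 (le_trans hq3 hωq) default
    refine ⟨r, le_trans hr (up_le _ _), y, hF, ?_⟩
    intro i hi
    have hi' : i < t'.length := by
      show i < (G k).b.1.length
      have := hlen k
      omega
    have hg : t'[i]? = some t'[i] := List.getElem?_eq_getElem hi'
    have hxi := hx k i _ hg
    have hyi := hrep.eq i _ hg
    have hval := (G k).sol.1 t'[i] (List.getElem_mem hi')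
    have hold := (G k).bel.1 t'[i] (List.getElem_mem hi')
    have hqr : q.d ≤ r.d := (hωq).1.trans (hq3.1.trans hr.1)
    rw [hxi, hyi]
    rcases hu' : t'[i].1 with γ | j
    · have hγ : γ < r.d := (hold γ hu').trans_le hqr
      simp only [val, hu', Sum.elim_inl, id]
      exact ⟨hγ, hγ, trivial, fun κ hκ => ⟨rk_bel.mono _ _ _ hr.1 (haq κ hκ), trivial⟩⟩
    · have hj : j < t'.length := hval j hu'
      have hjw : w j < rω.d := by
        rw [hw k j hj]
        exact ((G k).ge j hj).2.1.trans_le (hrω k).1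
      have hjw3 : w j < q3.d := hjw.trans_le hq3.1
      simp only [val, hu', Sum.elim_inr]
      refine ⟨hjw3.trans_le hr.1, hwr j hj, trivial, fun κ hκ =>
        ⟨rk_bel.mono _ _ _ hr.1 (haq κ hκ), ?_⟩⟩
      have hmem : (j, κ) ∈ (Finset.range t'.length) ×ˢ a :=
        Finset.mem_product.mpr ⟨Finset.mem_range.mpr hj, hκ⟩
      rw [Pc.agree hr hjw3 (haq κ hκ)]
      by_cases hzz : zw q3 w (j, κ) = true
      · have h1 := hmt.1 (j, κ) (Finset.mem_union_right _ (Finset.mem_filter.mpr ⟨hmem, hzz⟩))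
        exact h1.trans hzz.symm
      · rw [Bool.not_eq_true] at hzz
        have h1 := hmt.2 (j, κ) (Finset.mem_union_right _ (Finset.mem_filter.mpr ⟨hmem, hzz⟩))
        exact h1.trans hzz.symm
  · intro i hi j hj hij
    have hi' : i < (G 0).b.1.length := hi
    have hj' : j < (G 0).b.1.length := hj
    rw [hw 0 i hi', hw 0 j hj'] at hij
    exact (G 0).inj hi' hj' hij
  · intro j hj
    have hj' : j < (G 0).b.1.length := hj
    rw [hw 0 j hj']
    exact hαq.trans (hlt.le.trans ((G 0).ge j hj').1)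
  · intro i v hv
    exact hx 0 i v hv
  · intro j hj
    have hj' : j < (G 0).b.1.length := hj
    rw [hw 0 j hj']
    exact ((G 0).ge j hj').2.2
  · intro j hj
    have hj' : j < (G 0).b.1.length := hj
    rw [hw 0 j hj']
    exact ((G 0).ge j hj').2.1.trans_le (hrω 0).1
  · exact cbel_mono hbq.2 hωq.1

/-- The property used in the final closing off. -/
def CapF (Fo : Pc → (ℕ → W × ℕ) → Prop) (q : Pc) (b : Cd × Cnd (ℕ × K)) (α : W)
    (Y : ℕ → ℕ → W × ℕ) (V : ℕ → ℕ → W) : Prop :=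
  (∀ l, Fo q (Y l)) ∧ (∀ l i u, b.1[i]? = some u → Y l i = val (V l) u) ∧
  (∀ l, ∀ j < b.1.length, V l j < q.d) ∧ Bd b.1 b.2 ∧ cbel b.2 q.d ∧
  (∀ l, Mt b.2 (zw q (V l))) ∧
  ∀ r ≤ q, ∀ (b1 : Finset K) (f : ℕ → K → Bool), (∀ κ ∈ b1, ¬ bel κ α) →
    ∃ l, ∀ j < b.1.length, ∀ κ ∈ b1, zm r.g (V l j) κ = f j κ

theorem CapF.mono (hm : ∀ p q x, q ≤ p → Fo p x → Fo q x) {q q' : Pc}
    {b : Cd × Cnd (ℕ × K)} {α : W} {Y : ℕ → ℕ → W × ℕ} {V : ℕ → ℕ → W} (hq : q' ≤ q)
    (h : CapF Fo q b α Y V) : CapF Fo q' b α Y V := by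
  obtain ⟨h1, h2, h3, h4, h5, h6, h7⟩ := h
  refine ⟨fun l => hm _ _ _ hq (h1 l), h2, fun l j hj => (h3 l j hj).trans_le hq.1, h4,
    cbel_mono h5 hq.1, fun l => ?_, fun r hr => h7 r (le_trans hr hq)⟩
  refine zw_agree hq ?_ h5 (h6 l)
  intro x hx
  refine h3 l _ ?_
  rcases hx with hx | hx
  · exact h4.1 x hx
  · exact h4.2 x hx

/-- Lemma D. -/
theorem exists_capF (hm : ∀ p q x, q ≤ p → Fo p x → Fo q x) {p0 : Pc}
    (hcl : ∀ p ≤ p0, ∀ x, (∀ (k : ℕ) (a : Finset K), ∀ q ≤ p, ∃ r ≤ q, ∃ y, Fo r y ∧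
      NearAt r k a x y) → Fo p x)
    {p : Pc} (hp : p ≤ p0) {t : Cd} {c : Cnd (ℕ × K)} (hv : Val t) (hb : Bd t c)
    (hB : BigF Fo p t c) : ∃ q ≤ p, ∃ α Y V, CapF Fo q (t, c) α Y V := by
  classical
  obtain ⟨p1, hp1, c', h1, h2, hs⟩ := exists_solidF hv hb hB
  let S0 := {q : Pc // q ≤ p1}
  have hone : ∀ q : S0, ∃ q' : S0, q'.1 ≤ q.1 ∧ ∃ x w, Fo q'.1 x ∧ Rep q.1.d x t w ∧
      (∀ j < t.length, ¬ T (w j)) ∧ (∀ j < t.length, w j < q'.1.d) ∧ cbel c' q'.1.d ∧
      Mt c' (zw q'.1 w) := by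
    rintro ⟨q, hq⟩
    obtain ⟨q', hq', h'⟩ := starF hm hcl (le_trans hq (le_trans hp1 hp)) (hs.mono hq) q.d
    exact ⟨⟨q', le_trans hq' hq⟩, hq', h'⟩
  choose f hf1 X V hF hrep hnT hlt hcb hmt using hone
  let s : ℕ → S0 := fun n => Nat.rec ⟨p1, le_refl _⟩ (fun n q => f q) n
  have hs' : ∀ n, s (n + 1) = f (s n) := fun n => rfl
  have hdes : ∀ n, (s (n + 1)).1 ≤ (s n).1 := fun n => by rw [hs']; exact hf1 _
  have hanti : ∀ m n, m ≤ n → (s n).1 ≤ (s m).1 := by
    intro m n h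
    induction n, h using Nat.le_induction with
    | base => exact le_refl _
    | succ n _ ih => exact le_trans (hdes n) ih
  obtain ⟨qω, hqω, _⟩ := exists_lim (fun n => (s n).1) hdes
  let Vs : ℕ → ℕ → W := fun l => V (s l)
  let q := put qω (default, default, Vs)
  have hqq : q ≤ qω := put_le _ _
  have hqp1 : q ≤ p1 := le_trans hqq (hqω 0)
  have hql : ∀ l, q ≤ (f (s l)).1 := fun l => by
    rw [← hs']; exact le_trans hqq (hqω (l + 1))
  have hVlt : ∀ l l', l < l' → ∀ j < t.length, ∀ j' < t.length, Vs l j < Vs l' j' := by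
    intro l l' hll j hj j' hj'
    have a1 : Vs l j < (s (l + 1)).1.d := by rw [hs']; exact hlt (s l) j hj
    have a2 : (s (l + 1)).1.d ≤ (s l').1.d := (hanti _ _ hll).1
    have a3 : (s l').1.d ≤ Vs l' j' := (hrep (s l')).ge j' hj'
    exact a1.trans_le (a2.trans a3)
  have hVω : ∀ l, ∀ j < t.length, Vs l j < qω.d := by
    intro l j hj
    have a1 : Vs l j < (s (l + 1)).1.d := by rw [hs']; exact hlt (s l) j hj
    exact a1.trans_le (hqω (l + 1)).1
  refine ⟨q, le_trans hqp1 hp1, q.d, fun l => X (s l), Vs, ?_, ?_, ?_, hb, ?_, ?_, ?_⟩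
  · exact fun l => hm _ _ _ (hql l) (hF (s l))
  · exact fun l i u hu => (hrep (s l)).eq i u hu
  · exact fun l j hj => (hVω l j hj).trans_le hqq.1
  · have hc := cbel_mono (hcb (s 0)) (hql 0).1
    exact ⟨fun x hx => hc.1 x (h1 hx), fun x hx => hc.2 x (h2 hx)⟩
  · intro l
    have a1 : Mt c (zw (f (s l)).1 (V (s l))) := (hmt (s l)).mono h1 h2
    have hc := hcb (s l)
    refine zw_agree (hql l) ?_ ⟨fun x hx => hc.1 x (h1 hx), fun x hx => hc.2 x (h2 hx)⟩ a1
    intro x hx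
    refine hlt (s l) _ ?_
    rcases hx with hx | hx
    · exact hb.1 x hx
    · exact hb.2 x hx
  · intro r hr b1 ff hb1
    have hrq : r.g qω.d = (default, default, Vs) := put_at hr
    have key := zm_pat r.g qω.d q.d t.length
    rw [hrq] at key
    exact key (fun l => (hrep (s l)).inj) (by
      intro l l' hne j hj j' hj'
      rcases lt_or_gt_of_ne hne with h | h
      · exact (hVlt l l' h j hj j' hj').ne
      · exact (hVlt l' l h j' hj' j hj).ne') (fun l j hj => hnT (s l) j hj)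
      (fun l j hj => (hVω l j hj).trans_le hqq.1) (lt_put _ _) b1 ff hb1

/-- The core theorem. -/
theorem coreF (hm : ∀ p q x, q ≤ p → Fo p x → Fo q x) {p0 : Pc}
    (hcl : ∀ p ≤ p0, ∀ x, (∀ (k : ℕ) (a : Finset K), ∀ q ≤ p, ∃ r ≤ q, ∃ y, Fo r y ∧
      NearAt r k a x y) → Fo p x) {p : Pc} (hp : p ≤ p0) :
    ∃ q ≤ p, ∃ en : ℕ → ℕ → W × ℕ, ∀ r ≤ q, ∀ x, Fo r x → ∀ (k : ℕ) (a : Finset K),
      ∃ r' ≤ r, ∃ i, Fo r' (en i) ∧ NearAt r' k a x (en i) := by
  classical
  let O := W × (ℕ → ℕ → W × ℕ) × (ℕ → ℕ → W)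
  let R : Pc → Cd × Cnd (ℕ × K) → O → Prop := fun q b o => Val b.1 → Bd b.1 b.2 →
    ¬ Poss Fo q b.1 b.2 o.1 ∨ CapF Fo q b o.1 o.2.1 o.2.2
  obtain ⟨q, hq, hR⟩ := co rk_bb R (by
    intro q q' b o hqq hr h1 h2
    rcases hr h1 h2 with h | h
    · exact Or.inl fun h' => h (h'.mono hqq le_rfl)
    · exact Or.inr (h.mono hm hqq)) (fun o => o.1) p (by
    rintro q hq ⟨t, c⟩
    by_cases h : Val t ∧ Bd t c
    · by_cases hB : BigF Fo q t c
      · obtain ⟨q', hq', α, Y, V, hcap⟩ := exists_capF hm hcl (le_trans hq hp) h.1 h.2 hB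
        exact ⟨q', hq', (α, Y, V), fun _ _ => Or.inr hcap⟩
      · unfold BigF at hB
        push Not at hB
        obtain ⟨q', hq', α, hα⟩ := hB
        exact ⟨q', hq', (α, default, default), fun _ _ => Or.inl hα⟩
    · exact ⟨q, le_refl _, default, fun h1 h2 => absurd ⟨h1, h2⟩ h⟩)
  choose o ho1 ho2 using fun b : {b // bb b q.d} => hR b.1 b.2
  let DS : Set (ℕ → W × ℕ) := ⋃ b : {b // bb b q.d}, Set.range (o b).2.1
  have hDS : DS.Countable := by
    have : Countable {b // bb b q.d} := (rk_bb.cnt q.d).to_subtype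
    exact Set.countable_iUnion fun b => Set.countable_range _
  obtain ⟨en, hen⟩ : ∃ en : ℕ → ℕ → W × ℕ, ∀ y ∈ DS, ∃ i, en i = y := by
    rcases DS.eq_empty_or_nonempty with h | h
    · exact ⟨default, by rw [h]; simp⟩
    · obtain ⟨en, hen⟩ := hDS.exists_eq_range h
      refine ⟨en, fun y hy => ?_⟩
      rw [hen] at hy
      exact hy
  refine ⟨q, hq, en, ?_⟩
  intro r hr x hF k a
  obtain ⟨t, w, h1, h2, h3, h4⟩ := exists_rep q.d x k
  choose κd hκd using fun κ : K => rk_bel.ex κ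
  obtain ⟨δa, hδa⟩ := bdd_fun (a : Set K) a.finite_toSet.countable κd
  obtain ⟨δw, hδw⟩ := bdd_fun (Set.Iio t.length) (Set.to_countable _) w
  obtain ⟨δx, hδx⟩ := bdd_fun (Set.Iio k) (Set.to_countable _) (fun i => (x i).1)
  let r' : Pc := up (up (up r δa) δw) δx
  have hr' : r' ≤ r := le_trans (up_le _ _) (le_trans (up_le _ _) (up_le _ _))
  have haq : ∀ κ ∈ a, bel κ r'.d := fun κ hκ => rk_bel.mono _ _ _
    ((hδa κ hκ).le.trans ((le_up _ _).trans ((up_le _ _).1.trans (up_le _ _).1))) (hκd κ)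
  have hwr : ∀ j < t.length, w j < r'.d := fun j hj =>
    (hδw j hj).trans_le ((le_up _ _).trans (up_le _ _).1)
  have hxr : ∀ i < k, (x i).1 < r'.d := fun i hi => (hδx i hi).trans_le (le_up _ _)
  let A : Finset (ℕ × K) := (Finset.range t.length) ×ˢ (a.filter (fun κ => bel κ q.d))
  let c : Cnd (ℕ × K) := (A.filter (fun y => zw r' w y = true),
    A.filter (fun y => zw r' w y = false))
  have hA : ∀ y ∈ A, y.1 < t.length ∧ y.2 ∈ a ∧ bel y.2 q.d := by
    intro y hy
    obtain ⟨a1, a2⟩ := Finset.mem_product.mp hy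
    exact ⟨Finset.mem_range.mp a1, (Finset.mem_filter.mp a2).1, (Finset.mem_filter.mp a2).2⟩
  have hbd : Bd t c := ⟨fun y hy => (hA y (Finset.mem_filter.mp hy).1).1,
    fun y hy => (hA y (Finset.mem_filter.mp hy).1).1⟩
  have hmt : Mt c (zw r' w) := ⟨fun y hy => (Finset.mem_filter.mp hy).2,
    fun y hy => (Finset.mem_filter.mp hy).2⟩
  have hbel : cbel c q.d := ⟨fun y hy => ⟨trivial, (hA y (Finset.mem_filter.mp hy).1).2.2⟩,
    fun y hy => ⟨trivial, (hA y (Finset.mem_filter.mp hy).1).2.2⟩⟩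
  have hr'q : r' ≤ q := le_trans hr' hr
  let b : {b // bb b q.d} := ⟨(t, c), h4, hbel⟩
  rcases ho1 b h2 hbd with h | h
  · exact absurd ⟨r', hr'q, x, w, hm _ _ _ hr' hF, h3.mono (ho2 b), hwr,
      cbel_mono hbel hr'q.1, hmt⟩ h
  · obtain ⟨c1, c2, c3, c4, c5, c6, c7⟩ := h
    obtain ⟨l, hl⟩ := c7 r' hr'q (a.filter (fun κ => ¬ bel κ q.d)) (fun j κ => zm r'.g (w j) κ)
      (fun κ hκ hb' => (Finset.mem_filter.mp hκ).2 (rk_bel.mono _ _ _ (ho2 b) hb'))
    obtain ⟨i, hi⟩ := hen ((o b).2.1 l) (Set.mem_iUnion.mpr ⟨b, l, rfl⟩)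
    refine ⟨r', hr', i, ?_, ?_⟩
    · rw [hi]; exact hm _ _ _ hr'q (c1 l)
    · rw [hi]
      intro i' hi'
      have hit : i' < t.length := by omega
      have hg : t[i']? = some t[i'] := List.getElem?_eq_getElem hit
      have hmem := List.getElem_mem hit
      have e1 := c2 l i' _ hg
      have e2 := h3.eq i' _ hg
      refine ⟨hxr i' hi', ?_⟩
      rw [e1, e2]
      rcases hu' : t[i'].1 with γ | j
      · have hγ : γ < r'.d := (h4 _ hmem γ hu').trans_le hr'q.1
        simp only [val, hu', Sum.elim_inl, id]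
        exact ⟨hγ, trivial, fun κ hκ => ⟨haq κ hκ, trivial⟩⟩
      · have hj : j < t.length := h2 _ hmem j hu'
        have hVq : (o b).2.2 l j < q.d := c3 l j hj
        simp only [val, hu', Sum.elim_inr]
        refine ⟨hVq.trans_le hr'q.1, trivial, fun κ hκ => ⟨haq κ hκ, ?_⟩⟩
        by_cases hb' : bel κ q.d
        · have hmemA : (j, κ) ∈ A := Finset.mem_product.mpr
            ⟨Finset.mem_range.mpr hj, Finset.mem_filter.mpr ⟨hκ, hb'⟩⟩
          rw [Pc.agree hr'q hVq hb']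
          by_cases hzz : zw r' w (j, κ) = true
          · have h5 := (c6 l).1 (j, κ) (Finset.mem_filter.mpr ⟨hmemA, hzz⟩)
            exact h5.trans hzz.symm
          · rw [Bool.not_eq_true] at hzz
            have h5 := (c6 l).2 (j, κ) (Finset.mem_filter.mpr ⟨hmemA, hzz⟩)
            exact h5.trans hzz.symm
        · exact hl j hj κ (Finset.mem_filter.mpr ⟨hκ, hb'⟩)

end TK

end Pool.Agent.Lib.MP_44eb6b_gt
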