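import Pool.Agent.Lib.MP_44eb6b_gt.Int.Cf

/-!
Functions of finitely many coordinates belong to the model.
-/

set_option autoImplicit false

namespace SymExt

namespace TK

open Name Topology
open Pool.Agent.Lib.MP_44eb6b_gt Pool.Agent.Lib.MP_44eb6b_gt.TK

variable {C : Set (Name B)} {U : Set B}

/-- The clopen set given by a Boolean function of finitely many indices. -/
theorem exists_clopen (h : Good (triv B) C U) (g : GP C U) (A : Finset (LV (VC C))) :
    ∀ b : (LV (VC C) → Bool) → Bool, (∀ u v, (∀ l ∈ A, u l = v l) → b u = b v) →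
      ∃ S ∈ MN C U, ∀ y : Pt (val C U XN), y.1 ∈ S ↔
        b (phV (vz C U) (vT C) ((ee h g).symm y)) = true := by
  classical
  have hZ : IsZF (MN C U) := h.isZF
  have hXN : val C U XN ∈ MN C U := val_mem g.cX
  induction A using Finset.induction_on with
  | empty =>
    intro b hb
    cases h1 : b (fun _ => false)
    · refine ⟨natSet 0, ModT.natSet_mem' hZ 0, fun y => ?_⟩
      rw [hb (phV (vz C U) (vT C) ((ee h g).symm y)) (fun _ => false) (by simp), h1]
      constructor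
      · intro h2
        exact absurd h2 (ZFSet.notMem_empty _)
      · intro h2
        exact absurd h2 (by simp)
    · refine ⟨val C U XN, hXN, fun y => ?_⟩
      rw [hb (phV (vz C U) (vT C) ((ee h g).symm y)) (fun _ => false) (by simp), h1]
      exact ⟨fun _ => rfl, fun _ => y.2⟩
  | insert l A hl ih =>
    intro b hb
    have hup : ∀ c : Bool, ∀ u v : LV (VC C) → Bool, (∀ l' ∈ A, u l' = v l') →
        b (Function.update u l c) = b (Function.update v l c) := by
      intro c u v huv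
      refine hb _ _ fun l' hl' => ?_
      by_cases h1 : l' = l
      · rw [h1, Function.update_self, Function.update_self]
      · rw [Function.update_of_ne h1, Function.update_of_ne h1]
        rcases Finset.mem_insert.1 hl' with h2 | h2
        · exact absurd h2 h1
        · exact huv l' h2
    obtain ⟨S1, hS1, h1⟩ := ih (fun u => b (Function.update u l true)) (hup true)
    obtain ⟨S0, hS0, h0⟩ := ih (fun u => b (Function.update u l false)) (hup false)
    have hd : ModT.Dfn (MN C U) (fun v : Fin 4 → ZFSet.{0} =>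
        (v 3 ∈ v 0 ∧ v 0 ∈ v 1) ∨ (¬ v 3 ∈ v 0 ∧ v 0 ∈ v 2)) :=
      ModT.dor (ModT.dand (ModT.dmem _ _) (ModT.dmem _ _))
        (ModT.dand (ModT.dnot (ModT.dmem _ _)) (ModT.dmem _ _))
    have hlC := lm_mem h l
    obtain ⟨S, hS, hS'⟩ := ModT.sep_mem hZ hd ![S1, S0, val C U (lN (lm l))] (by
      intro i; fin_cases i
      · exact hS1
      · exact hS0
      · exact val_mem hlC) hXN
    refine ⟨S, hS, fun y => ?_⟩
    have hml := mem_ee h g ((ee h g).symm y) l
    rw [Equiv.apply_symm_apply] at hml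
    set ph := phV (vz C U) (vT C) ((ee h g).symm y) with hph
    have key : y.1 ∈ S ↔ (val C U (lN (lm l)) ∈ y.1 ∧ y.1 ∈ S1) ∨
        (¬ val C U (lN (lm l)) ∈ y.1 ∧ y.1 ∈ S0) := by
      rw [hS' y.1]
      exact ⟨fun h2 => h2.2, fun h2 => ⟨y.2, h2⟩⟩
    rw [key, hml, h1 y, h0 y]
    cases h2 : ph l
    · have h3 : Function.update ph l false = ph := by
        rw [← h2]; exact Function.update_eq_self _ _
      rw [h3]
      simp
    · have h3 : Function.update ph l true = ph := by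
        rw [← h2]; exact Function.update_eq_self _ _
      rw [h3]
      simp

/-- The characteristic functions belong to the model. -/
theorem exists_tf (h : Good (triv B) C U) (g : GP C U) (A : Finset (LV (VC C)))
    (b : (LV (VC C) → Bool) → Bool) (hb : ∀ u v, (∀ l ∈ A, u l = v l) → b u = b v) :
    ∃ c ∈ MN C U, CodeFun (fun y : Pt (val C U XN) =>
      if b (phV (vz C U) (vT C) ((ee h g).symm y)) = true then (1 : ℝ) else 0) c := by
  classical
  have hZ : IsZF (MN C U) := h.isZF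
  have hXN : val C U XN ∈ MN C U := val_mem g.cX
  have hRN : val C U RN ∈ MN C U := val_mem g.cR
  obtain ⟨S, hS, hS'⟩ := exists_clopen h g A b hb
  obtain ⟨W', hW, hW'⟩ := ModT.stProd hZ _ hXN _ hRN
  have h1N := realC_mem h g.r1
  have h0N := realC_mem h g.r0
  have hd : ModT.Dfn (MN C U) (fun v : Fin 4 → ZFSet.{0} => ∃ x ∈ MN C U,
      (x ∈ v 1 ∧ v 0 = ZFSet.pair x (v 2)) ∨ (¬ x ∈ v 1 ∧ v 0 = ZFSet.pair x (v 3))) :=
    ModT.dex (ModT.dor (ModT.dand (ModT.dmem _ _) (ModT.dopair hZ _ _ _))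
      (ModT.dand (ModT.dnot (ModT.dmem _ _)) (ModT.dopair hZ _ _ _)))
  obtain ⟨c, hc, hc'⟩ := ModT.sep_mem hZ hd ![S, realC 1, realC 0] (by
    intro i; fin_cases i
    · exact hS
    · exact h1N
    · exact h0N) hW
  refine ⟨c, hc, ?_⟩
  generalize hF : (fun y : Pt (val C U XN) =>
    if b (phV (vz C U) (vT C) ((ee h g).symm y)) = true then (1 : ℝ) else 0) = F
  have hF1 : ∀ y : Pt (val C U XN), y.1 ∈ S → F y = 1 := fun y hy => by
    rw [← hF]
    exact if_pos ((hS' y).1 hy)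
  have hF0 : ∀ y : Pt (val C U XN), ¬ y.1 ∈ S → F y = 0 := fun y hy => by
    rw [← hF]
    exact if_neg fun h5 => hy ((hS' y).2 h5)
  intro z
  rw [hc' z, hW' z]
  constructor
  · rintro ⟨⟨x, hx, r, hr, rfl⟩, x', _, h1⟩
    change (x' ∈ S ∧ ZFSet.pair x r = ZFSet.pair x' (realC 1)) ∨
      (¬ x' ∈ S ∧ ZFSet.pair x r = ZFSet.pair x' (realC 0)) at h1
    obtain ⟨x0, rfl⟩ : ∃ x0 : Pt (val C U XN), x0.1 = x := ⟨⟨x, hx⟩, rfl⟩
    refine ⟨x0, ?_⟩
    rcases h1 with ⟨h3, h4⟩ | ⟨h3, h4⟩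
    · obtain ⟨rfl, rfl⟩ := ZFSet.pair_inj.1 h4
      rw [hF1 x0 h3]
    · obtain ⟨rfl, rfl⟩ := ZFSet.pair_inj.1 h4
      rw [hF0 x0 h3]
  · rintro ⟨x, rfl⟩
    have hxN : x.1 ∈ MN C U := hZ.trans _ hXN _ x.2
    by_cases h3 : x.1 ∈ S
    · rw [hF1 x h3]
      exact ⟨⟨x.1, x.2, _, (mem_RN h).2 ⟨1, g.r1, rfl⟩, rfl⟩, x.1, hxN,
        Or.inl ⟨h3, rfl⟩⟩
    · rw [hF0 x h3]
      exact ⟨⟨x.1, x.2, _, (mem_RN h).2 ⟨0, g.r0, rfl⟩, rfl⟩, x.1, hxN,
        Or.inr ⟨h3, rfl⟩⟩

end TK

end SymExt
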