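import Pool.Agent.Lib.MP_44eb6b_gt.Int.Pair
import Pool.Agent.Lib.MP_694cb9_lc.SName

/-!
The values of the names.
-/

set_option autoImplicit false

namespace SymExt

namespace TK

open Name
open Pool.Agent.Lib.MP_44eb6b_gt Pool.Agent.Lib.MP_44eb6b_gt.TK

variable {C : Set (Name B)} {U : Set B}

theorem compat_U (h : Good (triv B) C U) {p q : Pc} (hp : eB p ∈ U) (hq : eB q ∈ U) :
    ∃ r, r ≤ p ∧ r ≤ q := by
  refine dense_eB.compat _ _ fun h1 => h.bot ?_
  rw [← h1]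
  exact h.inf _ hp _ hq

theorem exists_up (g : GP C U) (bs : List W) (hb : ∀ β ∈ bs, wN β ∈ C) :
    ∃ p, eB p ∈ U ∧ ∀ β ∈ bs, β < p.d := by
  induction bs with
  | nil =>
    obtain ⟨p, hp, _⟩ := g.ht _ g.w0
    exact ⟨p, hp, by simp⟩
  | cons a t ih =>
    obtain ⟨p, hp, h1⟩ := ih fun β hβ => hb β (List.mem_cons_of_mem _ hβ)
    obtain ⟨q, hq, h2⟩ := g.ht _ (hb a List.mem_cons_self)
    rcases le_total p.d q.d with h3 | h3
    · refine ⟨q, hq, fun β hβ => ?_⟩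
      rcases List.mem_cons.1 hβ with rfl | hβ
      · exact h2
      · exact (h1 β hβ).trans_le h3
    · refine ⟨p, hp, fun β hβ => ?_⟩
      rcases List.mem_cons.1 hβ with rfl | hβ
      · exact h2.trans_le h3
      · exact h1 β hβ

open Classical in
/-- The generic matrix. -/
noncomputable def zG (U : Set B) (α : W) (κ : K) : Bool :=
  decide (∃ p, eB p ∈ U ∧ α < p.d ∧ bel κ p.d ∧ zm p.g α κ = true)

theorem zG_eq (h : Good (triv B) C U) {p : Pc} (hp : eB p ∈ U) {α : W} {κ : K} (hα : α < p.d)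
    (hκ : bel κ p.d) : zG U α κ = zm p.g α κ := by
  classical
  cases h1 : zm p.g α κ
  · refine decide_eq_false ?_
    rintro ⟨q, h2, h3, h4, h5⟩
    obtain ⟨r, h6, h7⟩ := compat_U h hp h2
    have e1 := Pc.agree h6 hα hκ
    have e2 := Pc.agree h7 h3 h4
    rw [h5] at e2
    rw [h1, e2] at e1
    exact absurd e1 (by simp)
  · exact decide_eq_true ⟨p, hp, hα, hκ, h1⟩

theorem zG_ne (h : Good (triv B) C U) (g : GP C U) {α β : W} (hα : wN α ∈ C) (hβ : wN β ∈ C)
    (hne : α ≠ β) : ∃ n : ℕ, zG U α (Sum.inl n) ≠ zG U β (Sum.inl n) := by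
  obtain ⟨p, hp, h1⟩ := exists_up g [α, β] (by
    intro γ hγ
    simp only [List.mem_cons, List.not_mem_nil, or_false] at hγ
    rcases hγ with rfl | rfl
    · exact hα
    · exact hβ)
  obtain ⟨n, hn⟩ := zm_ne p.g hne
  refine ⟨n, ?_⟩
  rw [zG_eq h hp (κ := Sum.inl n) (h1 α (by simp)) trivial,
    zG_eq h hp (κ := Sum.inl n) (h1 β (by simp)) trivial]
  exact hn

theorem zG_T (h : Good (triv B) C U) (g : GP C U) {α : W} (hα : wN α ∈ C) (hT : T α) :
    zG U α (Sum.inr α) = true := by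
  obtain ⟨p, hp, h1⟩ := g.ht α hα
  rw [zG_eq h hp h1 (show bel (Sum.inr α) p.d from h1)]
  exact zm_T hT

theorem zG_T' (h : Good (triv B) C U) (g : GP C U) {α ξ : W} (hξ : wN ξ ∈ C)
    (hT : T α) (hlt : α < ξ) : zG U α (Sum.inr ξ) = false := by
  obtain ⟨p, hp, h1⟩ := g.ht ξ hξ
  rw [zG_eq h hp (hlt.trans h1) (show bel (Sum.inr ξ) p.d from h1)]
  exact zm_T' hT hlt

/-! ### Indices -/

/-- The tag of an index. -/
def tagL : LV W → ℕ
  | Sum.inl (Sum.inl _) => 0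
  | Sum.inl (Sum.inr _) => 1
  | Sum.inr (Sum.inl (Sum.inl _)) => 2
  | Sum.inr (Sum.inl (Sum.inr _)) => 3
  | Sum.inr (Sum.inr _) => 4

/-- The argument of an index. -/
noncomputable def argL : LV W → Name B
  | Sum.inl (Sum.inl n) => natN n
  | Sum.inl (Sum.inr n) => natN n
  | Sum.inr (Sum.inl (Sum.inl n)) => natN n
  | Sum.inr (Sum.inl (Sum.inr β)) => wN β
  | Sum.inr (Sum.inr β) => wN β

theorem lN_eq (l : LV W) : lN l = opN (natN (tagL l)) (argL l) := by
  rcases l with (n | n) | ((n | β) | β) <;> rfl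

/-- The ordinals of an index. -/
def ordL : LV W → List W
  | Sum.inl (Sum.inl _) => []
  | Sum.inl (Sum.inr _) => []
  | Sum.inr (Sum.inl (Sum.inl _)) => []
  | Sum.inr (Sum.inl (Sum.inr β)) => [β]
  | Sum.inr (Sum.inr β) => [β]

theorem ordL_mem (g : GP C U) {l : LV W} (hl : lN l ∈ C) : ∀ β ∈ ordL l, wN β ∈ C := by
  have h1 : argL l ∈ C := by
    rw [lN_eq] at hl
    exact (g.unop _ _ hl).2
  rcases l with (n | n) | ((n | β) | β) <;> simp [ordL]
  · exact h1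
  · exact h1

theorem mem_of_ordL (h : Good (triv B) C U) {l : LV W} (hl : ∀ β ∈ ordL l, wN β ∈ C) :
    lN l ∈ C := by
  rw [lN_eq]
  refine h.opN_mem (h.nat _) ?_
  rcases l with (n | n) | ((n | β) | β)
  · exact h.nat _
  · exact h.nat _
  · exact h.nat _
  · exact hl β (by simp [ordL])
  · exact hl β (by simp [ordL])

theorem lbel_of {l : LV W} {δ : W} (hl : ∀ β ∈ ordL l, β < δ) : lbel l δ := by
  rcases l with (n | n) | ((n | β) | β)
  · trivial
  · trivial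
  · trivial
  · exact hl β (by simp [ordL])
  · exact hl β (by simp [ordL])

theorem bph_iff (h : Good (triv B) C U) (g : GP C U) {x : W × ℕ} (hx : wN x.1 ∈ C) {l : LV W}
    (hl : lN l ∈ C) : bph x l ∈ U ↔ phV (zG U) T x l = true := by
  obtain ⟨p, hp, h1⟩ := exists_up g (x.1 :: ordL l) (by
    intro β hβ
    rcases List.mem_cons.1 hβ with rfl | hβ
    · exact hx
    · exact ordL_mem g hl β hβ)
  have h2 : x.1 < p.d := h1 _ List.mem_cons_self
  have h3 : lbel l p.d := lbel_of fun β hβ => h1 β (List.mem_cons_of_mem _ hβ)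
  have h4 : phV (zG U) T x l = phV (zm p.g) T x l :=
    ph_congr (fun α hα κ hκ => zG_eq h hp hα hκ) h2 h3
  rw [h4]
  cases h5 : phV (zm p.g) T x l
  · have h6 := h.up _ hp _ (bph_neg h2 h3 h5)
    exact ⟨fun h7 => absurd h6 (h.not_compl h7), fun h7 => by simp at h7⟩
  · exact ⟨fun _ => rfl, fun _ => h.up _ hp _ (bph_pos h2 h3 h5)⟩

theorem val_wN_inj (h : Good (triv B) C U) {α β : W} (hα : wN α ∈ C) (hβ : wN β ∈ C)
    (he : val C U (wN α) = val C U (wN β)) : α = β := by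
  have h1 := val_ordN_inj h.top hα hβ he
  exact Ordinal.ToType.mk.symm.injective (Subtype.ext h1)

theorem val_lN (h : Good (triv B) C U) (g : GP C U) {l : LV W} (hl : lN l ∈ C) :
    val C U (lN l) = ZFSet.pair (natSet (tagL l)) (val C U (argL l)) := by
  rw [lN_eq] at hl ⊢
  rw [h.val_opN (h.nat _) (g.unop _ _ hl).2, h.val_natN]

theorem val_lN_inj (h : Good (triv B) C U) (g : GP C U) {l l' : LV W} (hl : lN l ∈ C)
    (hl' : lN l' ∈ C) (he : val C U (lN l) = val C U (lN l')) : l = l' := by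
  have o1 := ordL_mem g hl
  have o2 := ordL_mem g hl'
  rw [val_lN h g hl, val_lN h g hl'] at he
  obtain ⟨h1, h2⟩ := ZFSet.pair_inj.1 he
  have h3 := natSet_inj h1
  rcases l with (n | n) | ((n | β) | β) <;> rcases l' with (m | m) | ((m | γ) | γ) <;>
    simp only [tagL] at h3 <;> try omega
  · simp only [argL, h.val_natN] at h2
    rw [natSet_inj h2]
  · simp only [argL, h.val_natN] at h2
    rw [natSet_inj h2]
  · simp only [argL, h.val_natN] at h2
    rw [natSet_inj h2]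
  · simp only [argL] at h2
    rw [val_wN_inj h (o1 β (by simp [ordL])) (o2 γ (by simp [ordL])) h2]
  · simp only [argL] at h2
    rw [val_wN_inj h (o1 β (by simp [ordL])) (o2 γ (by simp [ordL])) h2]

/-! ### Points -/

theorem mem_pt (h : Good (triv B) C U) (g : GP C U) {x : W × ℕ} (hx : wN x.1 ∈ C) {z : ZFSet.{0}} :
    z ∈ val C U (ptX x) ↔ ∃ l, lN l ∈ C ∧ phV (zG U) T x l = true ∧ z = val C U (lN l) := by
  rw [mem_val]
  constructor
  · rintro ⟨l, h1, h2, h3⟩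
    exact ⟨l, h1, (bph_iff h g hx h1).1 h2, h3⟩
  · rintro ⟨l, h1, h2, h3⟩
    exact ⟨l, h1, (bph_iff h g hx h1).2 h2, h3⟩

theorem lN_mem_pt (h : Good (triv B) C U) (g : GP C U) {x : W × ℕ} (hx : wN x.1 ∈ C) {l : LV W}
    (hl : lN l ∈ C) : val C U (lN l) ∈ val C U (ptX x) ↔ phV (zG U) T x l = true := by
  rw [mem_pt h g hx]
  constructor
  · rintro ⟨l', h1, h2, h3⟩
    rwa [val_lN_inj h g hl h1 h3]
  · intro h1
    exact ⟨l, hl, h1, rfl⟩

theorem mem_XN (h : Good (triv B) C U) (g : GP C U) {z : ZFSet.{0}} :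
    z ∈ val C U XN ↔ ∃ x : W × ℕ, wN x.1 ∈ C ∧ z = val C U (ptX x) := by
  rw [mem_val]
  constructor
  · rintro ⟨x, h1, _, h3⟩
    exact ⟨x, g.unpt x h1, h3⟩
  · rintro ⟨x, h1, h3⟩
    exact ⟨x, g.pt _ _ h1, h.top, h3⟩

theorem mem_seqN (h : Good (triv B) C U) (g : GP C U) {F : ℕ → Name B} (hF : seqN F ∈ C)
    {z : ZFSet.{0}} : z ∈ val C U (seqN F) ↔ ∃ n, z = ZFSet.pair (natSet n) (val C U (F n)) := by
  have hn : ∀ n, F n ∈ C := g.useq F hF
  have hv : ∀ n, val C U (opN (natN n) (F n)) = ZFSet.pair (natSet n) (val C U (F n)) := fun n => by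
    rw [h.val_opN (h.nat n) (hn n), h.val_natN]
  rw [mem_val]
  constructor
  · rintro ⟨n, -, -, h3⟩
    exact ⟨n, h3.trans (hv n)⟩
  · rintro ⟨n, h3⟩
    exact ⟨n, h.opN_mem (h.nat n) (hn n), h.top, h3.trans (hv n).symm⟩

theorem pair_mem_seqN (h : Good (triv B) C U) (g : GP C U) {F : ℕ → Name B} (hF : seqN F ∈ C)
    {n : ℕ} {z : ZFSet.{0}} : ZFSet.pair (natSet n) z ∈ val C U (seqN F) ↔ z = val C U (F n) := by
  rw [mem_seqN h g hF]
  constructor
  · rintro ⟨m, hm⟩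
    obtain ⟨h1, h2⟩ := ZFSet.pair_inj.1 hm
    rw [natSet_inj h1, h2]
  · rintro rfl
    exact ⟨n, rfl⟩

/-! ### Reals -/

theorem mem_aN (h : Good (triv B) C U) {s : Set ℕ} {z : ZFSet.{0}} :
    z ∈ val C U (aN s) ↔ ∃ n ∈ s, z = natSet n := by
  classical
  rw [mem_val]
  constructor
  · rintro ⟨n, -, h2, h3⟩
    by_cases hn : n ∈ s
    · exact ⟨n, hn, h3.trans (h.val_natN n)⟩
    · have h4 : (aN s).wt n = ⊥ := if_neg hn
      rw [h4] at h2
      exact absurd h2 h.bot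
  · rintro ⟨n, h1, h2⟩
    refine ⟨n, h.nat n, ?_, h2.trans (h.val_natN n).symm⟩
    have h4 : (aN s).wt n = ⊤ := if_pos h1
    rw [h4]
    exact h.top

theorem mem_realC {r : ℝ} {z : ZFSet.{0}} : z ∈ realC r ↔ ∃ n ∈ cutS r, z = natSet n := by
  unfold realC
  rw [ZFSet.mem_sep, mem_omega_iff]
  constructor
  · rintro ⟨_, q, h1, h2⟩
    exact ⟨_, ⟨q, h1, rfl⟩, h2⟩
  · rintro ⟨n, ⟨q, h1, rfl⟩, h2⟩
    exact ⟨⟨_, h2⟩, q, h1, h2⟩

theorem nat_mem_realC {r : ℝ} {n : ℕ} : natSet n ∈ realC r ↔ n ∈ cutS r := by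
  rw [mem_realC]
  constructor
  · rintro ⟨m, h1, h2⟩
    rwa [natSet_inj h2]
  · intro h1
    exact ⟨n, h1, rfl⟩

theorem realC_inj {r s : ℝ} (h : realC r = realC s) : r = s := by
  apply cutS_inj
  ext n
  rw [← nat_mem_realC, ← nat_mem_realC, h]

theorem val_rN (h : Good (triv B) C U) (r : ℝ) : val C U (rN r) = realC r := by
  ext z
  rw [rN, mem_aN h, mem_realC]

/-- The reals of the model have names. -/
theorem rN_mem (h : Good (triv B) C U) (g : GP C U) {r : ℝ} (hr : realC r ∈ model (triv B) C U) :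
    rN r ∈ C := by
  obtain ⟨τ, hτ, _, hv⟩ := hr
  obtain ⟨s, hs, h1⟩ := g.sub τ hτ
  have h2 : s = cutS r := by
    ext n
    rw [h1, h.bmem_iff (h.nat n) hτ, h.val_natN, ← hv, nat_mem_realC]
  rw [rN, ← h2]
  exact hs

theorem realC_mem (h : Good (triv B) C U) {r : ℝ} (hr : rN r ∈ C) :
    realC r ∈ model (triv B) C U := ⟨rN r, hr, (stAC B).1 _, (val_rN h r).symm⟩

theorem mem_RN (h : Good (triv B) C U) {z : ZFSet.{0}} :
    z ∈ val C U RN ↔ ∃ r, rN r ∈ C ∧ z = realC r := by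
  rw [mem_val]
  constructor
  · rintro ⟨r, h1, _, h3⟩
    exact ⟨r, h1, h3.trans (val_rN h r)⟩
  · rintro ⟨r, h1, h3⟩
    exact ⟨r, h1, h.top, h3.trans (val_rN h r).symm⟩

theorem mem_LtN (h : Good (triv B) C U) {z : ZFSet.{0}} :
    z ∈ val C U LtN ↔ ∃ q q' : ℚ, q < q' ∧
      z = ZFSet.pair (natSet (Encodable.encode q)) (natSet (Encodable.encode q')) := by
  have hv : ∀ m n : ℕ, val C U (opN (natN m) (natN n)) = ZFSet.pair (natSet m) (natSet n) := by
    intro m n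
    rw [h.val_opN (h.nat _) (h.nat _), h.val_natN, h.val_natN]
  rw [mem_val]
  constructor
  · rintro ⟨⟨⟨q, q'⟩, hq⟩, _, _, h3⟩
    exact ⟨q, q', hq, h3.trans (hv _ _)⟩
  · rintro ⟨q, q', hq, h3⟩
    exact ⟨⟨(q, q'), hq⟩, h.opN_mem (h.nat _) (h.nat _), h.top, h3.trans (hv _ _).symm⟩

theorem mem_PsN (h : Good (triv B) C U) (g : GP C U) {z : ZFSet.{0}} :
    z ∈ val C U PsN ↔ ∃ u : ℕ → ℝ, (seqN fun n => rN (u n)) ∈ C ∧
      z = ZFSet.pair (val C U (seqN fun n => rN (u n))) (realC (psiS u)) := by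
  rw [mem_val]
  constructor
  · rintro ⟨u, h1, _, h3⟩
    obtain ⟨h4, h5⟩ := g.unop _ _ h1
    refine ⟨u, h4, h3.trans ?_⟩
    show val C U (opN (seqN fun n => rN (u n)) (rN (psiS u))) = _
    rw [h.val_opN h4 h5, val_rN h]
  · rintro ⟨u, h4, h3⟩
    have h5 := g.psi u h4
    refine ⟨u, h.opN_mem h4 h5, h.top, h3.trans ?_⟩
    show _ = val C U (opN (seqN fun n => rN (u n)) (rN (psiS u)))
    rw [h.val_opN h4 h5, val_rN h]

/-! ### Finite sets of indices -/

theorem liN_finite (t : List (LV W)) : {z | z ∈ val C U (liN t)}.Finite := by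
  induction t with
  | nil =>
    have : {z | z ∈ val C U (liN [])} = ∅ := by
      ext z
      constructor
      · intro hz
        obtain ⟨i, _⟩ := mem_val.1 (show z ∈ val C U (empN : Name B) from hz)
        exact i.elim
      · intro hz
        exact absurd hz (Set.notMem_empty z)
    rw [this]
    exact Set.finite_empty
  | cons l t ih =>
    refine (ih.insert (val C U (lN l))).subset ?_
    intro z hz
    obtain ⟨i, h1, h2, h3⟩ := mem_val.1 (show z ∈ val C U (insN (lN l) (liN t)) from hz)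
    rcases i with _ | i
    · exact Or.inl h3
    · exact Or.inr (mem_val.2 ⟨i, h1, h2, h3⟩)

theorem liN_mem (h : Good (triv B) C U) (g : GP C U) (t : List (LV W)) (ht : ∀ l ∈ t, lN l ∈ C) :
    liN t ∈ C := by
  induction t with
  | nil => exact h.nat 0
  | cons l t ih =>
    exact g.ins _ (ht l List.mem_cons_self) _ (ih fun l' hl' => ht l' (List.mem_cons_of_mem _ hl'))

theorem mem_liN (h : Good (triv B) C U) (t : List (LV W)) (ht : ∀ l ∈ t, lN l ∈ C)
    {z : ZFSet.{0}} : z ∈ val C U (liN t) ↔ ∃ l ∈ t, z = val C U (lN l) := by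
  induction t with
  | nil =>
    constructor
    · intro hz
      obtain ⟨i, _⟩ := mem_val.1 (show z ∈ val C U (empN : Name B) from hz)
      exact i.elim
    · rintro ⟨l, hl, _⟩
      exact absurd hl (List.not_mem_nil)
  | cons l t ih =>
    have h1 : val C U (liN (l :: t)) = insert (val C U (lN l)) (val C U (liN t)) :=
      h.val_insN (ht l List.mem_cons_self)
    rw [h1, ZFSet.mem_insert_iff, ih fun l' hl' => ht l' (List.mem_cons_of_mem _ hl')]
    simp only [List.mem_cons, exists_eq_or_imp]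

theorem mem_FinN (h : Good (triv B) C U) {z : ZFSet.{0}} :
    z ∈ val C U FinN ↔ ∃ t, liN t ∈ C ∧ z = val C U (liN t) := by
  rw [mem_val]
  constructor
  · rintro ⟨t, h1, _, h3⟩
    exact ⟨t, h1, h3⟩
  · rintro ⟨t, h1, h3⟩
    exact ⟨t, h1, h.top, h3⟩

theorem mem_PPN (h : Good (triv B) C U) (g : GP C U) {z : ZFSet.{0}} :
    z ∈ val C U PPN ↔ ∃ α, T α ∧ wN α ∈ C ∧
      z = ZFSet.pair (val C U (wN α)) (val C U (pN α)) := by
  rw [mem_val]
  constructor
  · rintro ⟨⟨α, hα⟩, h1, _, h3⟩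
    obtain ⟨h4, h5⟩ := g.unop _ _ h1
    exact ⟨α, hα, h4, h3.trans (h.val_opN h4 h5)⟩
  · rintro ⟨α, hα, h4, h3⟩
    have h5 := g.pn α h4
    exact ⟨⟨α, hα⟩, h.opN_mem h4 h5, h.top, h3.trans (h.val_opN h4 h5).symm⟩

end TK

end SymExt
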