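import Pool.Agent.Lib.MP_44eb6b_gt.Int.Val

/-!
The topology of the space of the model.
-/

set_option autoImplicit false

namespace SymExt

namespace TK

open Name Topology
open Pool.Agent.Lib.MP_44eb6b_gt Pool.Agent.Lib.MP_44eb6b_gt.TK

variable {C : Set (Name B)} {U : Set B}

/-- The ordinals of the model. -/
abbrev VC (C : Set (Name B)) : Type := {α : W // wN α ∈ C}

/-- The generic matrix of the model. -/
noncomputable def vz (C : Set (Name B)) (U : Set B) (α : VC C) (κ : ℕ ⊕ VC C) : Bool :=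
  zG U α.1 (Sum.map id Subtype.val κ)

/-- The left separated rows. -/
def vT (C : Set (Name B)) (α : VC C) : Prop := T α.1

/-- The indices of the model. -/
def lm (l : LV (VC C)) : LV W :=
  Sum.map id (Sum.map (Sum.map id Subtype.val) Subtype.val) l

theorem ph_lm (x : VC C × ℕ) (l : LV (VC C)) :
    phV (vz C U) (vT C) x l = phV (zG U) T (x.1.1, x.2) (lm l) := by
  rcases l with (n | n) | (κ | β) <;> rfl

theorem lm_mem (h : Good (triv B) C U) (l : LV (VC C)) : lN (lm l) ∈ C := by
  refine mem_of_ordL h ?_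
  rcases l with (n | n) | ((n | β) | β)
  · simp [lm, ordL]
  · simp [lm, ordL]
  · simp [lm, ordL]
  · intro γ hγ
    simp only [lm, Sum.map_inr, Sum.map_inl, ordL, List.mem_singleton] at hγ
    rw [hγ]
    exact β.2
  · intro γ hγ
    simp only [lm, Sum.map_inr, ordL, List.mem_singleton] at hγ
    rw [hγ]
    exact β.2

theorem lm_surj (g : GP C U) {l : LV W} (hl : lN l ∈ C) : ∃ l' : LV (VC C), lm l' = l := by
  have h1 := ordL_mem g hl
  rcases l with (n | n) | ((n | β) | β)
  · exact ⟨Sum.inl (Sum.inl n), rfl⟩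
  · exact ⟨Sum.inl (Sum.inr n), rfl⟩
  · exact ⟨Sum.inr (Sum.inl (Sum.inl n)), rfl⟩
  · exact ⟨Sum.inr (Sum.inl (Sum.inr ⟨β, h1 β (by simp [ordL])⟩)), rfl⟩
  · exact ⟨Sum.inr (Sum.inr ⟨β, h1 β (by simp [ordL])⟩), rfl⟩

theorem vz5 (h : Good (triv B) C U) (g : GP C U) (α β : VC C) (hne : α ≠ β) :
    ∃ n : ℕ, vz C U α (Sum.inl n) ≠ vz C U β (Sum.inl n) :=
  zG_ne h g α.2 β.2 fun he => hne (Subtype.ext he)

theorem pt_inj (h : Good (triv B) C U) (g : GP C U) {x y : W × ℕ} (hx : wN x.1 ∈ C)
    (hy : wN y.1 ∈ C) (he : val C U (ptX x) = val C U (ptX y)) : x = y := by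
  have h1 : ((⟨x.1, hx⟩ : VC C), x.2) = ((⟨y.1, hy⟩ : VC C), y.2) := by
    refine phV_inj (z := vz C U) (T := vT C) (vz5 h g) ?_
    funext l
    rw [ph_lm, ph_lm]
    have h2 := lN_mem_pt h g hx (lm_mem h l)
    have h3 := lN_mem_pt h g hy (lm_mem h l)
    rw [he, h3] at h2
    exact (Bool.eq_iff_iff.2 h2).symm
  obtain ⟨h2, h3⟩ := Prod.mk.inj h1
  exact Prod.ext (congrArg Subtype.val h2) h3

/-- The points. -/
noncomputable def ee0 (h : Good (triv B) C U) (g : GP C U) (x : VC C × ℕ) :
    Pt (val C U XN) :=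
  ⟨val C U (ptX (x.1.1, x.2)), (mem_XN h g).2 ⟨(x.1.1, x.2), x.1.2, rfl⟩⟩

theorem ee0_bij (h : Good (triv B) C U) (g : GP C U) : Function.Bijective (ee0 h g) := by
  constructor
  · intro x y he
    have h1 : val C U (ptX (x.1.1, x.2)) = val C U (ptX (y.1.1, y.2)) := congrArg Subtype.val he
    have h2 := pt_inj h g x.1.2 y.1.2 h1
    obtain ⟨h3, h4⟩ := Prod.mk.inj h2
    exact Prod.ext (Subtype.ext h3) h4
  · rintro ⟨z, hz⟩
    obtain ⟨x, hx, hz'⟩ := (mem_XN h g).1 hz
    exact ⟨(⟨x.1, hx⟩, x.2), Subtype.ext hz'.symm⟩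

/-- The parametrization of the points. -/
noncomputable def ee (h : Good (triv B) C U) (g : GP C U) : VC C × ℕ ≃ Pt (val C U XN) :=
  Equiv.ofBijective (ee0 h g) (ee0_bij h g)

theorem ee_val (h : Good (triv B) C U) (g : GP C U) (x : VC C × ℕ) :
    (ee h g x).1 = val C U (ptX (x.1.1, x.2)) := rfl

theorem mem_ee (h : Good (triv B) C U) (g : GP C U) (x : VC C × ℕ) (l : LV (VC C)) :
    val C U (lN (lm l)) ∈ (ee h g x).1 ↔ phV (vz C U) (vT C) x l = true := by
  rw [ph_lm]
  exact lN_mem_pt h g x.1.2 (lm_mem h l)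

open Classical in
theorem inducing_ee (h : Good (triv B) C U) (g : GP C U) :
    IsInducing fun y => phV (vz C U) (vT C) ((ee h g).symm y) := by
  have hph : ∀ (y : Pt (val C U XN)) (l : LV (VC C)),
      phV (vz C U) (vT C) ((ee h g).symm y) l = decide (val C U (lN (lm l)) ∈ y.1) := by
    intro y l
    have h1 := mem_ee h g ((ee h g).symm y) l
    rw [Equiv.apply_symm_apply] at h1
    rw [Bool.eq_iff_iff, ← h1]
    exact decide_eq_true_iff.symm
  constructor
  apply le_antisymm
  · rw [← continuous_iff_le_induced]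
    refine continuous_pi fun l => ?_
    have h1 : (fun y => phV (vz C U) (vT C) ((ee h g).symm y) l) =
        (fun y : Pt (val C U XN) => decide (val C U (lN (lm l)) ∈ y.1)) :=
      funext fun y => hph y l
    rw [h1]
    have h2 : Continuous (fun (y : Pt (val C U XN)) (l : ZFSet.{0}) => decide (l ∈ y.1)) :=
      continuous_induced_dom
    exact (continuous_apply (val C U (lN (lm l)))).comp h2
  · let t0 : TopologicalSpace (Pt (val C U XN)) :=
      TopologicalSpace.induced (fun y => phV (vz C U) (vT C) ((ee h g).symm y)) inferInstance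
    change t0 ≤ TopologicalSpace.induced
        (fun (x : Pt (val C U XN)) (l : ZFSet.{0}) => decide (l ∈ x.1)) inferInstance
    rw [← continuous_iff_le_induced]
    have h2 : @Continuous _ _ t0 _ (fun y => phV (vz C U) (vT C) ((ee h g).symm y)) :=
      continuous_induced_dom
    refine @continuous_pi _ _ _ t0 _ _ fun z => ?_
    by_cases hz : ∃ l : LV (VC C), z = val C U (lN (lm l))
    · obtain ⟨l, rfl⟩ := hz
      have h1 : (fun y : Pt (val C U XN) => decide (val C U (lN (lm l)) ∈ y.1)) =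
          (fun f : LV (VC C) → Bool => f l) ∘
            (fun y => phV (vz C U) (vT C) ((ee h g).symm y)) :=
        funext fun y => (hph y l).symm
      rw [h1]
      exact @Continuous.comp _ _ _ t0 _ _ _ _ (continuous_apply l) h2
    · have h1 : (fun y : Pt (val C U XN) => decide (z ∈ y.1)) = fun _ => false := by
        funext y
        refine decide_eq_false fun hy => hz ?_
        obtain ⟨x, hx⟩ := (ee h g).surjective y
        rw [← hx, ee_val, mem_pt h g x.1.2] at hy
        obtain ⟨l, h1, _, h3⟩ := hy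
        obtain ⟨l', rfl⟩ := lm_surj g h1
        exact ⟨l', h3⟩
      rw [h1]
      exact @continuous_const _ _ t0 _ _

end TK

end SymExt
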